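import Mathlib
import Pool.Agent.H345R2.Chi
import Pool.Agent.H437R2.A1

/-!
# The function `GG s = (s-1) ζ(s) / (s+3)`: growth, size to the right of `1`, reflection
-/

set_option autoImplicit false

open MeasureTheory Filter Topology Set Real

namespace Pool.Agent.Y757.LS

/-! ### crude bounds of zeta in `Re s > 1` (as in `Pool.Agent.H31R2.DH.BackZeta`) -/

lemma lseries_bound {a : ℝ} (ha : 1 < a) (f : ℕ → ℂ) (hf : ∀ n, ‖f n‖ ≤ 1) {s : ℂ}
    (hs : a ≤ s.re) : ‖LSeries f s‖ ≤ ∑' n : ℕ, 1 / (n:ℝ) ^ a := by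
  have hsum : Summable (fun n : ℕ => 1 / (n:ℝ) ^ a) := Real.summable_one_div_nat_rpow.mpr ha
  unfold LSeries
  refine tsum_of_norm_bounded hsum.hasSum ?_
  intro n
  rw [LSeries.norm_term_eq]
  rcases Nat.eq_zero_or_pos n with rfl | hn
  · simp only [↓reduceIte]
    positivity
  · rw [if_neg (by omega)]
    have hn1 : (1:ℝ) ≤ n := by exact_mod_cast hn
    have h1 : (n:ℝ) ^ a ≤ (n:ℝ) ^ s.re := Real.rpow_le_rpow_of_exponent_le hn1 hs
    have h2 : 0 < (n:ℝ) ^ a := by positivity
    calc ‖f n‖ / (n:ℝ) ^ s.re ≤ 1 / (n:ℝ) ^ s.re := by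
          gcongr
          exact hf n
      _ ≤ 1 / (n:ℝ) ^ a := by gcongr

/-- crude bounds in `Re s ≥ a > 1` -/
lemma zeta_bounds {a : ℝ} (ha : 1 < a) : ∃ A : ℝ, 1 ≤ A ∧ ∀ s : ℂ, a ≤ s.re →
    ‖riemannZeta s‖ ≤ A ∧ 1 / A ≤ ‖riemannZeta s‖ := by
  set K := ∑' n : ℕ, 1 / (n:ℝ) ^ a with hK
  refine ⟨max K 1, le_max_right _ _, fun s hs => ?_⟩
  have hs1 : 1 < s.re := by linarith
  have hA : 0 < max K 1 := lt_of_lt_of_le one_pos (le_max_right _ _)
  constructor
  · rw [← LSeries_one_eq_riemannZeta hs1]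
    exact (lseries_bound ha 1 (fun n => by simp) hs).trans (le_max_left _ _)
  · have h1 : riemannZeta s * LSeries (fun n => (ArithmeticFunction.moebius n : ℂ)) s = 1 := by
      rw [← LSeries_one_eq_riemannZeta hs1]
      exact LSeries_one_mul_Lseries_moebius hs1
    have h2 : ‖LSeries (fun n => (ArithmeticFunction.moebius n : ℂ)) s‖ ≤ max K 1 := by
      refine (lseries_bound ha _ (fun n => ?_) hs).trans (le_max_left _ _)
      have h : |ArithmeticFunction.moebius n| ≤ 1 := ArithmeticFunction.abs_moebius_le_one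
      rw [Complex.norm_intCast]
      exact_mod_cast h
    have h3 : ‖riemannZeta s‖ * ‖LSeries (fun n => (ArithmeticFunction.moebius n : ℂ)) s‖ = 1 := by
      rw [← norm_mul, h1, norm_one]
    rw [div_le_iff₀ hA]
    calc (1 : ℝ) = ‖riemannZeta s‖ * ‖LSeries (fun n => (ArithmeticFunction.moebius n : ℂ)) s‖ := h3.symm
      _ ≤ ‖riemannZeta s‖ * max K 1 := by gcongr

/-! ### the function -/

/-- `(s-1) ζ(s) / (s+3)` -/
noncomputable def GG (s : ℂ) : ℂ := riemannZeta₁ s / (s + 3)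

lemma add_three_ne {s : ℂ} (hs : -3 < s.re) : s + 3 ≠ 0 := by
  intro h
  have := congrArg Complex.re h
  simp at this
  linarith

lemma GG_analyticAt {s : ℂ} (hs : -3 < s.re) : AnalyticAt ℂ GG s := by
  unfold GG
  refine AnalyticAt.div ?_ (by fun_prop) (add_three_ne hs)
  exact (differentiable_riemannZeta₁.analyticAt s)

lemma GG_measurable : Measurable GG := by
  unfold GG
  exact differentiable_riemannZeta₁.continuous.measurable.div (by fun_prop)

lemma GG_of_ne {s : ℂ} (h : s ≠ 1) : GG s = (s - 1) / (s + 3) * riemannZeta s := by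
  unfold GG
  rw [Pool.Agent.H437R2.z1_of_ne h]
  ring

lemma ratio_le {s : ℂ} (hs : -1 ≤ s.re) : ‖(s - 1) / (s + 3)‖ ≤ 1 := by
  have h3 := add_three_ne (s := s) (by linarith)
  rw [norm_div, div_le_one (norm_pos_iff.2 h3)]
  rw [← sq_le_sq₀ (norm_nonneg _) (norm_nonneg _), ← Complex.normSq_eq_norm_sq,
    ← Complex.normSq_eq_norm_sq, Complex.normSq_apply, Complex.normSq_apply]
  simp only [Complex.sub_re, Complex.one_re, Complex.sub_im, Complex.one_im, sub_zero,
    Complex.add_re, Complex.add_im]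
  have e1 : (3 : ℂ).re = 3 := rfl
  have e2 : (3 : ℂ).im = 0 := rfl
  rw [e1, e2]
  nlinarith

lemma ratio_ge {s : ℂ} (hs : -3 < s.re) {η : ℝ} (hη : 0 < η) (h : η ≤ ‖s - 1‖) :
    (1 + 4 / η)⁻¹ ≤ ‖(s - 1) / (s + 3)‖ := by
  have h3 := add_three_ne (s := s) hs
  have h4 : ‖s + 3‖ ≤ ‖s - 1‖ + 4 := by
    have : s + 3 = (s - 1) + 4 := by ring
    rw [this]
    refine (norm_add_le _ _).trans ?_
    simp
  have h5 : ‖s + 3‖ ≤ (1 + 4 / η) * ‖s - 1‖ := by
    have : 4 ≤ 4 / η * ‖s - 1‖ := by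
      rw [div_mul_eq_mul_div, le_div_iff₀ hη]
      nlinarith
    linarith
  rw [norm_div, le_div_iff₀ (norm_pos_iff.2 h3), inv_mul_le_iff₀ (by positivity)]
  exact h5

/-! ### reflection -/

/-- exact reflection, in the upper and the lower half plane -/
lemma zeta_refl : ∃ K : ℝ, 0 < K ∧ ∀ x t : ℝ, 0 ≤ x → x ≤ 3 / 2 → 1 ≤ |t| →
    Real.exp (-K) * |t| ^ x * ‖riemannZeta (1 / 2 + x + t * Complex.I)‖ ≤
      ‖riemannZeta (1 / 2 - x + t * Complex.I)‖ ∧
    ‖riemannZeta (1 / 2 - x + t * Complex.I)‖ ≤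
      Real.exp K * |t| ^ x * ‖riemannZeta (1 / 2 + x + t * Complex.I)‖ := by
  obtain ⟨K, hK, hX⟩ := H345.Chi.XX_size
  refine ⟨K, hK, ?_⟩
  have key : ∀ x t : ℝ, 0 ≤ x → x ≤ 3 / 2 → 1 ≤ t →
      Real.exp (-K) * t ^ x * ‖riemannZeta (1 / 2 + x + t * Complex.I)‖ ≤
        ‖riemannZeta (1 / 2 - x - t * Complex.I)‖ ∧
      ‖riemannZeta (1 / 2 - x - t * Complex.I)‖ ≤
        Real.exp K * t ^ x * ‖riemannZeta (1 / 2 + x + t * Complex.I)‖ := by
    intro x t hx hx' ht
    set s : ℂ := 1 / 2 + x + t * Complex.I with hs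
    have hre : s.re = 1 / 2 + x := by simp [hs]
    have him : s.im = t := by simp [hs]
    have h1 := H345.zeta_fe s (by
      intro n hn
      have := congrArg Complex.re hn
      rw [hre] at this
      simp only [Complex.neg_re, Complex.natCast_re] at this
      have h0 : (0:ℝ) ≤ n := Nat.cast_nonneg n
      linarith) (by
      intro hn
      have := congrArg Complex.im hn
      rw [him] at this
      simp at this
      linarith)
    have h2 : 1 - s = 1 / 2 - x - t * Complex.I := by rw [hs]; ring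
    rw [h2] at h1
    have h3 := hX s (by rw [hre]; linarith) (by rw [hre]; linarith) (by rw [him]; exact ht)
    rw [hre, him, show (1:ℝ) / 2 + x - 1 / 2 = x by ring] at h3
    rw [h1, norm_mul]
    have h4 := norm_nonneg (riemannZeta s)
    exact ⟨mul_le_mul_of_nonneg_right h3.1 h4, mul_le_mul_of_nonneg_right h3.2 h4⟩
  intro x t hx hx' ht
  rcases le_or_gt 0 t with h0 | h0
  · rw [abs_of_nonneg h0] at ht ⊢
    have h1 := key x t hx hx' ht
    have e : riemannZeta (1 / 2 - x - t * Complex.I) =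
        (starRingEnd ℂ) (riemannZeta (1 / 2 - x + t * Complex.I)) := by
      rw [← riemannZeta_conj]
      congr 1
      simp only [map_add, map_sub, map_div₀, map_one, map_mul, Complex.conj_ofReal, Complex.conj_I]
      rw [Complex.conj_ofNat]
      ring
    rw [e, Complex.norm_conj] at h1
    exact h1
  · rw [abs_of_neg h0] at ht ⊢
    have h1 := key x (-t) hx hx' ht
    have e : riemannZeta (1 / 2 + x + ((-t : ℝ) : ℂ) * Complex.I) =
        (starRingEnd ℂ) (riemannZeta (1 / 2 + x + t * Complex.I)) := by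
      rw [← riemannZeta_conj]
      congr 1
      simp only [map_add, map_sub, map_div₀, map_one, map_mul, Complex.conj_ofReal, Complex.conj_I]
      rw [Complex.conj_ofNat]
      push_cast
      ring
    have e2 : (1 / 2 - x - ((-t : ℝ) : ℂ) * Complex.I : ℂ) = 1 / 2 - x + t * Complex.I := by
      push_cast; ring
    rw [e, e2, Complex.norm_conj] at h1
    exact h1

/-! ### growth -/

/-- polynomial bound in `Re z ≥ -1` -/
lemma GG_growth : ∃ C : ℝ, 1 ≤ C ∧ ∀ z : ℂ, -1 ≤ z.re → ‖GG z‖ ≤ C * (‖z‖ + 1) ^ 4 := by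
  obtain ⟨K, hK, hR⟩ := zeta_refl
  obtain ⟨C1, hC1⟩ : ∃ C1 : ℝ, ∀ z ∈ (Icc (-1:ℝ) (1/2)) ×ℂ (Icc (-1:ℝ) 1), ‖GG z‖ ≤ C1 := by
    refine (isCompact_Icc.reProdIm isCompact_Icc).exists_bound_of_continuousOn ?_
    intro z hz
    have : (-1:ℝ) ≤ z.re := hz.1.1
    exact (GG_analyticAt (by linarith)).continuousAt.continuousWithinAt
  refine ⟨max (max C1 3) (27 * Real.exp K), ?_, ?_⟩
  · exact le_trans (by norm_num) ((le_max_right C1 3).trans (le_max_left _ _))
  intro z hz
  have hn := norm_nonneg z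
  have h1 : (1:ℝ) ≤ (‖z‖ + 1) ^ 4 := one_le_pow₀ (by linarith)
  have hmx : 0 ≤ max (max C1 3) (27 * Real.exp K) :=
    le_trans (by norm_num) ((le_max_right C1 3).trans (le_max_left _ _))
  rcases le_or_gt (1/2) z.re with h2 | h2
  · have h3 := Pool.Agent.H437R2.z1_norm_le h2
    have h4 : (1:ℝ) ≤ ‖z + 3‖ := by
      refine le_trans ?_ (Complex.abs_re_le_norm _)
      have e1 : (3 : ℂ).re = 3 := rfl
      rw [Complex.add_re, e1, abs_of_pos (by linarith)]
      linarith
    unfold GG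
    rw [norm_div, div_le_iff₀ (by linarith)]
    have h5 : (‖z‖ + 1) ^ 2 ≤ (‖z‖ + 1) ^ 4 := pow_le_pow_right₀ (by linarith) (by norm_num)
    calc ‖riemannZeta₁ z‖ ≤ 3 * (‖z‖ + 1) ^ 2 := h3
      _ ≤ max (max C1 3) (27 * Real.exp K) * (‖z‖ + 1) ^ 4 := by
          gcongr
          exact (le_max_right C1 3).trans (le_max_left _ _)
      _ ≤ max (max C1 3) (27 * Real.exp K) * (‖z‖ + 1) ^ 4 * ‖z + 3‖ :=
          le_mul_of_one_le_right (by positivity) h4
  · rcases le_or_gt |z.im| 1 with h3 | h3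
    · have h4 := hC1 z ⟨⟨hz, h2.le⟩, abs_le.1 h3⟩
      calc ‖GG z‖ ≤ C1 := h4
        _ ≤ max (max C1 3) (27 * Real.exp K) := (le_max_left C1 3).trans (le_max_left _ _)
        _ ≤ _ := le_mul_of_one_le_right hmx h1
    · set x : ℝ := 1 / 2 - z.re with hx
      set t : ℝ := z.im with ht
      have hzz : z = 1 / 2 - x + t * Complex.I := by
        apply Complex.ext <;> simp [hx, ht]
      have hne : z ≠ 1 := by
        intro h
        rw [h] at ht
        rw [ht] at h3
        simp at h3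
        linarith
      have h4 := (hR x t (by rw [hx]; linarith) (by rw [hx]; linarith) h3.le).2
      rw [← hzz] at h4
      set w : ℂ := 1 / 2 + x + t * Complex.I with hw
      have hwre : w.re = 1 / 2 + x := by simp [hw]
      have hwim : w.im = t := by simp [hw]
      have hw1 : 1 ≤ ‖w - 1‖ := by
        refine le_trans h3.le ((le_of_eq ?_).trans (Complex.abs_im_le_norm (w - 1)))
        rw [Complex.sub_im, hwim]
        simp
      have hwne : w ≠ 1 := by
        intro h
        rw [h] at hw1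
        simp at hw1
        linarith
      have h5 : ‖riemannZeta w‖ ≤ 3 * (‖w‖ + 1) ^ 2 := by
        have h6 := Pool.Agent.H437R2.z1_norm_le (s := w) (by rw [hwre, hx]; linarith)
        rw [Pool.Agent.H437R2.z1_of_ne hwne, norm_mul] at h6
        have := norm_nonneg (riemannZeta w)
        nlinarith
      have h7 : ‖w‖ ≤ ‖z‖ + 2 := by
        have e : w = (-z) + (1 + 2 * t * Complex.I) - 0 := by
          rw [hw, hzz]; ring
        have e' : w = (starRingEnd ℂ) (1 - z) := by
          apply Complex.ext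
          · rw [hwre, Complex.conj_re]; simp [hx]; ring
          · rw [hwim, Complex.conj_im]; simp [ht]
        rw [e', Complex.norm_conj]
        refine (norm_sub_le _ _).trans ?_
        rw [norm_one]; linarith
      have h8 : |t| ^ x ≤ (‖z‖ + 1) ^ 2 := by
        have h9 : |t| ≤ ‖z‖ + 1 := (Complex.abs_im_le_norm z).trans (by linarith)
        calc |t| ^ x ≤ |t| ^ (2 : ℝ) := by
              apply Real.rpow_le_rpow_of_exponent_le h3.le
              rw [hx]; linarith
          _ = |t| ^ 2 := by norm_cast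
          _ ≤ (‖z‖ + 1) ^ 2 := by gcongr
      rw [GG_of_ne hne, norm_mul]
      have hr := ratio_le hz
      have hexp := Real.exp_pos K
      calc ‖(z - 1) / (z + 3)‖ * ‖riemannZeta z‖ ≤ 1 * ‖riemannZeta z‖ := by gcongr
        _ ≤ Real.exp K * |t| ^ x * ‖riemannZeta w‖ := by rw [one_mul]; exact h4
        _ ≤ Real.exp K * (‖z‖ + 1) ^ 2 * (3 * (‖w‖ + 1) ^ 2) := by gcongr
        _ ≤ Real.exp K * (‖z‖ + 1) ^ 2 * (3 * (3 * (‖z‖ + 1)) ^ 2) := by
            gcongr
            linarith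
        _ = 27 * Real.exp K * (‖z‖ + 1) ^ 4 := by ring
        _ ≤ _ := by
            gcongr
            exact le_max_right _ _

end Pool.Agent.Y757.LS
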