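import Mathlib

/-!
# The exit kernel of a strip

`ker h y` is the density of the imaginary part of the exit point, on either side, of the strip
`|Re z| < h` for Brownian motion started at `0`.
-/

set_option autoImplicit false

open MeasureTheory Filter Topology Set Real

namespace Pool.Agent.Y757.LS

/-- `1 / (2 h cosh (π y / (2 h)))` -/
noncomputable def ker (h y : ℝ) : ℝ := 1 / (2 * h * Real.cosh (π * y / (2 * h)))

lemma ker_pos {h : ℝ} (hh : 0 < h) (y : ℝ) : 0 < ker h y := by
  unfold ker
  have := Real.cosh_pos (π * y / (2 * h))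
  positivity

lemma ker_neg (h y : ℝ) : ker h (-y) = ker h y := by
  unfold ker
  rw [mul_neg, neg_div, Real.cosh_neg]

lemma ker_continuous {h : ℝ} (hh : 0 < h) : Continuous (ker h) := by
  unfold ker
  refine Continuous.div continuous_const (by fun_prop) ?_
  intro y
  have := Real.cosh_pos (π * y / (2 * h))
  positivity

/-- comparison of two kernels -/
lemma ker_le {h H : ℝ} (hh : 0 < h) (hH : h ≤ H) (y : ℝ) : ker h y ≤ H / h * ker H y := by
  unfold ker
  have h1 : Real.cosh (π * y / (2 * H)) ≤ Real.cosh (π * y / (2 * h)) := by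
    rw [Real.cosh_le_cosh, abs_div, abs_div]
    have h2 : |2 * h| = 2 * h := abs_of_pos (by linarith)
    have h3 : |2 * H| = 2 * H := abs_of_pos (by linarith)
    rw [h2, h3]
    gcongr
  have h0 := Real.cosh_pos (π * y / (2 * H))
  have h0' := Real.cosh_pos (π * y / (2 * h))
  have hH0 : 0 < H := lt_of_lt_of_le hh hH
  have e : H / h * (1 / (2 * H * Real.cosh (π * y / (2 * H)))) =
      1 / (2 * h * Real.cosh (π * y / (2 * H))) := by
    field_simp
  rw [e]
  apply one_div_le_one_div_of_le (by positivity)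
  gcongr

/-- exponential decay -/
lemma ker_le_exp {h : ℝ} (hh : 0 < h) (y : ℝ) :
    ker h y ≤ 1 / h * Real.exp (-(π / (2 * h)) * |y|) := by
  unfold ker
  have h1 : Real.exp (π / (2 * h) * |y|) / 2 ≤ Real.cosh (π * y / (2 * h)) := by
    have e : Real.cosh (π * y / (2 * h)) = Real.cosh (π / (2 * h) * |y|) := by
      rw [← Real.cosh_abs (π * y / (2 * h))]
      congr 1
      rw [abs_div, abs_mul, abs_of_pos Real.pi_pos, abs_of_pos (by linarith : 0 < 2 * h)]
      ring
    rw [e, Real.cosh_eq]
    have := Real.exp_pos (-(π / (2 * h) * |y|))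
    linarith
  have h2 := Real.exp_pos (π / (2 * h) * |y|)
  rw [show -(π / (2 * h)) * |y| = -(π / (2 * h) * |y|) by ring, Real.exp_neg]
  calc 1 / (2 * h * Real.cosh (π * y / (2 * h))) ≤ 1 / (2 * h * (Real.exp (π / (2 * h) * |y|) / 2)) := by
        apply one_div_le_one_div_of_le (by positivity)
        gcongr
    _ = 1 / h * (Real.exp (π / (2 * h) * |y|))⁻¹ := by field_simp

lemma integrable_sq_exp {a : ℝ} (ha : 0 < a) :
    Integrable (fun y : ℝ => (1 + y ^ 2) * Real.exp (-a * |y|)) := by
  have h1 : IntegrableOn (fun y : ℝ => (1 + y ^ 2) * Real.exp (-a * |y|)) (Ioi 0) := by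
    have h2 : IntegrableOn (fun y : ℝ => y ^ (0 : ℝ) * Real.exp (-a * y ^ (1 : ℝ))) (Ioi 0) :=
      integrableOn_rpow_mul_exp_neg_mul_rpow (by norm_num) (by norm_num) ha
    have h3 : IntegrableOn (fun y : ℝ => y ^ (2 : ℝ) * Real.exp (-a * y ^ (1 : ℝ))) (Ioi 0) :=
      integrableOn_rpow_mul_exp_neg_mul_rpow (by norm_num) (by norm_num) ha
    refine (h2.add h3).congr_fun (fun y hy => ?_) measurableSet_Ioi
    have hy' : (0 : ℝ) < y := hy
    simp only [Real.rpow_zero, Real.rpow_one, Pi.add_apply]
    rw [abs_of_pos hy', show (2 : ℝ) = ((2 : ℕ) : ℝ) by norm_num, Real.rpow_natCast]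
    ring
  have h4 : IntegrableOn (fun y : ℝ => (1 + y ^ 2) * Real.exp (-a * |y|)) (Ici 0) :=
    (integrableOn_Ici_iff_integrableOn_Ioi (by finiteness)).2 h1
  have h5 : IntegrableOn (fun y : ℝ => (1 + y ^ 2) * Real.exp (-a * |y|)) (Iic 0) := by
    have h7 : IntegrableOn (fun y : ℝ => (1 + y ^ 2) * Real.exp (-a * |y|)) (Ici (-0)) := by
      rwa [neg_zero]
    have := h7.comp_neg_Iic
    simpa using this
  have h6 := h5.union h1
  rw [Iic_union_Ioi, integrableOn_univ] at h6
  exact h6

lemma ker_sq_integrable {h : ℝ} (hh : 0 < h) : Integrable (fun y : ℝ => (1 + y ^ 2) * ker h y) := by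
  refine ((integrable_sq_exp (a := π / (2 * h)) (by positivity)).const_mul (1 / h)).mono'
    (by have := ker_continuous hh; fun_prop) (Eventually.of_forall fun y => ?_)
  have h1 := ker_pos hh y
  rw [Real.norm_of_nonneg (by positivity)]
  have h2 := ker_le_exp hh y
  have h3 : 0 ≤ 1 + y ^ 2 := by positivity
  calc (1 + y ^ 2) * ker h y ≤ (1 + y ^ 2) * (1 / h * Real.exp (-(π / (2 * h)) * |y|)) :=
        mul_le_mul_of_nonneg_left h2 h3
    _ = _ := by ring

/-- integrability against the kernel -/
lemma ker_integrable_of_le {h : ℝ} (hh : 0 < h) {f : ℝ → ℝ} (hf : AEStronglyMeasurable f volume)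
    {A : ℝ} (hA : ∀ y, |f y| ≤ A * (1 + y ^ 2)) : Integrable (fun y => f y * ker h y) := by
  refine ((ker_sq_integrable hh).const_mul A).mono'
    (hf.mul (ker_continuous hh).aestronglyMeasurable) (Eventually.of_forall fun y => ?_)
  have h1 := ker_pos hh y
  rw [norm_mul, Real.norm_eq_abs, Real.norm_of_nonneg h1.le]
  calc |f y| * ker h y ≤ A * (1 + y ^ 2) * ker h y := mul_le_mul_of_nonneg_right (hA y) h1.le
    _ = _ := by ring

lemma ker_integrable {h : ℝ} (hh : 0 < h) : Integrable (ker h) := by
  have := ker_integrable_of_le hh (f := fun _ => (1 : ℝ)) (by fun_prop) (A := 1)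
    (fun y => by rw [abs_one]; nlinarith [sq_nonneg y])
  simpa using this

/-- the angle -/
noncomputable def ang (h y : ℝ) : ℝ := 2 * Real.arctan (Real.exp (-(π * y / (2 * h))))

lemma ang_hasDerivAt {h : ℝ} (hh : 0 < h) (y : ℝ) : HasDerivAt (ang h) (-(π * ker h y)) y := by
  have h1 : HasDerivAt (fun y : ℝ => -(π * y / (2 * h))) (-(π / (2 * h))) y := by
    have := (((hasDerivAt_id' y).const_mul π).div_const (2 * h)).fun_neg
    simpa using this
  have h2 := (h1.exp.arctan).const_mul 2
  refine HasDerivAt.congr_deriv h2 ?_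
  unfold ker
  rw [Real.cosh_eq]
  set u := π * y / (2 * h)
  have e1 : Real.exp (-u) ≠ 0 := (Real.exp_pos _).ne'
  have e2 : Real.exp u = (Real.exp (-u))⁻¹ := by rw [Real.exp_neg, inv_inv]
  rw [e2]
  have e3 : (0:ℝ) < Real.exp (-u) := Real.exp_pos _
  field_simp

lemma ang_mem (h y : ℝ) : ang h y ∈ Ioo 0 π := by
  unfold ang
  have h1 : 0 < Real.arctan (Real.exp (-(π * y / (2 * h)))) :=
    Real.arctan_pos.2 (Real.exp_pos _)
  have h2 := Real.arctan_lt_pi_div_two (Real.exp (-(π * y / (2 * h))))
  constructor <;> linarith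

lemma ang_strictAnti {h : ℝ} (hh : 0 < h) : StrictAnti (ang h) := by
  intro x y hxy
  unfold ang
  have : Real.exp (-(π * y / (2 * h))) < Real.exp (-(π * x / (2 * h))) := by
    apply Real.exp_lt_exp.2
    have := Real.pi_pos
    apply neg_lt_neg
    gcongr
  have := Real.arctan_strictMono this
  linarith

lemma ang_image {h : ℝ} (hh : 0 < h) : ang h '' univ = Ioo 0 π := by
  apply Subset.antisymm
  · rintro _ ⟨y, -, rfl⟩
    exact ang_mem h y
  · intro θ hθ
    have h1 : 0 < Real.tan (θ / 2) := Real.tan_pos_of_pos_of_lt_pi_div_two (by linarith [hθ.1])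
      (by linarith [hθ.2])
    refine ⟨-(2 * h / π) * Real.log (Real.tan (θ / 2)), mem_univ _, ?_⟩
    unfold ang
    have h2 : -(π * (-(2 * h / π) * Real.log (Real.tan (θ / 2))) / (2 * h)) =
        Real.log (Real.tan (θ / 2)) := by
      have := Real.pi_pos
      field_simp
    rw [h2, Real.exp_log h1, Real.arctan_tan (by linarith [hθ.1, Real.pi_pos]) (by linarith [hθ.2])]
    ring

/-- change of variables -/
lemma integral_ang {h : ℝ} (hh : 0 < h) (g : ℝ → ℝ) :
    ∫ θ in Ioo 0 π, g θ = ∫ y, π * ker h y * g (ang h y) := by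
  rw [← ang_image hh, integral_image_eq_integral_abs_deriv_smul MeasurableSet.univ
    (fun y _ => (ang_hasDerivAt hh y).hasDerivWithinAt) (ang_strictAnti hh).injective.injOn]
  rw [Measure.restrict_univ]
  refine integral_congr_ae (Eventually.of_forall fun y => ?_)
  have := ker_pos hh y
  simp only [abs_neg, smul_eq_mul]
  rw [abs_of_pos (by positivity)]

lemma integral_ker {h : ℝ} (hh : 0 < h) : ∫ y, ker h y = 1 := by
  have h1 := integral_ang hh (fun _ => 1)
  simp only [mul_one] at h1
  rw [integral_const_mul, setIntegral_const] at h1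
  simp only [smul_eq_mul, mul_one] at h1
  rw [Measure.real, Real.volume_Ioo, ENNReal.toReal_ofReal (by linarith [Real.pi_pos])] at h1
  have := Real.pi_pos
  have h2 : π * (∫ y, ker h y) = π * 1 := by linarith
  exact mul_left_cancel₀ this.ne' h2

/-- the second moment of `ker 1` -/
noncomputable def C0 : ℝ := ∫ y, y ^ 2 * ker 1 y

lemma C0_nonneg : 0 ≤ C0 := integral_nonneg fun y => by
  have := ker_pos one_pos y
  positivity

lemma ker_scale {h : ℝ} (hh : 0 < h) (y : ℝ) : ker h (h * y) = h⁻¹ * ker 1 y := by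
  unfold ker
  have : π * (h * y) / (2 * h) = π * y / (2 * 1) := by field_simp
  rw [this]
  have := Real.cosh_pos (π * y / (2 * 1))
  field_simp

lemma integral_sq_ker {h : ℝ} (hh : 0 < h) : ∫ y, y ^ 2 * ker h y = C0 * h ^ 2 := by
  have h1 := Measure.integral_comp_mul_left (fun y => y ^ 2 * ker h y) h
  simp only [smul_eq_mul] at h1
  have h2 : ∫ x, (h * x) ^ 2 * ker h (h * x) = h * C0 := by
    unfold C0
    rw [← integral_const_mul]
    refine integral_congr_ae (Eventually.of_forall fun y => ?_)
    simp only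
    rw [ker_scale hh]
    field_simp
  rw [h2, abs_of_pos (by positivity)] at h1
  field_simp at h1
  linarith

lemma integral_id_ker (h : ℝ) : ∫ y, y * ker h y = 0 := by
  have h1 := integral_neg_eq_self (fun y => y * ker h y) volume
  simp only [ker_neg, neg_mul] at h1
  rw [integral_neg] at h1
  linarith

/-- quadratic majorants -/
lemma integral_quad_ker {h : ℝ} (hh : 0 < h) (p q a : ℝ) :
    ∫ y, (p + q * (a + y) ^ 2) * ker h y = p + q * (a ^ 2 + C0 * h ^ 2) := by
  have i0 := ker_integrable hh
  have i1 : Integrable (fun y => y * ker h y) := ker_integrable_of_le hh (by fun_prop) (A := 1)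
    (fun y => by rw [one_mul]; rcases abs_cases y with h | h <;> nlinarith [sq_nonneg (y - 1), sq_nonneg (y + 1)])
  have i2 : Integrable (fun y => y ^ 2 * ker h y) := ker_integrable_of_le hh (by fun_prop) (A := 1)
    (fun y => by rw [abs_of_nonneg (sq_nonneg y)]; nlinarith [sq_nonneg y])
  have e : (fun y => (p + q * (a + y) ^ 2) * ker h y) =
      fun y => (p + q * a ^ 2) * ker h y + (2 * q * a) * (y * ker h y) + q * (y ^ 2 * ker h y) := by
    funext y; ring
  rw [e, integral_add (by exact (i0.const_mul _).add (i1.const_mul _)) (i2.const_mul _),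
    integral_add (i0.const_mul _) (i1.const_mul _), integral_const_mul, integral_const_mul,
    integral_const_mul, integral_ker hh, integral_id_ker h, integral_sq_ker hh]
  ring

end Pool.Agent.Y757.LS
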