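import Mathlib
import Pool.Agent.H983R4.LH.P1
import Pool.Agent.Y757.LS.Ker

/-!
# The Poisson inequality for `log⁺ |F|` at the centre of a strip
-/

set_option autoImplicit false

open MeasureTheory Filter Topology Set Real

namespace Pool.Agent.Y757.LS

/-- the disc is mapped to the strip `|Re (z - z₀)| < h` -/
noncomputable def M (z₀ : ℂ) (h : ℝ) (w : ℂ) : ℂ :=
  z₀ + Complex.I * (2 * h / π : ℝ) * Complex.log ((1 + w) / (1 - w))

lemma M_zero (z₀ : ℂ) (h : ℝ) : M z₀ h 0 = z₀ := by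
  unfold M; simp

lemma M_re (z₀ : ℂ) (h : ℝ) (w : ℂ) :
    (M z₀ h w).re = z₀.re - 2 * h / π * ((1 + w) / (1 - w)).arg := by
  unfold M
  rw [mul_assoc, Complex.add_re, Complex.I_mul_re, Complex.im_ofReal_mul, Complex.log_im]
  ring

lemma M_im (z₀ : ℂ) (h : ℝ) (w : ℂ) :
    (M z₀ h w).im = z₀.im + 2 * h / π * Real.log ‖(1 + w) / (1 - w)‖ := by
  unfold M
  rw [mul_assoc, Complex.add_im, Complex.I_mul_im, Complex.re_ofReal_mul, Complex.log_re]

lemma one_sub_ne {w : ℂ} (hw : ‖w‖ < 1) : 1 - w ≠ 0 := by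
  intro h
  have : w = 1 := (sub_eq_zero.1 h).symm
  rw [this] at hw
  simp at hw

lemma re_cayley {w : ℂ} (hw : ‖w‖ < 1) : 0 < ((1 + w) / (1 - w)).re := by
  have h1 := one_sub_ne hw
  have h2 : 0 < Complex.normSq (1 - w) := Complex.normSq_pos.2 h1
  rw [Complex.div_re, ← add_div]
  refine div_pos ?_ h2
  simp only [Complex.add_re, Complex.one_re, Complex.sub_re, Complex.add_im, Complex.one_im,
    Complex.sub_im, zero_add, zero_sub]
  have h3 : Complex.normSq w < 1 := by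
    rw [Complex.normSq_eq_norm_sq]
    have := norm_nonneg w
    nlinarith
  rw [Complex.normSq_apply] at h3
  nlinarith

lemma M_mem {z₀ : ℂ} {h : ℝ} (hh : 0 < h) {w : ℂ} (hw : ‖w‖ < 1) :
    |(M z₀ h w).re - z₀.re| < h := by
  have h1 := re_cayley hw
  have h2 : |((1 + w) / (1 - w)).arg| < π / 2 := by
    rw [Complex.abs_arg_lt_pi_div_two_iff]
    left; exact h1
  rw [M_re]
  have e : z₀.re - 2 * h / π * ((1 + w) / (1 - w)).arg - z₀.re =
      -(2 * h / π * ((1 + w) / (1 - w)).arg) := by ring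
  have hpi := Real.pi_pos
  rw [e, abs_neg, abs_mul, abs_of_pos (by positivity : 0 < 2 * h / π)]
  calc 2 * h / π * |((1 + w) / (1 - w)).arg| < 2 * h / π * (π / 2) := by
        apply mul_lt_mul_of_pos_left h2 (by positivity)
    _ = h := by field_simp

lemma M_analyticAt (z₀ : ℂ) (h : ℝ) {w : ℂ} (hw : ‖w‖ < 1) : AnalyticAt ℂ (M z₀ h) w := by
  unfold M
  refine AnalyticAt.add analyticAt_const (AnalyticAt.mul analyticAt_const ?_)
  refine AnalyticAt.clog ?_ ?_
  · exact AnalyticAt.div (by fun_prop) (by fun_prop) (one_sub_ne hw)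
  · left; exact re_cayley hw

lemma cayley_circle {c s : ℝ} (hcs : c ^ 2 + s ^ 2 = 1) (hs : s ≠ 0) :
    (1 + ((c : ℂ) + s * Complex.I) ^ 2) / (1 - ((c : ℂ) + s * Complex.I) ^ 2) =
      ((c / s : ℝ) : ℂ) * Complex.I := by
  have hs' : (s : ℂ) ≠ 0 := by exact_mod_cast hs
  have e0 : (c : ℂ) ^ 2 + (s : ℂ) ^ 2 = 1 := by exact_mod_cast hcs
  have hI := Complex.I_sq
  have h1 : (1 : ℂ) + ((c : ℂ) + s * Complex.I) ^ 2 = 2 * c * (c + s * Complex.I) := by
    linear_combination (-1 : ℂ) * e0 + (-(s:ℂ) ^ 2) * hI + ((s : ℂ)^2) * hI * 2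
  have h2 : (1 : ℂ) - ((c : ℂ) + s * Complex.I) ^ 2 = -(2 * s * Complex.I) * (c + s * Complex.I) := by
    linear_combination (-1 : ℂ) * e0 + ((s:ℂ) ^ 2) * hI 
  have h3 : (c : ℂ) + s * Complex.I ≠ 0 := by
    intro h
    have h4 := congrArg Complex.im h
    simp at h4
    exact hs h4
  rw [h1, h2]
  push_cast
  have hI0 := Complex.I_ne_zero
  field_simp
  linear_combination (-(c : ℂ)) * hI

lemma circleMap_half (r θ : ℝ) : circleMap 0 r θ =
    r * ((Real.cos (θ / 2) : ℂ) + (Real.sin (θ / 2) : ℂ) * Complex.I) ^ 2 := by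
  rw [circleMap, zero_add]
  congr 1
  have : (θ : ℂ) * Complex.I = ((2 : ℕ) : ℂ) * ((θ / 2 : ℝ) * Complex.I) := by push_cast; ring
  rw [this, Complex.exp_nat_mul, Complex.exp_mul_I, ← Complex.ofReal_cos, ← Complex.ofReal_sin]

/-- the boundary value of the Cayley map -/
lemma cayley_bdry {θ : ℝ} (hs : Real.sin (θ / 2) ≠ 0) :
    (1 + circleMap 0 1 θ) / (1 - circleMap 0 1 θ) =
      ((Real.cos (θ / 2) / Real.sin (θ / 2) : ℝ) : ℂ) * Complex.I := by
  rw [circleMap_half, Complex.ofReal_one, one_mul]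
  exact cayley_circle (Real.cos_sq_add_sin_sq _) hs

lemma norm_bounds (r θ : ℝ) (hr : 0 ≤ r) (hr1 : r ≤ 1) :
    |Real.sin θ| ≤ ‖1 - circleMap 0 r θ‖ ∧ |Real.sin θ| ≤ ‖1 + circleMap 0 r θ‖ ∧
      ‖1 - circleMap 0 r θ‖ ≤ 2 ∧ ‖1 + circleMap 0 r θ‖ ≤ 2 := by
  have h0 : ‖circleMap 0 r θ‖ ≤ 1 := by rw [norm_circleMap_zero, abs_of_nonneg hr]; exact hr1
  have h1 : ‖1 - circleMap 0 r θ‖ ≤ 2 := by
    refine (norm_sub_le _ _).trans ?_
    rw [norm_one]; linarith
  have h2 : ‖1 + circleMap 0 r θ‖ ≤ 2 := by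
    refine (norm_add_le _ _).trans ?_
    rw [norm_one]; linarith
  have hre : (circleMap 0 r θ).re = r * Real.cos θ := by
    rw [circleMap, zero_add, Complex.re_ofReal_mul, Complex.exp_ofReal_mul_I_re]
  have him : (circleMap 0 r θ).im = r * Real.sin θ := by
    rw [circleMap, zero_add, Complex.im_ofReal_mul, Complex.exp_ofReal_mul_I_im]
  have hcs := Real.sin_sq_add_cos_sq θ
  refine ⟨?_, ?_, h1, h2⟩
  · rw [← Real.sqrt_sq_eq_abs, ← Real.sqrt_sq (norm_nonneg (1 - circleMap 0 r θ))]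
    apply Real.sqrt_le_sqrt
    rw [← Complex.normSq_eq_norm_sq, Complex.normSq_apply]
    simp only [Complex.sub_re, Complex.sub_im, Complex.one_re, Complex.one_im, hre, him]
    nlinarith [sq_nonneg (r - Real.cos θ)]
  · rw [← Real.sqrt_sq_eq_abs, ← Real.sqrt_sq (norm_nonneg (1 + circleMap 0 r θ))]
    apply Real.sqrt_le_sqrt
    rw [← Complex.normSq_eq_norm_sq, Complex.normSq_apply]
    simp only [Complex.add_re, Complex.add_im, Complex.one_re, Complex.one_im, hre, him]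
    nlinarith [sq_nonneg (r + Real.cos θ)]

lemma log_cayley_bound (r θ : ℝ) (hr : 0 ≤ r) (hr1 : r ≤ 1) (hs : Real.sin θ ≠ 0) :
    |Real.log ‖(1 + circleMap 0 r θ) / (1 - circleMap 0 r θ)‖| ≤
      Real.log 2 - Real.log (Real.sin θ) := by
  obtain ⟨h1, h2, h3, h4⟩ := norm_bounds r θ hr hr1
  have hs' : 0 < |Real.sin θ| := abs_pos.2 hs
  have p1 : 0 < ‖1 - circleMap 0 r θ‖ := lt_of_lt_of_le hs' h1
  have p2 : 0 < ‖1 + circleMap 0 r θ‖ := lt_of_lt_of_le hs' h2
  rw [norm_div, Real.log_div p2.ne' p1.ne', ← Real.log_abs (Real.sin θ), abs_le]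
  have a1 := Real.log_le_log hs' h1
  have a2 := Real.log_le_log hs' h2
  have a3 := Real.log_le_log p1 h3
  have a4 := Real.log_le_log p2 h4
  constructor <;> linarith

lemma sin_half_ang (h y : ℝ) : 0 < Real.sin (ang h y / 2) := by
  have h1 := ang_mem h y
  exact Real.sin_pos_of_pos_of_lt_pi (by linarith [h1.1]) (by linarith [h1.2, Real.pi_pos])

lemma cot_ang (h y : ℝ) : Real.cos (ang h y / 2) / Real.sin (ang h y / 2) =
    Real.exp (π * y / (2 * h)) := by
  have e : ang h y / 2 = Real.arctan (Real.exp (-(π * y / (2 * h)))) := by unfold ang; ring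
  rw [e]
  have h1 := Real.tan_arctan (Real.exp (-(π * y / (2 * h))))
  rw [Real.tan_eq_sin_div_cos] at h1
  rw [← inv_div, h1, ← Real.exp_neg, neg_neg]

lemma sin_ang (h y : ℝ) : Real.sin (ang h y) = 1 / Real.cosh (π * y / (2 * h)) := by
  unfold ang
  rw [Real.sin_two_mul, Real.sin_arctan, Real.cos_arctan, Real.cosh_eq]
  set v := π * y / (2 * h)
  have e1 : Real.exp v = (Real.exp (-v))⁻¹ := by rw [Real.exp_neg, inv_inv]
  rw [e1]
  have e3 : (0:ℝ) < Real.exp (-v) := Real.exp_pos _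
  set x := Real.exp (-v)
  have h4 : 0 < 1 + x ^ 2 := by positivity
  have h5 : √(1 + x ^ 2) * √(1 + x ^ 2) = 1 + x ^ 2 := Real.mul_self_sqrt h4.le
  have h6 : 0 < √(1 + x ^ 2) := Real.sqrt_pos.2 h4
  rw [show 2 * (x / √(1 + x ^ 2)) * (1 / √(1 + x ^ 2)) = 2 * x / (√(1 + x ^ 2) * √(1 + x ^ 2)) by
    field_simp, h5]
  field_simp

lemma neg_log_sin_ang (h y : ℝ) : -Real.log (Real.sin (ang h y)) ≤ |π * y / (2 * h)| := by
  rw [sin_ang, one_div, Real.log_inv, neg_neg]
  rw [Real.log_le_iff_le_exp (Real.cosh_pos _), Real.cosh_eq]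
  have h1 : Real.exp (π * y / (2 * h)) ≤ Real.exp |π * y / (2 * h)| :=
    Real.exp_le_exp.2 (le_abs_self _)
  have h2 : Real.exp (-(π * y / (2 * h))) ≤ Real.exp |π * y / (2 * h)| :=
    Real.exp_le_exp.2 (neg_le_abs _)
  linarith

lemma cayley_ang (h y : ℝ) :
    (1 + circleMap 0 1 (ang h y)) / (1 - circleMap 0 1 (ang h y)) =
      ((Real.exp (π * y / (2 * h)) : ℝ) : ℂ) * Complex.I := by
  rw [cayley_bdry (sin_half_ang h y).ne', cot_ang]

lemma cayley_neg_ang (h y : ℝ) :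
    (1 + circleMap 0 1 (-ang h y)) / (1 - circleMap 0 1 (-ang h y)) =
      ((Real.exp (π * y / (2 * h)) : ℝ) : ℂ) * (-Complex.I) := by
  have e : -ang h y / 2 = -(ang h y / 2) := by ring
  have h1 : Real.sin (-ang h y / 2) ≠ 0 := by
    rw [e, Real.sin_neg]
    exact neg_ne_zero.2 (sin_half_ang h y).ne'
  rw [cayley_bdry h1, e, Real.sin_neg, Real.cos_neg, div_neg, cot_ang]
  push_cast
  ring

lemma M_ang {h : ℝ} (hh : 0 < h) (z₀ : ℂ) (y : ℝ) :
    M z₀ h (circleMap 0 1 (ang h y)) = z₀ - h + y * Complex.I := by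
  unfold M
  rw [cayley_ang, Complex.log_ofReal_mul (Real.exp_pos _) Complex.I_ne_zero, Real.log_exp,
    Complex.log_I]
  push_cast
  have hpi : (π : ℂ) ≠ 0 := by exact_mod_cast Real.pi_ne_zero
  have hh' : (h : ℂ) ≠ 0 := by exact_mod_cast hh.ne'
  field_simp
  linear_combination (h : ℂ) * Complex.I_sq

lemma M_neg_ang {h : ℝ} (hh : 0 < h) (z₀ : ℂ) (y : ℝ) :
    M z₀ h (circleMap 0 1 (-ang h y)) = z₀ + h + y * Complex.I := by
  unfold M
  rw [cayley_neg_ang, Complex.log_ofReal_mul (Real.exp_pos _) (neg_ne_zero.2 Complex.I_ne_zero),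
    Real.log_exp, Complex.log_neg_I]
  push_cast
  have hpi : (π : ℂ) ≠ 0 := by exact_mod_cast Real.pi_ne_zero
  have hh' : (h : ℂ) ≠ 0 := by exact_mod_cast hh.ne'
  field_simp
  linear_combination (-h : ℂ) * Complex.I_sq

lemma continuousAt_M {z₀ : ℂ} {h : ℝ} {w : ℂ} (h1 : 1 - w ≠ 0)
    (h2 : (1 + w) / (1 - w) ∈ Complex.slitPlane) : ContinuousAt (M z₀ h) w := by
  unfold M
  refine ContinuousAt.add continuousAt_const (ContinuousAt.mul continuousAt_const ?_)
  refine ContinuousAt.clog ?_ h2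
  exact ContinuousAt.div (by fun_prop) (by fun_prop) h1

lemma one_sub_bdry_ne {θ : ℝ} (hs : Real.sin θ ≠ 0) : 1 - circleMap 0 1 θ ≠ 0 := by
  have h1 := (norm_bounds 1 θ (by norm_num) le_rfl).1
  have h2 : 0 < |Real.sin θ| := abs_pos.2 hs
  exact norm_pos_iff.1 (lt_of_lt_of_le h2 h1)

lemma continuousAt_M_ang {h : ℝ} (z₀ : ℂ) (y : ℝ) :
    ContinuousAt (M z₀ h) (circleMap 0 1 (ang h y)) := by
  have h1 := ang_mem h y
  refine continuousAt_M (one_sub_bdry_ne (Real.sin_pos_of_pos_of_lt_pi h1.1 h1.2).ne') ?_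
  rw [cayley_ang, Complex.mem_slitPlane_iff]
  right
  have := Real.exp_pos (π * y / (2 * h))
  rw [Complex.im_ofReal_mul, Complex.I_im, mul_one]
  exact this.ne'

lemma continuousAt_M_neg_ang {h : ℝ} (z₀ : ℂ) (y : ℝ) :
    ContinuousAt (M z₀ h) (circleMap 0 1 (-ang h y)) := by
  have h1 := ang_mem h y
  have h3 : Real.sin (-ang h y) ≠ 0 := by
    rw [Real.sin_neg]
    exact neg_ne_zero.2 (Real.sin_pos_of_pos_of_lt_pi h1.1 h1.2).ne'
  refine continuousAt_M (one_sub_bdry_ne h3) ?_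
  rw [cayley_neg_ang, Complex.mem_slitPlane_iff]
  right
  have := Real.exp_pos (π * y / (2 * h))
  rw [Complex.im_ofReal_mul, Complex.neg_im, Complex.I_im]
  nlinarith

/-- the two boundary values added -/
noncomputable def two (F : ℂ → ℂ) (z₀ : ℂ) (h r θ : ℝ) : ℝ :=
  log⁺ ‖F (M z₀ h (circleMap 0 r θ))‖ + log⁺ ‖F (M z₀ h (circleMap 0 r (-θ)))‖

section
variable {F : ℂ → ℂ} {z₀ : ℂ} {h A B : ℝ}

lemma norm_circle_lt {r : ℝ} (hr : 0 ≤ r) (hr1 : r < 1) (θ : ℝ) : ‖circleMap 0 r θ‖ < 1 := by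
  rw [norm_circleMap_zero, abs_of_nonneg hr]; exact hr1

lemma u_continuous (hh : 0 < h) (hF : ∀ z : ℂ, |z.re - z₀.re| ≤ h → AnalyticAt ℂ F z)
    {r : ℝ} (hr : 0 ≤ r) (hr1 : r < 1) :
    Continuous (fun θ => log⁺ ‖F (M z₀ h (circleMap 0 r θ))‖) := by
  refine Real.continuous_posLog.comp (Continuous.norm ?_)
  rw [continuous_iff_continuousAt]
  intro θ
  have h1 := norm_circle_lt hr hr1 θ
  have h2 : ContinuousAt F (M z₀ h (circleMap 0 r θ)) := (hF _ (M_mem hh h1).le).continuousAt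
  have h3 : ContinuousAt (M z₀ h) (circleMap 0 r θ) := (M_analyticAt z₀ h h1).continuousAt
  have h4 : ContinuousAt (circleMap 0 r) θ := (continuous_circleMap 0 r).continuousAt
  have h5 : ContinuousAt (fun θ => M z₀ h (circleMap 0 r θ)) θ :=
    ContinuousAt.comp (g := M z₀ h) h3 h4
  exact ContinuousAt.comp (g := F) (f := fun θ => M z₀ h (circleMap 0 r θ)) h2 h5

lemma two_continuous (hh : 0 < h) (hF : ∀ z : ℂ, |z.re - z₀.re| ≤ h → AnalyticAt ℂ F z)
    {r : ℝ} (hr : 0 ≤ r) (hr1 : r < 1) : Continuous (two F z₀ h r) :=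
  (u_continuous hh hF hr hr1).add ((u_continuous hh hF hr hr1).comp continuous_neg)

/-- step 1 : the disc inequality, rewritten with the kernel -/
lemma step1 (hh : 0 < h) (hF : ∀ z : ℂ, |z.re - z₀.re| ≤ h → AnalyticAt ℂ F z)
    {r : ℝ} (hr : 0 < r) (hr1 : r < 1) :
    log⁺ ‖F z₀‖ ≤ ∫ y, two F z₀ h r (ang h y) / 2 * ker h y := by
  have h1 : AnalyticOnNhd ℂ (F ∘ M z₀ h) (Metric.closedBall 0 r) := by
    intro w hw
    have hw' : ‖w‖ < 1 := by
      rw [mem_closedBall_zero_iff] at hw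
      exact lt_of_le_of_lt hw hr1
    exact AnalyticAt.comp (hF _ (M_mem hh hw').le) (M_analyticAt z₀ h hw')
  have h2 := Pool.Agent.H983R4.LH.posLog_submean hr h1
  rw [Function.comp_apply, M_zero] at h2
  refine h2.trans (le_of_eq ?_)
  rw [Real.circleAverage]
  set u : ℝ → ℝ := fun θ => log⁺ ‖F (M z₀ h (circleMap 0 r θ))‖ with hu
  have hc : Continuous u := u_continuous hh hF hr.le hr1
  have e1 : (∫ θ in (0:ℝ)..2 * π, log⁺ ‖(F ∘ M z₀ h) (circleMap 0 r θ)‖) = ∫ θ in (0:ℝ)..2 * π, u θ := rfl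
  rw [e1]
  have e2 : ∫ θ in (0:ℝ)..2 * π, u θ = (∫ θ in (0:ℝ)..π, u θ) + ∫ θ in π..2 * π, u θ :=
    (intervalIntegral.integral_add_adjacent_intervals (hc.intervalIntegrable _ _)
      (hc.intervalIntegrable _ _)).symm
  have e3 : ∫ θ in π..2 * π, u θ = ∫ θ in (0:ℝ)..π, u (-θ) := by
    have h3 := intervalIntegral.integral_comp_sub_left (a := 0) (b := π) u (2 * π)
    rw [show 2 * π - π = π by ring, sub_zero] at h3
    rw [← h3]
    apply intervalIntegral.integral_congr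
    intro θ _
    simp only [hu]
    rw [show 2 * π - θ = -θ + 2 * π by ring, periodic_circleMap 0 r (-θ)]
  have hc' : Continuous (fun θ => u (-θ)) := hc.comp continuous_neg
  have e4 : (∫ θ in (0:ℝ)..π, u θ) + (∫ θ in (0:ℝ)..π, u (-θ)) =
      ∫ θ in Ioo 0 π, two F z₀ h r θ := by
    rw [← intervalIntegral.integral_add (hc.intervalIntegrable _ _) (hc'.intervalIntegrable _ _),
      intervalIntegral.integral_of_le Real.pi_pos.le, integral_Ioc_eq_integral_Ioo]
    rfl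
  rw [e2, e3, e4, integral_ang hh, smul_eq_mul, ← integral_const_mul]
  refine integral_congr_ae (Eventually.of_forall fun y => ?_)
  simp only
  have := Real.pi_pos
  field_simp

lemma two_nonneg (r θ : ℝ) : 0 ≤ two F z₀ h r θ := add_nonneg posLog_nonneg posLog_nonneg

lemma u_bound (hh : 0 < h) (hB : 0 ≤ B)
    (hbd : ∀ z : ℂ, |z.re - z₀.re| ≤ h → log⁺ ‖F z‖ ≤ A + B * |z.im - z₀.im|)
    {r : ℝ} (hr : 0 ≤ r) (hr1 : r < 1) (θ : ℝ) (hs : Real.sin θ ≠ 0) :
    log⁺ ‖F (M z₀ h (circleMap 0 r θ))‖ ≤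
      A + B * (2 * h / π * (Real.log 2 - Real.log (Real.sin θ))) := by
  have h1 := norm_circle_lt hr hr1 θ
  refine (hbd _ (M_mem hh h1).le).trans ?_
  have hpi := Real.pi_pos
  have h2 : |(M z₀ h (circleMap 0 r θ)).im - z₀.im| ≤
      2 * h / π * (Real.log 2 - Real.log (Real.sin θ)) := by
    rw [M_im, add_sub_cancel_left, abs_mul, abs_of_pos (by positivity : 0 < 2 * h / π)]
    exact mul_le_mul_of_nonneg_left (log_cayley_bound r θ hr hr1.le hs) (by positivity)
  gcongr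

lemma two_bound (hh : 0 < h) (hB : 0 ≤ B)
    (hbd : ∀ z : ℂ, |z.re - z₀.re| ≤ h → log⁺ ‖F z‖ ≤ A + B * |z.im - z₀.im|)
    {r : ℝ} (hr : 0 ≤ r) (hr1 : r < 1) (y : ℝ) :
    two F z₀ h r (ang h y) ≤ 2 * (A + B * (2 * h / π * (Real.log 2 + |π * y / (2 * h)|))) := by
  have h0 := ang_mem h y
  have hs : Real.sin (ang h y) ≠ 0 := (Real.sin_pos_of_pos_of_lt_pi h0.1 h0.2).ne'
  have hs' : Real.sin (-ang h y) ≠ 0 := by rw [Real.sin_neg]; exact neg_ne_zero.2 hs
  have h1 := u_bound hh hB hbd hr hr1 (ang h y) hs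
  have h2 := u_bound hh hB hbd hr hr1 (-ang h y) hs'
  rw [Real.sin_neg, Real.log_neg_eq_log] at h2
  have h3 := neg_log_sin_ang h y
  have hpi := Real.pi_pos
  have h4 : A + B * (2 * h / π * (Real.log 2 - Real.log (Real.sin (ang h y)))) ≤
      A + B * (2 * h / π * (Real.log 2 + |π * y / (2 * h)|)) := by
    have : 0 ≤ 2 * h / π := by positivity
    gcongr
    linarith
  unfold two
  linarith

lemma tendsto_two (hh : 0 < h) (hF : ∀ z : ℂ, |z.re - z₀.re| ≤ h → AnalyticAt ℂ F z) (y : ℝ) :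
    Tendsto (fun r => two F z₀ h r (ang h y)) (𝓝[<] 1)
      (𝓝 (log⁺ ‖F (z₀ - h + y * Complex.I)‖ + log⁺ ‖F (z₀ + h + y * Complex.I)‖)) := by
  have hr : ∀ θ, ContinuousAt (fun r => circleMap 0 r θ) 1 := by
    intro θ
    simp only [circleMap]
    fun_prop
  have ha : ContinuousAt F (M z₀ h (circleMap 0 1 (ang h y))) := by
    rw [M_ang hh]
    refine (hF _ ?_).continuousAt
    simp only [Complex.add_re, Complex.sub_re, Complex.ofReal_re, Complex.re_ofReal_mul,
      Complex.I_re, mul_zero, add_zero]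
    rw [show z₀.re - h - z₀.re = -h by ring, abs_neg, abs_of_pos hh]
  have hb : ContinuousAt F (M z₀ h (circleMap 0 1 (-ang h y))) := by
    rw [M_neg_ang hh]
    refine (hF _ ?_).continuousAt
    simp only [Complex.add_re, Complex.ofReal_re, Complex.re_ofReal_mul,
      Complex.I_re, mul_zero, add_zero]
    rw [show z₀.re + h - z₀.re = h by ring, abs_of_pos hh]
  have hc : ContinuousAt (fun r => two F z₀ h r (ang h y)) 1 := by
    unfold two
    refine ContinuousAt.add ?_ ?_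
    · refine Real.continuous_posLog.continuousAt.comp (ContinuousAt.norm ?_)
      have h5 : ContinuousAt (fun r => M z₀ h (circleMap 0 r (ang h y))) 1 :=
        ContinuousAt.comp (g := M z₀ h) (continuousAt_M_ang z₀ y) (hr (ang h y))
      exact ContinuousAt.comp (g := F) (f := fun r => M z₀ h (circleMap 0 r (ang h y))) ha h5
    · refine Real.continuous_posLog.continuousAt.comp (ContinuousAt.norm ?_)
      have h5 : ContinuousAt (fun r => M z₀ h (circleMap 0 r (-ang h y))) 1 :=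
        ContinuousAt.comp (g := M z₀ h) (continuousAt_M_neg_ang z₀ y) (hr (-ang h y))
      exact ContinuousAt.comp (g := F) (f := fun r => M z₀ h (circleMap 0 r (-ang h y))) hb h5
  have h1 := hc.tendsto
  have e : two F z₀ h 1 (ang h y) =
      log⁺ ‖F (z₀ - h + y * Complex.I)‖ + log⁺ ‖F (z₀ + h + y * Complex.I)‖ := by
    unfold two
    rw [M_ang hh, M_neg_ang hh]
  rw [e] at h1
  exact h1.mono_left nhdsWithin_le_nhds

/-- **Poisson inequality for the centre of a strip** -/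
theorem strip_poisson (hh : 0 < h) (hB : 0 ≤ B)
    (hF : ∀ z : ℂ, |z.re - z₀.re| ≤ h → AnalyticAt ℂ F z)
    (hbd : ∀ z : ℂ, |z.re - z₀.re| ≤ h → log⁺ ‖F z‖ ≤ A + B * |z.im - z₀.im|) :
    log⁺ ‖F z₀‖ ≤ ∫ y : ℝ, (log⁺ ‖F (z₀ - h + y * Complex.I)‖ +
      log⁺ ‖F (z₀ + h + y * Complex.I)‖) / 2 * ker h y := by
  have hpi := Real.pi_pos
  set bd : ℝ → ℝ := fun y => (A + B * (2 * h / π * (Real.log 2 + |π * y / (2 * h)|))) * ker h y
    with hbd'
  have hev : ∀ᶠ r : ℝ in 𝓝[<] 1, 0 < r ∧ r < 1 := by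
    have := Ioo_mem_nhdsLT (show (0:ℝ) < 1 by norm_num)
    filter_upwards [this] with r hr
    exact hr
  have hint : Integrable bd := by
    refine ker_integrable_of_le hh (A := |A| + B * (2 * h / π * (Real.log 2 + π / (2 * h))))
      (by fun_prop) fun y => ?_
    have hl2 : 0 ≤ Real.log 2 := Real.log_nonneg (by norm_num)
    have hy1 : |y| ≤ 1 + y ^ 2 := by
      rcases abs_cases y with h | h <;> nlinarith [sq_nonneg (y - 1), sq_nonneg (y + 1)]
    have hy2 : 1 ≤ 1 + y ^ 2 := by nlinarith [sq_nonneg y]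
    have e : |π * y / (2 * h)| = π / (2 * h) * |y| := by
      rw [abs_div, abs_mul, abs_of_pos hpi, abs_of_pos (by linarith : 0 < 2 * h)]
      ring
    rw [e]
    have h3 : Real.log 2 + π / (2 * h) * |y| ≤ (Real.log 2 + π / (2 * h)) * (1 + y ^ 2) := by
      have : 0 < π / (2 * h) := by positivity
      nlinarith
    calc |A + B * (2 * h / π * (Real.log 2 + π / (2 * h) * |y|))|
        ≤ |A| + |B * (2 * h / π * (Real.log 2 + π / (2 * h) * |y|))| := abs_add_le _ _
      _ = |A| + B * (2 * h / π * (Real.log 2 + π / (2 * h) * |y|)) := by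
          rw [abs_of_nonneg (by positivity : 0 ≤ B * (2 * h / π * (Real.log 2 + π / (2 * h) * |y|)))]
      _ ≤ |A| * (1 + y ^ 2) +
          B * (2 * h / π * ((Real.log 2 + π / (2 * h)) * (1 + y ^ 2))) := by
          gcongr
          exact le_mul_of_one_le_right (abs_nonneg _) hy2
      _ = _ := by ring
  have hlim : Tendsto (fun r => ∫ y, two F z₀ h r (ang h y) / 2 * ker h y) (𝓝[<] 1)
      (𝓝 (∫ y : ℝ, (log⁺ ‖F (z₀ - h + y * Complex.I)‖ +
      log⁺ ‖F (z₀ + h + y * Complex.I)‖) / 2 * ker h y)) := by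
    refine tendsto_integral_filter_of_dominated_convergence bd ?_ ?_ hint ?_
    · filter_upwards [hev] with r hr
      have h1 := two_continuous hh hF hr.1.le hr.2
      have h2 : Continuous (ang h) := by unfold ang; fun_prop
      exact (((h1.comp h2).div_const 2).mul (ker_continuous hh)).aestronglyMeasurable
    · filter_upwards [hev] with r hr
      refine Eventually.of_forall fun y => ?_
      have h1 := two_nonneg (F := F) (z₀ := z₀) (h := h) r (ang h y)
      have h2 := two_bound hh hB hbd hr.1.le hr.2 y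
      have h3 := ker_pos hh y
      rw [Real.norm_of_nonneg (by positivity)]
      simp only [hbd']
      gcongr
      linarith
    · refine Eventually.of_forall fun y => ?_
      exact ((tendsto_two hh hF y).div_const 2).mul_const _
  refine ge_of_tendsto hlim ?_
  filter_upwards [hev] with r hr
  exact step1 hh hF hr.1 hr.2

end

end Pool.Agent.Y757.LS
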