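import Mathlib
import Pool.Agent.Y757.LS.Strip
import Pool.Agent.Y757.LS.G

/-!
# Horizontal integrals of the truncated logarithm of `GG`
-/

set_option autoImplicit false

open MeasureTheory Filter Topology Set Real

namespace Pool.Agent.Y757.LS

/-- the point `1/2 + s + it` -/
noncomputable def pt (s t : ℝ) : ℂ := 1 / 2 + s + t * Complex.I

lemma pt_re (s t : ℝ) : (pt s t).re = 1 / 2 + s := by simp [pt]
lemma pt_im (s t : ℝ) : (pt s t).im = t := by simp [pt]

/-- `log |GG|` -/
noncomputable def g (s t : ℝ) : ℝ := Real.log ‖GG (pt s t)‖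

/-- `log |GG|` truncated from below at `-N` -/
noncomputable def gN (N s t : ℝ) : ℝ := log⁺ (Real.exp N * ‖GG (pt s t)‖) - N

lemma pt_measurable : Measurable (fun p : ℝ × ℝ => pt p.1 p.2) := by
  unfold pt
  fun_prop

lemma gN_measurable (N : ℝ) : Measurable (fun p : ℝ × ℝ => gN N p.1 p.2) := by
  unfold gN
  refine Measurable.sub_const ?_ _
  refine Real.continuous_posLog.measurable.comp ?_
  exact ((GG_measurable.comp pt_measurable).norm).const_mul _

lemma gN_meas_comp (N : ℝ) {α : Type*} [MeasurableSpace α] {u v : α → ℝ} (hu : Measurable u)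
    (hv : Measurable v) : Measurable (fun x => gN N (u x) (v x)) := by
  have h1 : Measurable (fun x => (u x, v x)) := hu.prodMk hv
  have h2 := (gN_measurable N).comp h1
  have h3 : ((fun p : ℝ × ℝ => gN N p.1 p.2) ∘ fun x => (u x, v x)) =
      fun x => gN N (u x) (v x) := by
    funext x
    rfl
  rw [h3] at h2
  exact h2

lemma g_measurable : Measurable (fun p : ℝ × ℝ => g p.1 p.2) := by
  unfold g
  exact Real.measurable_log.comp ((GG_measurable.comp pt_measurable).norm)

lemma g_meas_comp {α : Type*} [MeasurableSpace α] {u v : α → ℝ} (hu : Measurable u)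
    (hv : Measurable v) : Measurable (fun x => g (u x) (v x)) := by
  have h1 : Measurable (fun x => (u x, v x)) := hu.prodMk hv
  have h2 := g_measurable.comp h1
  have h3 : ((fun p : ℝ × ℝ => g p.1 p.2) ∘ fun x => (u x, v x)) =
      fun x => g (u x) (v x) := by
    funext x
    rfl
  rw [h3] at h2
  exact h2

lemma gN_of_ne {N s t : ℝ} (h : GG (pt s t) ≠ 0) : gN N s t = max (-N) (g s t) := by
  unfold gN g
  rw [posLog_apply, Real.log_mul (Real.exp_pos _).ne' (norm_ne_zero_iff.2 h), Real.log_exp]
  rcases le_total 0 (N + Real.log ‖GG (pt s t)‖) with h1 | h1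
  · rw [max_eq_right h1, max_eq_right (by linarith)]; ring
  · rw [max_eq_left h1, max_eq_left (by linarith)]; ring

lemma gN_of_zero {N s t : ℝ} (h : GG (pt s t) = 0) : gN N s t = -N := by
  unfold gN
  rw [h, norm_zero, mul_zero, posLog_zero]
  ring

lemma gN_ge (N s t : ℝ) : -N ≤ gN N s t := by
  unfold gN
  have := @posLog_nonneg (Real.exp N * ‖GG (pt s t)‖)
  linarith

lemma log_le_of_growth {C : ℝ} (hC1 : 1 ≤ C) {z : ℂ} (h : ‖GG z‖ ≤ C * (‖z‖ + 1) ^ 4) :
    Real.log ‖GG z‖ ≤ Real.log C + 4 * Real.log (‖z‖ + 1) := by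
  have hn := norm_nonneg z
  have e : Real.log C + 4 * Real.log (‖z‖ + 1) = Real.log (C * (‖z‖ + 1) ^ 4) := by
    rw [Real.log_mul (by positivity) (by positivity), Real.log_pow]
    norm_num
  rw [e]
  rcases eq_or_ne (GG z) 0 with h0 | h0
  · rw [h0, norm_zero, Real.log_zero]
    apply Real.log_nonneg
    have : (1:ℝ) ≤ (‖z‖ + 1) ^ 4 := one_le_pow₀ (by linarith)
    nlinarith
  · exact Real.log_le_log (norm_pos_iff.2 h0) h

lemma posLog_le_of_growth {C : ℝ} (hC1 : 1 ≤ C) {z : ℂ} (h : ‖GG z‖ ≤ C * (‖z‖ + 1) ^ 4)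
    {N : ℝ} (hN : 0 ≤ N) :
    log⁺ (Real.exp N * ‖GG z‖) ≤ N + Real.log C + 4 * Real.log (‖z‖ + 1) := by
  have hn := norm_nonneg z
  have h1 : 0 ≤ Real.log C := Real.log_nonneg hC1
  have h2 : 0 ≤ Real.log (‖z‖ + 1) := Real.log_nonneg (by linarith)
  rcases eq_or_ne (GG z) 0 with h0 | h0
  · rw [h0, norm_zero, mul_zero, posLog_zero]
    positivity
  · have h3 := log_le_of_growth hC1 h
    rw [posLog_apply, Real.log_mul (Real.exp_pos _).ne' (norm_ne_zero_iff.2 h0), Real.log_exp]
    apply max_le
    · positivity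
    · linarith

lemma pt_norm_le {s t : ℝ} (hs : -(3/2) ≤ s) (hs' : s ≤ 10) : ‖pt s t‖ + 1 ≤ 12 * (1 + |t|) := by
  have h1 : ‖pt s t‖ ≤ |(pt s t).re| + |(pt s t).im| := Complex.norm_le_abs_re_add_abs_im _
  rw [pt_re, pt_im] at h1
  have h2 : |1 / 2 + s| ≤ 21/2 := by
    rw [abs_le]; constructor <;> linarith
  have := abs_nonneg t
  linarith

/-- common upper bound -/
lemma upper : ∃ C : ℝ, 0 ≤ C ∧ ∀ s t : ℝ, -(3/2) ≤ s → s ≤ 10 →
    g s t ≤ C + 4 * Real.log (1 + |t|) ∧
    ∀ N : ℝ, 0 ≤ N → gN N s t ≤ C + 4 * Real.log (1 + |t|) := by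
  obtain ⟨C, hC1, hC⟩ := GG_growth
  have hl : 0 ≤ Real.log C := Real.log_nonneg hC1
  have hl12 : 0 ≤ Real.log 12 := Real.log_nonneg (by norm_num)
  refine ⟨Real.log C + 4 * Real.log 12, by positivity, fun s t hs hs' => ?_⟩
  have h1 := hC (pt s t) (by rw [pt_re]; linarith)
  have h2 : Real.log (‖pt s t‖ + 1) ≤ Real.log 12 + Real.log (1 + |t|) := by
    have := abs_nonneg t
    rw [← Real.log_mul (by norm_num) (by positivity)]
    exact Real.log_le_log (by have := norm_nonneg (pt s t); linarith) (pt_norm_le hs hs')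
  constructor
  · have h3 := log_le_of_growth hC1 h1
    unfold g
    linarith
  · intro N hN
    have h3 := posLog_le_of_growth hC1 h1 hN
    unfold gN
    linarith

lemma log_one_add_le (x : ℝ) (hx : 0 ≤ x) : Real.log (1 + x) ≤ x := by
  have := Real.log_le_sub_one_of_pos (by linarith : 0 < 1 + x)
  linarith

/-- quadratic bound for the truncated function -/
lemma gN_abs_le {N : ℝ} (hN : 0 ≤ N) : ∃ A : ℝ, 0 ≤ A ∧ ∀ s t y : ℝ, -(3/2) ≤ s → s ≤ 10 →
    |gN N s (t + y)| ≤ A * (1 + |t|) * (1 + y ^ 2) := by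
  obtain ⟨C, hC0, hC⟩ := upper
  refine ⟨N + C + 8, by positivity, fun s t y hs hs' => ?_⟩
  have h1 := (hC s (t + y) hs hs').2 N hN
  have h2 := gN_ge N s (t + y)
  have h3 := log_one_add_le |t + y| (abs_nonneg _)
  have h4 := abs_add_le t y
  have ht := abs_nonneg t
  have hy1 : |y| ≤ 1 + y ^ 2 := by
    rcases abs_cases y with h | h <;> nlinarith [sq_nonneg (y - 1), sq_nonneg (y + 1)]
  have hy2 : 1 ≤ 1 + y ^ 2 := by nlinarith [sq_nonneg y]
  have h5 : |t| + |y| ≤ 2 * (1 + |t|) * (1 + y ^ 2) := by nlinarith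
  have h6 : (1:ℝ) ≤ (1 + |t|) * (1 + y ^ 2) := by nlinarith
  rw [abs_le]
  constructor <;> nlinarith

/-- the Poisson inequality for the truncated function -/
lemma poisson_gN {N s t h : ℝ} (hN : 0 ≤ N) (hh : 0 < h) (hs : -(3/2) ≤ s - h) (hs' : s + h ≤ 10) :
    gN N s t ≤ ∫ y, (gN N (s - h) (t + y) + gN N (s + h) (t + y)) / 2 * ker h y := by
  obtain ⟨C, hC1, hC⟩ := GG_growth
  set F : ℂ → ℂ := fun z => (Real.exp N : ℂ) * GG z with hF
  have hFn : ∀ z, ‖F z‖ = Real.exp N * ‖GG z‖ := by
    intro z
    simp only [hF]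
    rw [norm_mul, Complex.norm_real, Real.norm_of_nonneg (Real.exp_pos _).le]
  have hre := pt_re s t
  have h1 := strip_poisson (F := F) (z₀ := pt s t) (h := h)
    (A := N + Real.log C + 4 * (‖pt s t‖ + h)) (B := 4) hh (by norm_num) (by
      intro z hz
      rw [hre, abs_le] at hz
      exact analyticAt_const.mul (GG_analyticAt (by linarith))) (by
      intro z hz
      have hz' := hz
      rw [hre, abs_le] at hz'
      rw [hFn]
      have h2 := posLog_le_of_growth hC1 (hC z (by linarith)) hN
      have h3 := log_one_add_le ‖z‖ (norm_nonneg z)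
      rw [add_comm] at h3
      have h4 : ‖z‖ ≤ ‖pt s t‖ + ‖z - pt s t‖ := by
        have := norm_add_le (pt s t) (z - pt s t)
        rwa [add_sub_cancel] at this
      have h5 : ‖z - pt s t‖ ≤ |(z - pt s t).re| + |(z - pt s t).im| :=
        Complex.norm_le_abs_re_add_abs_im _
      rw [Complex.sub_re, Complex.sub_im] at h5
      linarith)
  simp only [hFn] at h1
  have e1 : ∀ y : ℝ, pt s t - h + y * Complex.I = pt (s - h) (t + y) := by
    intro y; unfold pt; push_cast; ring
  have e2 : ∀ y : ℝ, pt s t + h + y * Complex.I = pt (s + h) (t + y) := by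
    intro y; unfold pt; push_cast; ring
  simp only [e1, e2] at h1
  obtain ⟨A, hA0, hA⟩ := gN_abs_le hN
  have m1 : ∀ c, Measurable (fun y : ℝ => gN N c (t + y)) := fun c =>
    gN_meas_comp N measurable_const (measurable_const_add t)
  have i1 : Integrable (fun y : ℝ => (gN N (s - h) (t + y) + gN N (s + h) (t + y)) / 2 * ker h y) := by
    refine ker_integrable_of_le hh (A := A * (1 + |t|))
      (((m1 _).add (m1 _)).div_const 2).aestronglyMeasurable fun y => ?_
    have a1 := hA (s - h) t y (by linarith) (by linarith)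
    have a2 := hA (s + h) t y (by linarith) (by linarith)
    have a3 := abs_add_le (gN N (s - h) (t + y)) (gN N (s + h) (t + y))
    rw [abs_div, abs_two]
    linarith
  have e3 : ∀ y : ℝ, (log⁺ (Real.exp N * ‖GG (pt (s - h) (t + y))‖) +
      log⁺ (Real.exp N * ‖GG (pt (s + h) (t + y))‖)) / 2 * ker h y =
      (gN N (s - h) (t + y) + gN N (s + h) (t + y)) / 2 * ker h y + N * ker h y := by
    intro y
    unfold gN
    ring
  simp only [e3] at h1
  rw [integral_add i1 ((ker_integrable hh).const_mul N), integral_const_mul, integral_ker hh] at h1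
  unfold gN at h1 ⊢
  linarith

/-- horizontal integrals -/
noncomputable def II (a b t : ℝ) : ℝ := ∫ s in a..b, g s t

/-- truncated horizontal integrals -/
noncomputable def IN (N a b t : ℝ) : ℝ := ∫ s in a..b, gN N s t

lemma gN_intervalIntegrable {N : ℝ} (hN : 0 ≤ N) {a b : ℝ} (ha : -(3/2) ≤ a) (hab : a ≤ b)
    (hb : b ≤ 10) (t : ℝ) : IntervalIntegrable (fun s => gN N s t) volume a b := by
  obtain ⟨A, hA0, hA⟩ := gN_abs_le hN
  rw [intervalIntegrable_iff_integrableOn_Ioc_of_le hab]
  refine Integrable.mono' (g := fun _ => A * (1 + |t|)) (integrable_const _) ?_ ?_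
  · exact (gN_meas_comp N measurable_id measurable_const).aestronglyMeasurable
  · rw [ae_restrict_iff' measurableSet_Ioc]
    refine Eventually.of_forall fun s hs => ?_
    have := hA s t 0 (by linarith [hs.1]) (by linarith [hs.2])
    rw [add_zero] at this
    rw [Real.norm_eq_abs]
    linarith

lemma IN_split {N : ℝ} (hN : 0 ≤ N) {a b c : ℝ} (ha : -(3/2) ≤ a) (hab : a ≤ b) (hbc : b ≤ c)
    (hc : c ≤ 10) (t : ℝ) : IN N a c t = IN N a b t + IN N b c t := by
  unfold IN
  rw [intervalIntegral.integral_add_adjacent_intervals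
    (gN_intervalIntegrable hN ha hab (by linarith) t)
    (gN_intervalIntegrable hN (by linarith) hbc hc t)]

lemma IN_measurable (N a b : ℝ) : Measurable (IN N a b) := by
  unfold IN
  have h1 : ∀ (a b : ℝ), Measurable (fun t => ∫ s in Ioc a b, gN N s t) := by
    intro a b
    have h2 : StronglyMeasurable (Function.uncurry fun (t s : ℝ) => gN N s t) :=
      (gN_meas_comp N measurable_snd measurable_fst).stronglyMeasurable
    exact (h2.integral_prod_right (ν := volume.restrict (Ioc a b))).measurable
  unfold intervalIntegral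
  exact (h1 a b).sub (h1 b a)

lemma II_measurable (a b : ℝ) : Measurable (II a b) := by
  unfold II
  have h1 : ∀ (a b : ℝ), Measurable (fun t => ∫ s in Ioc a b, g s t) := by
    intro a b
    have h2 : StronglyMeasurable (Function.uncurry fun (t s : ℝ) => g s t) :=
      (g_meas_comp measurable_snd measurable_fst).stronglyMeasurable
    exact (h2.integral_prod_right (ν := volume.restrict (Ioc a b))).measurable
  unfold intervalIntegral
  exact (h1 a b).sub (h1 b a)

/-- the integrated Poisson inequality, truncated version -/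
lemma D_N {N a b h : ℝ} (hN : 0 ≤ N) (hh : 0 < h) (hab : a ≤ b) (ha : -(3/2) ≤ a - h)
    (hb : b + h ≤ 10) (t : ℝ) :
    IN N a b t ≤ ∫ y, (IN N (a - h) (b - h) (t + y) + IN N (a + h) (b + h) (t + y)) / 2 * ker h y := by
  obtain ⟨A, hA0, hA⟩ := gN_abs_le hN
  set f : ℝ → ℝ → ℝ := fun s y => (gN N (s - h) (t + y) + gN N (s + h) (t + y)) / 2 * ker h y with hf
  have hfm : Measurable (Function.uncurry f) := by
    have hk : Measurable (ker h) := (ker_continuous hh).measurable
    have a1 : Measurable (fun p : ℝ × ℝ => gN N (p.1 - h) (t + p.2)) :=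
      gN_meas_comp N (measurable_fst.sub_const h) (measurable_snd.const_add t)
    have a2 : Measurable (fun p : ℝ × ℝ => gN N (p.1 + h) (t + p.2)) :=
      gN_meas_comp N (measurable_fst.add_const h) (measurable_snd.const_add t)
    exact ((a1.add a2).div_const 2).mul (hk.comp measurable_snd)
  have hfb : ∀ s ∈ Ioc a b, ∀ y, |f s y| ≤ A * (1 + |t|) * ((1 + y ^ 2) * ker h y) := by
    intro s hs y
    have a1 := hA (s - h) t y (by linarith [hs.1]) (by linarith [hs.2])
    have a2 := hA (s + h) t y (by linarith [hs.1]) (by linarith [hs.2])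
    have a3 := abs_add_le (gN N (s - h) (t + y)) (gN N (s + h) (t + y))
    have hk := ker_pos hh y
    simp only [hf]
    rw [abs_mul, abs_div, abs_two, abs_of_pos hk]
    have : |gN N (s - h) (t + y) + gN N (s + h) (t + y)| / 2 ≤ A * (1 + |t|) * (1 + y ^ 2) := by
      linarith
    calc _ ≤ A * (1 + |t|) * (1 + y ^ 2) * ker h y := by gcongr
      _ = _ := by ring
  have hint : Integrable (Function.uncurry f) ((volume.restrict (Ioc a b)).prod volume) := by
    have i1 : Integrable (fun p : ℝ × ℝ => A * (1 + |t|) * ((1 + p.2 ^ 2) * ker h p.2))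
        ((volume.restrict (Ioc a b)).prod volume) :=
      ((ker_sq_integrable hh).const_mul _).comp_snd _
    refine i1.mono' hfm.aestronglyMeasurable ?_
    have hae : ∀ᵐ p : ℝ × ℝ ∂((volume.restrict (Ioc a b)).prod volume), p.1 ∈ Ioc a b := by
      have h1 : ∀ᵐ s ∂(volume.restrict (Ioc a b)), s ∈ Ioc a b := ae_restrict_mem measurableSet_Ioc
      exact Measure.quasiMeasurePreserving_fst.ae h1
    filter_upwards [hae] with p hp
    rw [Real.norm_eq_abs]
    exact hfb p.1 hp p.2
  have hle : IN N a b t ≤ ∫ s in a..b, ∫ y, f s y := by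
    unfold IN
    have hint2 : IntervalIntegrable (fun s => ∫ y, f s y) volume a b := by
      rw [intervalIntegrable_iff_integrableOn_Ioc_of_le hab]
      exact hint.integral_prod_left
    refine intervalIntegral.integral_mono_on hab
      (gN_intervalIntegrable hN (by linarith) hab (by linarith) t) hint2 ?_
    intro s hs
    exact poisson_gN hN hh (by linarith [hs.1]) (by linarith [hs.2])
  refine hle.trans (le_of_eq ?_)
  rw [intervalIntegral.integral_of_le hab, integral_integral_swap hint]
  refine integral_congr_ae (Eventually.of_forall fun y => ?_)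
  simp only [hf]
  rw [integral_mul_const]
  congr 1
  rw [← intervalIntegral.integral_of_le hab, intervalIntegral.integral_div]
  congr 1
  have j1 : IntervalIntegrable (fun s => gN N (s - h) (t + y)) volume a b := by
    have := gN_intervalIntegrable hN (a := a - h) (b := b - h) (by linarith) (by linarith)
      (by linarith) (t + y)
    have h3 := this.comp_sub_right h
    simpa using h3
  have j2 : IntervalIntegrable (fun s => gN N (s + h) (t + y)) volume a b := by
    have := gN_intervalIntegrable hN (a := a + h) (b := b + h) (by linarith) (by linarith)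
      (by linarith) (t + y)
    have h3 := this.comp_add_right h
    simpa using h3
  rw [intervalIntegral.integral_add j1 j2]
  unfold IN
  congr 1
  · exact intervalIntegral.integral_comp_sub_right (fun s => gN N s (t + y)) h
  · exact intervalIntegral.integral_comp_add_right (fun s => gN N s (t + y)) h

end Pool.Agent.Y757.LS
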