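import Mathlib
import Pool.Agent.Y757.LS.D

/-!
# The integrated Poisson inequality without truncation
-/

set_option autoImplicit false

open MeasureTheory Filter Topology Set Real

namespace Pool.Agent.Y757.LS

/-- two-sided bounds to the right of `Re = 1` -/
lemma right_bound {η : ℝ} (hη : 0 < η) : ∃ C : ℝ, 0 ≤ C ∧ ∀ s t : ℝ, 1 / 2 + η ≤ s →
    GG (pt s t) ≠ 0 ∧ |g s t| ≤ C := by
  obtain ⟨A, hA1, hA⟩ := zeta_bounds (a := 1 + η) (by linarith)
  have hA0 : 0 < A := by linarith
  refine ⟨Real.log A + Real.log (1 + 4 / η), ?_, fun s t hs => ?_⟩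
  · have h1 := Real.log_nonneg hA1
    have h2 : 0 ≤ Real.log (1 + 4 / η) := by
      apply Real.log_nonneg
      have : 0 < 4 / η := by positivity
      linarith
    linarith
  · have hre := pt_re s t
    obtain ⟨h1, h2⟩ := hA (pt s t) (by rw [hre]; linarith)
    have hz1 : η ≤ ‖pt s t - 1‖ := by
      refine le_trans ?_ (Complex.abs_re_le_norm _)
      rw [Complex.sub_re, hre, Complex.one_re, abs_of_nonneg (by linarith)]
      linarith
    have hne : pt s t ≠ 1 := by
      intro h
      rw [h] at hz1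
      simp at hz1
      linarith
    have h3 := ratio_ge (s := pt s t) (by rw [hre]; linarith) hη hz1
    have h4 := ratio_le (s := pt s t) (by rw [hre]; linarith)
    have e4 : 0 < 1 + 4 / η := by positivity
    have e5 : 0 < (1 + 4 / η)⁻¹ := by positivity
    have e6 : 0 < 1 / A := by positivity
    have h5 : 0 < ‖(pt s t - 1) / (pt s t + 3)‖ := by linarith
    have h6 : 0 < ‖riemannZeta (pt s t)‖ := by linarith
    have hG : GG (pt s t) ≠ 0 := by
      rw [GG_of_ne hne]
      exact mul_ne_zero (norm_pos_iff.1 h5) (norm_pos_iff.1 h6)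
    refine ⟨hG, ?_⟩
    unfold g
    rw [GG_of_ne hne, norm_mul, Real.log_mul h5.ne' h6.ne']
    have l1 := Real.log_le_log e5 h3
    have l2 := Real.log_le_log h5 h4
    have l3 := Real.log_le_log e6 h2
    have l4 := Real.log_le_log h6 h1
    rw [Real.log_inv] at l1
    rw [Real.log_one] at l2
    rw [one_div, Real.log_inv] at l3
    have l5 := Real.log_nonneg hA1
    have l6 : 0 ≤ Real.log (1 + 4 / η) := by
      apply Real.log_nonneg
      have : 0 < 4 / η := by positivity
      linarith
    rw [abs_le]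
    constructor <;> linarith

/-- the restriction to a horizontal line is real-analytic -/
lemma line_analyticAt {s : ℝ} (hs : -(7/2) < s) (t : ℝ) :
    AnalyticAt ℝ (fun s : ℝ => GG (pt s t)) s := by
  have h1 : AnalyticAt ℝ GG (pt s t) :=
    (GG_analyticAt (s := pt s t) (by rw [pt_re]; linarith)).restrictScalars
  have h2 : AnalyticAt ℝ (fun s : ℝ => pt s t) s := by
    unfold pt
    refine AnalyticAt.add (AnalyticAt.add analyticAt_const ?_) analyticAt_const
    exact Complex.ofRealCLM.analyticAt s
  exact AnalyticAt.fun_comp h1 h2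

lemma g_intervalIntegrable {a b : ℝ} (ha : -(3/2) ≤ a) (hab : a ≤ b) (t : ℝ) :
    IntervalIntegrable (fun s => g s t) volume a b := by
  unfold g
  refine MeromorphicOn.intervalIntegrable_log_norm (f := fun s : ℝ => GG (pt s t)) ?_
  intro s hs
  rw [uIcc_of_le hab] at hs
  exact (line_analyticAt (by linarith [hs.1]) t).meromorphicAt

/-- zeros on a horizontal line are negligible -/
lemma ae_ne {a b : ℝ} (ha : -(3/2) ≤ a) (hb : b ≤ 10) (t : ℝ) :
    ∀ᵐ s ∂(volume.restrict (Ioc a b)), GG (pt s t) ≠ 0 := by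
  have h1 : AnalyticOnNhd ℝ (fun s : ℝ => GG (pt s t)) (Icc (-(3/2)) 10) := by
    intro s hs
    exact line_analyticAt (by linarith [hs.1]) t
  have h2 : IsPreconnected (Icc (-(3/2) : ℝ) 10) := isPreconnected_Icc
  rcases h1.eqOn_zero_or_eventually_ne_zero_of_preconnected h2 with h3 | h3
  · exfalso
    obtain ⟨C, hC0, hC⟩ := right_bound (η := 1/2) (by norm_num)
    have h4 := h3 (show (2:ℝ) ∈ Icc (-(3/2) : ℝ) 10 by constructor <;> norm_num)
    exact (hC 2 t (by norm_num)).1 h4
  · have h4 := ae_restrict_le_codiscreteWithin (μ := volume) measurableSet_Icc h3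
    have h5 : Ioc a b ⊆ Icc (-(3/2) : ℝ) 10 := fun x hx =>
      ⟨by linarith [hx.1], by linarith [hx.2]⟩
    exact ae_restrict_of_ae_restrict_of_subset h5 h4

lemma gN_antitone (s t : ℝ) {N N' : ℝ} (h : N ≤ N') : gN N' s t ≤ gN N s t := by
  by_cases h0 : GG (pt s t) = 0
  · rw [gN_of_zero h0, gN_of_zero h0]; linarith
  · rw [gN_of_ne h0, gN_of_ne h0]
    exact max_le_max (by linarith) le_rfl

lemma g_le_gN {s t : ℝ} (h0 : GG (pt s t) ≠ 0) (N : ℝ) : g s t ≤ gN N s t := by
  rw [gN_of_ne h0]; exact le_max_right _ _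

lemma gN_eq {s t N : ℝ} (h0 : GG (pt s t) ≠ 0) (hN : |g s t| ≤ N) : gN N s t = g s t := by
  rw [gN_of_ne h0]
  exact max_eq_right (by linarith [neg_abs_le (g s t)])

lemma IN_antitone {a b : ℝ} (ha : -(3/2) ≤ a) (hab : a ≤ b) (hb : b ≤ 10) {N N' : ℝ} (hN : 0 ≤ N)
    (h : N ≤ N') (t : ℝ) : IN N' a b t ≤ IN N a b t := by
  unfold IN
  exact intervalIntegral.integral_mono_on hab (gN_intervalIntegrable (by linarith) ha hab hb t)
    (gN_intervalIntegrable hN ha hab hb t) (fun s _ => gN_antitone s t h)

lemma II_le_IN {a b : ℝ} (ha : -(3/2) ≤ a) (hab : a ≤ b) (hb : b ≤ 10) {N : ℝ} (hN : 0 ≤ N)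
    (t : ℝ) : II a b t ≤ IN N a b t := by
  unfold II IN
  rw [intervalIntegral.integral_of_le hab, intervalIntegral.integral_of_le hab]
  refine integral_mono_ae ?_ ?_ ?_
  · exact (intervalIntegrable_iff_integrableOn_Ioc_of_le hab).1 (g_intervalIntegrable ha hab t)
  · exact (intervalIntegrable_iff_integrableOn_Ioc_of_le hab).1
      (gN_intervalIntegrable hN ha hab hb t)
  · filter_upwards [ae_ne ha hb t] with s hs
    exact g_le_gN hs N

lemma IN_tendsto {a b : ℝ} (ha : -(3/2) ≤ a) (hab : a ≤ b) (hb : b ≤ 10) (t : ℝ) :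
    Tendsto (fun n : ℕ => IN n a b t) atTop (𝓝 (II a b t)) := by
  unfold II IN
  simp only [intervalIntegral.integral_of_le hab]
  refine tendsto_integral_of_dominated_convergence (fun s => |g s t|) ?_ ?_ ?_ ?_
  · intro n
    exact (gN_meas_comp n measurable_id measurable_const).aestronglyMeasurable
  · exact ((intervalIntegrable_iff_integrableOn_Ioc_of_le hab).1
      (g_intervalIntegrable ha hab t)).abs
  · intro n
    filter_upwards [ae_ne ha hb t] with s hs
    rw [gN_of_ne hs, Real.norm_eq_abs]
    have hn : (0:ℝ) ≤ n := Nat.cast_nonneg n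
    rcases le_total (-(n:ℝ)) (g s t) with h1 | h1
    · rw [max_eq_right h1]
    · rw [max_eq_left h1, abs_neg, abs_of_nonneg hn, abs_of_nonpos (by linarith)]
      linarith
  · filter_upwards [ae_ne ha hb t] with s hs
    refine tendsto_const_nhds.congr' ?_
    obtain ⟨n, hn⟩ := exists_nat_ge |g s t|
    filter_upwards [eventually_ge_atTop n] with m hm
    rw [gN_eq hs (hn.trans (by exact_mod_cast hm))]

/-- upper bound of the horizontal integrals -/
lemma II_upper : ∃ C : ℝ, 0 ≤ C ∧ ∀ a b t : ℝ, -(3/2) ≤ a → a ≤ b → b ≤ 10 →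
    II a b t ≤ (b - a) * (C + 4 * Real.log (1 + |t|)) ∧
    ∀ N : ℝ, 0 ≤ N → IN N a b t ≤ (b - a) * (C + 4 * Real.log (1 + |t|)) := by
  obtain ⟨C, hC0, hC⟩ := upper
  refine ⟨C, hC0, fun a b t ha hab hb => ?_⟩
  have key : ∀ N : ℝ, 0 ≤ N → IN N a b t ≤ (b - a) * (C + 4 * Real.log (1 + |t|)) := by
    intro N hN
    unfold IN
    have h1 := intervalIntegral.integral_mono_on hab (gN_intervalIntegrable hN ha hab hb t)
      (intervalIntegrable_const (c := C + 4 * Real.log (1 + |t|)))
      (fun s hs => (hC s t (by linarith [hs.1]) (by linarith [hs.2])).2 N hN)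
    rw [intervalIntegral.integral_const, smul_eq_mul] at h1
    exact h1
  exact ⟨(II_le_IN ha hab hb le_rfl t).trans (key 0 le_rfl), key⟩

/-- the bound of the horizontal integrals to the right of `1` -/
lemma II_right {η : ℝ} (hη : 0 < η) : ∃ C : ℝ, 0 ≤ C ∧ ∀ a b t : ℝ, 1 / 2 + η ≤ a → a ≤ b →
    b ≤ 10 → |II a b t| ≤ C * (b - a) ∧ ∀ N : ℝ, 0 ≤ N → -(C * (b - a)) ≤ IN N a b t ∧
      IN N a b t ≤ C * (b - a) := by
  obtain ⟨C, hC0, hC⟩ := right_bound hη
  refine ⟨C, hC0, fun a b t ha hab hb => ⟨?_, fun N hN => ?_⟩⟩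
  · unfold II
    rw [← Real.norm_eq_abs]
    have h1 := intervalIntegral.norm_integral_le_of_norm_le_const (f := fun s => g s t) (C := C)
      (a := a) (b := b) (fun s hs => by
        rw [uIoc_of_le hab] at hs
        rw [Real.norm_eq_abs]
        exact (hC s t (by linarith [hs.1])).2)
    rwa [abs_of_nonneg (by linarith)] at h1
  · have hb1 : ∀ s ∈ Icc a b, -C ≤ gN N s t ∧ gN N s t ≤ C := by
      intro s hs
      obtain ⟨h1, h2⟩ := hC s t (by linarith [hs.1])
      rw [abs_le] at h2
      rw [gN_of_ne h1]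
      exact ⟨h2.1.trans (le_max_right _ _), max_le (by linarith) h2.2⟩
    have hi := gN_intervalIntegrable hN (by linarith) hab hb t
    unfold IN
    have h1 := intervalIntegral.integral_mono_on hab hi
      (intervalIntegrable_const (c := C)) (fun s hs => (hb1 s hs).2)
    have h2 := intervalIntegral.integral_mono_on hab (intervalIntegrable_const (c := -C)) hi
      (fun s hs => (hb1 s hs).1)
    rw [intervalIntegral.integral_const, smul_eq_mul] at h1 h2
    constructor <;> linarith

lemma IN_ker_integrable {N a b h : ℝ} (hN : 0 ≤ N) (ha : -(3/2) ≤ a) (hab : a ≤ b) (hb : b ≤ 10)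
    (hh : 0 < h) (t : ℝ) : Integrable (fun y => IN N a b (t + y) * ker h y) := by
  obtain ⟨A, hA0, hA⟩ := gN_abs_le hN
  refine ker_integrable_of_le hh (A := A * (1 + |t|) * (b - a))
    ((IN_measurable N a b).comp (measurable_const_add t)).aestronglyMeasurable fun y => ?_
  unfold IN
  rw [← Real.norm_eq_abs]
  have h1 := intervalIntegral.norm_integral_le_of_norm_le_const (f := fun s => gN N s (t + y))
    (C := A * (1 + |t|) * (1 + y ^ 2)) (a := a) (b := b) (fun s hs => by
      rw [uIoc_of_le hab] at hs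
      rw [Real.norm_eq_abs]
      exact hA s t y (by linarith [hs.1]) (by linarith [hs.2]))
  rw [abs_of_nonneg (show 0 ≤ b - a by linarith)] at h1
  linarith

/-- uniform lower bound for averages over the kernel `ker 3` -/
lemma IN_avg_lower : ∃ C : ℝ, 0 ≤ C ∧ ∀ N a b t : ℝ, 0 ≤ N → -(3/2) ≤ a → a ≤ b → b ≤ 4 →
    -(C * (b - a)) ≤ ∫ y, IN N a b (t + y) * ker 3 y := by
  obtain ⟨C, hC0, hC⟩ := II_right (η := 1) (by norm_num)
  refine ⟨3 * C, by positivity, fun N a b t hN ha hab hb => ?_⟩
  have h1 := D_N (N := N) (a := a + 3) (b := b + 3) (h := 3) hN (by norm_num) (by linarith)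
    (by linarith) (by linarith) t
  rw [show a + 3 - 3 = a by ring, show b + 3 - 3 = b by ring, show a + 3 + 3 = a + 6 by ring,
    show b + 3 + 3 = b + 6 by ring] at h1
  have i1 := IN_ker_integrable hN ha hab (by linarith) (by norm_num : (0:ℝ) < 3) t
  have i2 := IN_ker_integrable (a := a + 6) (b := b + 6) hN (by linarith) (by linarith)
    (by linarith) (by norm_num : (0:ℝ) < 3) t
  have e : (fun y => (IN N a b (t + y) + IN N (a + 6) (b + 6) (t + y)) / 2 * ker 3 y) =
      fun y => (1/2 : ℝ) * (IN N a b (t + y) * ker 3 y) +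
        (1/2 : ℝ) * (IN N (a + 6) (b + 6) (t + y) * ker 3 y) := by
    funext y; ring
  rw [e, integral_add (i1.const_mul _) (i2.const_mul _), integral_const_mul,
    integral_const_mul] at h1
  have h2 := ((hC (a + 3) (b + 3) t (by linarith) (by linarith) (by linarith)).2 N hN).1
  have h3 : ∫ y, IN N (a + 6) (b + 6) (t + y) * ker 3 y ≤ C * (b - a) := by
    calc ∫ y, IN N (a + 6) (b + 6) (t + y) * ker 3 y ≤ ∫ y, C * (b - a) * ker 3 y := by
          refine integral_mono i2 ((ker_integrable (by norm_num)).const_mul _) fun y => ?_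
          have := ((hC (a + 6) (b + 6) (t + y) (by linarith) (by linarith) (by linarith)).2 N hN).2
          have hk := ker_pos (by norm_num : (0:ℝ) < 3) y
          simp only
          rw [show b + 6 - (a + 6) = b - a by ring] at this
          gcongr
      _ = C * (b - a) := by rw [integral_const_mul, integral_ker (by norm_num), mul_one]
  rw [show b + 3 - (a + 3) = b - a by ring] at h2
  linarith

/-- integrability of the horizontal integral against the kernels -/
lemma II_ker_integrable {a b h : ℝ} (ha : -(3/2) ≤ a) (hab : a ≤ b) (hb : b ≤ 4)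
    (hh : 0 < h) (hh3 : h ≤ 3) (t : ℝ) : Integrable (fun y => II a b (t + y) * ker h y) := by
  obtain ⟨C, hC0, hC⟩ := II_upper
  obtain ⟨C', hC'0, hC'⟩ := IN_avg_lower
  have hba : 0 ≤ b - a := by linarith
  set U : ℝ → ℝ := fun y => (b - a) * (C + 4 * Real.log (1 + |t + y|)) with hU
  have hUc : Continuous U := by
    have : Continuous (fun y : ℝ => Real.log (1 + |t + y|)) := by
      refine Continuous.log (by fun_prop) fun y => ?_
      have := abs_nonneg (t + y)
      positivity
    fun_prop
  have hUb : ∀ y, |U y| ≤ (b - a) * (C + 8 * (1 + |t|)) * (1 + y ^ 2) := by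
    intro y
    have h0 := abs_nonneg (t + y)
    have h3 := log_one_add_le |t + y| (abs_nonneg _)
    have h3' : 0 ≤ Real.log (1 + |t + y|) := Real.log_nonneg (by linarith)
    have h4 := abs_add_le t y
    have ht := abs_nonneg t
    have hy1 : |y| ≤ 1 + y ^ 2 := by
      rcases abs_cases y with h | h <;> nlinarith [sq_nonneg (y - 1), sq_nonneg (y + 1)]
    have hy2 : 1 ≤ 1 + y ^ 2 := by nlinarith [sq_nonneg y]
    have h5 : |t| + |y| ≤ 2 * (1 + |t|) * (1 + y ^ 2) := by nlinarith
    have h6 : C + 4 * Real.log (1 + |t + y|) ≤ (C + 8 * (1 + |t|)) * (1 + y ^ 2) := by nlinarith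
    simp only [hU]
    rw [abs_of_nonneg (by positivity)]
    calc (b - a) * (C + 4 * Real.log (1 + |t + y|)) ≤
        (b - a) * ((C + 8 * (1 + |t|)) * (1 + y ^ 2)) := by gcongr
      _ = _ := by ring
  have iU : ∀ {k : ℝ}, 0 < k → Integrable (fun y => U y * ker k y) := fun hk =>
    ker_integrable_of_le hk hUc.aestronglyMeasurable hUb
  set φ : ℕ → ℝ → ℝ := fun n y => (U y - IN n a b (t + y)) * ker h y with hφ
  set ψ : ℝ → ℝ := fun y => (U y - II a b (t + y)) * ker h y with hψ
  have hφ0 : ∀ n y, 0 ≤ φ n y := by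
    intro n y
    have h1 := (hC a b (t + y) ha hab (by linarith)).2 n (Nat.cast_nonneg n)
    have h2 := ker_pos hh y
    simp only [hφ, hU]
    exact mul_nonneg (by linarith) h2.le
  have hψ0 : ∀ y, 0 ≤ ψ y := by
    intro y
    have h1 := (hC a b (t + y) ha hab (by linarith)).1
    have h2 := ker_pos hh y
    simp only [hψ, hU]
    exact mul_nonneg (by linarith) h2.le
  have hφm : ∀ n, Measurable (φ n) := by
    intro n
    exact (hUc.measurable.sub ((IN_measurable n a b).comp (measurable_const_add t))).mul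
      (ker_continuous hh).measurable
  have hψm : Measurable ψ :=
    (hUc.measurable.sub ((II_measurable a b).comp (measurable_const_add t))).mul
      (ker_continuous hh).measurable
  have hlim : ∀ y, Tendsto (fun n => φ n y) atTop (𝓝 (ψ y)) := fun y =>
    ((IN_tendsto ha hab (by linarith) (t + y)).const_sub _).mul_const _
  have hφi : ∀ n, Integrable (φ n) := by
    intro n
    have h1 := (iU hh).sub (IN_ker_integrable (Nat.cast_nonneg n) ha hab (by linarith) hh t)
    refine h1.congr (Eventually.of_forall fun y => ?_)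
    simp only [hφ, Pi.sub_apply]
    ring
  set B : ℝ := 3 / h * ((∫ y, U y * ker 3 y) + C' * (b - a)) with hB
  have hφB : ∀ n, ∫ y, φ n y ≤ B := by
    intro n
    have i3 := IN_ker_integrable (Nat.cast_nonneg n) ha hab (by linarith) (by norm_num : (0:ℝ) < 3) t
    calc ∫ y, φ n y ≤ ∫ y, 3 / h * (U y * ker 3 y - IN n a b (t + y) * ker 3 y) := by
          refine integral_mono (hφi n) (((iU (by norm_num)).sub i3).const_mul _) fun y => ?_
          have h1 := (hC a b (t + y) ha hab (by linarith)).2 n (Nat.cast_nonneg n)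
          have h2 := ker_le hh hh3 y
          simp only [hφ]
          have h3 : 0 ≤ U y - IN n a b (t + y) := by simp only [hU]; linarith
          calc (U y - IN n a b (t + y)) * ker h y ≤ (U y - IN n a b (t + y)) * (3 / h * ker 3 y) :=
                mul_le_mul_of_nonneg_left h2 h3
            _ = _ := by ring
      _ = 3 / h * ((∫ y, U y * ker 3 y) - ∫ y, IN n a b (t + y) * ker 3 y) := by
          rw [integral_const_mul, integral_sub (iU (by norm_num)) i3]
      _ ≤ B := by
          have := hC' n a b t (Nat.cast_nonneg n) ha hab hb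
          rw [hB]
          have : 0 < 3 / h := by positivity
          gcongr
          linarith
  have hψi : Integrable ψ := by
    refine ⟨hψm.aestronglyMeasurable, ?_⟩
    rw [hasFiniteIntegral_iff_ofReal (Eventually.of_forall hψ0)]
    have h1 : ∀ y, ENNReal.ofReal (ψ y) = liminf (fun n => ENNReal.ofReal (φ n y)) atTop := by
      intro y
      exact ((ENNReal.continuous_ofReal.tendsto _).comp (hlim y)).liminf_eq.symm
    calc ∫⁻ y, ENNReal.ofReal (ψ y) = ∫⁻ y, liminf (fun n => ENNReal.ofReal (φ n y)) atTop := by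
          simp only [h1]
      _ ≤ liminf (fun n => ∫⁻ y, ENNReal.ofReal (φ n y)) atTop :=
          lintegral_liminf_le fun n => (hφm n).ennreal_ofReal
      _ ≤ ENNReal.ofReal B := by
          refine liminf_le_of_frequently_le' (Frequently.of_forall fun n => ?_)
          rw [← ofReal_integral_eq_lintegral_ofReal (hφi n) (Eventually.of_forall (hφ0 n))]
          exact ENNReal.ofReal_le_ofReal (hφB n)
      _ < ⊤ := ENNReal.ofReal_lt_top
  have h2 := (iU hh).sub hψi
  refine h2.congr (Eventually.of_forall fun y => ?_)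
  simp only [hψ, Pi.sub_apply]
  ring

lemma IN_ker_tendsto {a b h : ℝ} (ha : -(3/2) ≤ a) (hab : a ≤ b) (hb : b ≤ 4)
    (hh : 0 < h) (hh3 : h ≤ 3) (t : ℝ) :
    Tendsto (fun n : ℕ => ∫ y, IN n a b (t + y) * ker h y) atTop
      (𝓝 (∫ y, II a b (t + y) * ker h y)) := by
  have i0 := IN_ker_integrable (N := 0) le_rfl ha hab (by linarith : b ≤ 10) hh t
  have i1 := II_ker_integrable ha hab hb hh hh3 t
  refine tendsto_integral_of_dominated_convergence
    (fun y => |IN 0 a b (t + y) * ker h y| + |II a b (t + y) * ker h y|) ?_ (i0.abs.add i1.abs)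
    ?_ ?_
  · intro n
    exact (IN_ker_integrable (Nat.cast_nonneg n) ha hab (by linarith) hh t).aestronglyMeasurable
  · intro n
    refine Eventually.of_forall fun y => ?_
    have hk := ker_pos hh y
    rw [Real.norm_eq_abs, abs_mul, abs_mul, abs_mul, abs_of_pos hk, ← add_mul]
    have h1 := II_le_IN ha hab (by linarith : b ≤ 10) (Nat.cast_nonneg n) (t + y)
    have h2 := IN_antitone ha hab (by linarith : b ≤ 10) le_rfl (Nat.cast_nonneg n) (t + y)
    have h3 : |IN n a b (t + y)| ≤ |IN 0 a b (t + y)| + |II a b (t + y)| := by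
      rw [abs_le]
      have a1 := neg_abs_le (II a b (t + y))
      have a2 := le_abs_self (IN 0 a b (t + y))
      have a3 := abs_nonneg (IN 0 a b (t + y))
      have a4 := abs_nonneg (II a b (t + y))
      constructor <;> linarith
    gcongr
  · refine Eventually.of_forall fun y => ?_
    exact (IN_tendsto ha hab (by linarith) (t + y)).mul_const _

/-- **the integrated Poisson inequality** -/
theorem D_ineq {a b h : ℝ} (hh : 0 < h) (hh3 : h ≤ 3) (hab : a ≤ b) (ha : -(3/2) ≤ a - h)
    (hb : b + h ≤ 4) (t : ℝ) :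
    II a b t ≤ (1/2) * ((∫ y, II (a - h) (b - h) (t + y) * ker h y) +
      ∫ y, II (a + h) (b + h) (t + y) * ker h y) := by
  have h1 := IN_ker_tendsto (a := a - h) (b := b - h) ha (by linarith) (by linarith) hh hh3 t
  have h2 := IN_ker_tendsto (a := a + h) (b := b + h) (by linarith) (by linarith) hb hh hh3 t
  have h3 := (h1.add h2).const_mul (1/2)
  have h4 := IN_tendsto (a := a) (b := b) (by linarith) hab (by linarith) t
  refine le_of_tendsto_of_tendsto' h4 h3 fun n => ?_
  have h5 := D_N (N := n) (Nat.cast_nonneg n) hh hab ha (by linarith) t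
  refine h5.trans (le_of_eq ?_)
  have i1 := IN_ker_integrable (a := a - h) (b := b - h) (Nat.cast_nonneg n) ha (by linarith)
    (by linarith) hh t
  have i2 := IN_ker_integrable (a := a + h) (b := b + h) (Nat.cast_nonneg n) (by linarith)
    (by linarith) (by linarith) hh t
  rw [← integral_add i1 i2, ← integral_const_mul]
  refine integral_congr_ae (Eventually.of_forall fun y => ?_)
  simp only
  ring

end Pool.Agent.Y757.LS
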