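import Mathlib
import Pool.Agent.Y757.LS.E

/-!
# Reflection, and the two main inequalities
-/

set_option autoImplicit false

open MeasureTheory Filter Topology Set Real

namespace Pool.Agent.Y757.LS

lemma pt_ne_one {s t : ℝ} (ht : 1 ≤ |t|) : pt s t ≠ 1 := by
  intro h
  have := congrArg Complex.im h
  rw [pt_im, Complex.one_im] at this
  rw [this, abs_zero] at ht
  linarith

/-- comparison of `g` with `log |ζ|` -/
lemma g_zeta {s t : ℝ} (hs : -(3/2) ≤ s) (ht : 1 ≤ |t|) :
    g s t ≤ Real.log ‖riemannZeta (pt s t)‖ ∧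
      Real.log ‖riemannZeta (pt s t)‖ ≤ g s t + Real.log 5 := by
  have hne := pt_ne_one (s := s) ht
  have h1 := ratio_le (s := pt s t) (by rw [pt_re]; linarith)
  have h2 := ratio_ge (s := pt s t) (by rw [pt_re]; linarith) (η := 1) (by norm_num) (by
    refine ht.trans ((le_of_eq ?_).trans (Complex.abs_im_le_norm _))
    rw [Complex.sub_im, pt_im, Complex.one_im, sub_zero])
  have h3 : 0 < ‖(pt s t - 1) / (pt s t + 3)‖ := lt_of_lt_of_le (by norm_num) h2
  have l5 : 0 ≤ Real.log 5 := Real.log_nonneg (by norm_num)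
  unfold g
  rw [GG_of_ne hne, norm_mul]
  rcases eq_or_ne (riemannZeta (pt s t)) 0 with h0 | h0
  · rw [h0, norm_zero, mul_zero, Real.log_zero]
    constructor <;> linarith
  · have h4 : 0 < ‖riemannZeta (pt s t)‖ := norm_pos_iff.2 h0
    rw [Real.log_mul h3.ne' h4.ne']
    have l1 := Real.log_le_log h3 h1
    have l2 := Real.log_le_log (by norm_num) h2
    rw [Real.log_one] at l1
    rw [Real.log_inv, show (1 + 4 / 1 : ℝ) = 5 by norm_num] at l2
    constructor <;> linarith

lemma GG_ne_iff {s t : ℝ} (hs : -(3/2) ≤ s) (ht : 1 ≤ |t|) :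
    GG (pt s t) ≠ 0 ↔ riemannZeta (pt s t) ≠ 0 := by
  have hne := pt_ne_one (s := s) ht
  rw [GG_of_ne hne, mul_ne_zero_iff]
  constructor
  · exact fun h => h.2
  · intro h
    exact ⟨div_ne_zero (sub_ne_zero.2 hne) (add_three_ne (by rw [pt_re]; linarith)), h⟩

/-- reflection -/
lemma g_refl : ∃ C : ℝ, 0 ≤ C ∧ ∀ x t : ℝ, 0 ≤ x → x ≤ 3 / 2 → 1 ≤ |t| →
    g (-x) t ≤ g x t + x * Real.log |t| + C ∧
    (GG (pt x t) ≠ 0 → GG (pt (-x) t) ≠ 0 ∧ g x t + x * Real.log |t| - C ≤ g (-x) t) := by
  obtain ⟨K, hK, hR⟩ := zeta_refl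
  have l5 : 0 ≤ Real.log 5 := Real.log_nonneg (by norm_num)
  refine ⟨K + Real.log 5, by positivity, fun x t hx hx' ht => ?_⟩
  obtain ⟨h1, h2⟩ := hR x t hx hx' ht
  have e1 : (1 / 2 + x + t * Complex.I : ℂ) = pt x t := rfl
  have e2 : (1 / 2 - x + t * Complex.I : ℂ) = pt (-x) t := by unfold pt; push_cast; ring
  rw [e1, e2] at h1 h2
  obtain ⟨a1, a2⟩ := g_zeta (s := x) (by linarith) ht
  obtain ⟨b1, b2⟩ := g_zeta (s := -x) (by linarith) ht
  have hlt : 0 ≤ Real.log |t| := Real.log_nonneg ht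
  have ht0 : 0 < |t| := by linarith
  have hpow : 0 < |t| ^ x := Real.rpow_pos_of_pos ht0 x
  have hxl : 0 ≤ x * Real.log |t| := by positivity
  constructor
  · rcases eq_or_ne (riemannZeta (pt x t)) 0 with h0 | h0
    · rw [h0, norm_zero, mul_zero] at h2
      have h3 : riemannZeta (pt (-x) t) = 0 := norm_eq_zero.1 (le_antisymm h2 (norm_nonneg _))
      rw [h3, norm_zero, Real.log_zero] at b1
      rw [h0, norm_zero, Real.log_zero] at a2
      linarith
    · have h3 : 0 < ‖riemannZeta (pt x t)‖ := norm_pos_iff.2 h0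
      have h4 : 0 < ‖riemannZeta (pt (-x) t)‖ := lt_of_lt_of_le (by positivity) h1
      have h5 := Real.log_le_log h4 h2
      rw [Real.log_mul (by positivity) h3.ne', Real.log_mul (by positivity) hpow.ne', Real.log_exp,
        Real.log_rpow ht0] at h5
      linarith
  · intro h0
    rw [GG_ne_iff (by linarith) ht] at h0
    have h3 : 0 < ‖riemannZeta (pt x t)‖ := norm_pos_iff.2 h0
    have h4 : 0 < ‖riemannZeta (pt (-x) t)‖ := lt_of_lt_of_le (by positivity) h1
    refine ⟨(GG_ne_iff (by linarith) ht).2 (norm_pos_iff.1 h4), ?_⟩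
    have h5 := Real.log_le_log (by positivity) h1
    rw [Real.log_mul (by positivity) h3.ne', Real.log_mul (by positivity) hpow.ne', Real.log_exp,
      Real.log_rpow ht0] at h5
    linarith

lemma II_left {x : ℝ} (hx : 0 ≤ x) (t : ℝ) : II (-x) 0 t = ∫ s in (0:ℝ)..x, g (-s) t := by
  unfold II
  have := intervalIntegral.integral_comp_neg (fun s => g s t) (a := 0) (b := x)
  rw [this, neg_zero]

/-- the integral over a symmetric window -/
lemma II_sym : ∃ C : ℝ, 0 ≤ C ∧ ∀ x t : ℝ, 0 ≤ x → x ≤ 3 / 2 → 1 ≤ |t| →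
    II (-x) x t ≤ 2 * II 0 x t + x ^ 2 / 2 * Real.log |t| + C := by
  obtain ⟨C, hC0, hC⟩ := g_refl
  refine ⟨C * (3 / 2), by positivity, fun x t hx hx' ht => ?_⟩
  rw [II_split (a := -x) (b := 0) (c := x) (by linarith) (by linarith) hx t, II_left hx]
  have i1 := g_intervalIntegrable (a := 0) (b := x) (by norm_num) hx t
  have i2 : IntervalIntegrable (fun s => g (-s) t) volume 0 x := by
    have := g_intervalIntegrable (a := -x) (b := 0) (by linarith) (by linarith) t
    have h3 := (IntervalIntegrable.iff_comp_neg (f := fun s => g s t)).1 this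
    simp only [neg_neg, neg_zero] at h3
    exact h3.symm
  have il : IntervalIntegrable (fun s : ℝ => s * Real.log |t|) volume 0 x :=
    (continuous_id.mul continuous_const).intervalIntegrable 0 x
  have i3 : IntervalIntegrable (fun s => g s t + s * Real.log |t| + C) volume 0 x :=
    (i1.add il).add intervalIntegrable_const
  have h1 : ∫ s in (0:ℝ)..x, g (-s) t ≤ ∫ s in (0:ℝ)..x, (g s t + s * Real.log |t| + C) :=
    intervalIntegral.integral_mono_on hx i2 i3 fun s hs =>
      (hC s t hs.1 (by linarith [hs.2]) ht).1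
  have h2 : ∫ s in (0:ℝ)..x, (g s t + s * Real.log |t| + C) =
      II 0 x t + x ^ 2 / 2 * Real.log |t| + C * x := by
    rw [intervalIntegral.integral_add (i1.add il) intervalIntegrable_const,
      intervalIntegral.integral_add i1 il, intervalIntegral.integral_const, intervalIntegral.integral_mul_const, integral_id]
    unfold II
    simp only [smul_eq_mul]
    ring
  have h3 : C * x ≤ C * (3 / 2) := by gcongr
  linarith

lemma log_abs_le {T t : ℝ} (hT : 1 ≤ T) (ht : 1 ≤ |t|) :
    Real.log |t| ≤ Real.log T + 1 + (t - T) ^ 2 := by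
  have h1 : |t| ≤ T * (1 + |t - T|) := by
    have h2 : |t| ≤ |T| + |t - T| := by
      have := abs_add_le T (t - T)
      rwa [add_sub_cancel] at this
    rw [abs_of_nonneg (by linarith : 0 ≤ T)] at h2
    have := abs_nonneg (t - T)
    nlinarith
  have h2 := Real.log_le_log (by linarith) h1
  have h0 := abs_nonneg (t - T)
  rw [Real.log_mul (by linarith) (by linarith)] at h2
  have h3 := log_one_add_le |t - T| h0
  have h4 : |t - T| ≤ 1 + (t - T) ^ 2 := by
    rw [← sq_abs (t - T)]
    nlinarith [sq_nonneg (|t - T| - 1)]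
  linarith

lemma II_small {a b t : ℝ} (ha : -(3/2) ≤ a) (hab : a ≤ b) (hb : b ≤ 10) (ht : |t| ≤ 1) {C : ℝ}
    (hC : II a b t ≤ (b - a) * (C + 4 * Real.log (1 + |t|))) :
    II a b t ≤ (b - a) * (C + 4) := by
  have h0 := abs_nonneg t
  have h1 := log_one_add_le |t| h0
  have h2 : (b - a) * (C + 4 * Real.log (1 + |t|)) ≤ (b - a) * (C + 4) := by
    apply mul_le_mul_of_nonneg_left _ (by linarith)
    linarith
  linarith

/-- **first main inequality** -/
theorem main1 {x : ℝ} (hx : 1/4 < x) (hx' : x ≤ 1/2) : ∃ C : ℝ, 0 ≤ C ∧ ∀ T p q : ℝ, 1 ≤ T →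
    0 ≤ p → 0 ≤ q → Maj (II 0 (3/2)) T p q → GG (pt 0 T) ≠ 0 →
    g 0 T ≤ p / x + x / 4 * Real.log T + C * (1 + q) := by
  obtain ⟨C1, hC10, hC1⟩ := II_upper
  obtain ⟨C2, hC20, hC2⟩ := II_sym
  obtain ⟨C3, hC30, hC3⟩ := II_right (η := 1/4) (by norm_num)
  obtain ⟨C4, hC40, hC4⟩ := right_bound (η := 2 * x - 1/2) (by linarith)
  obtain ⟨C5, hC50, hC5⟩ := g_refl
  have hC0 := C0_nonneg
  have hx0 : 0 < x := by linarith
  -- constant
  set A : ℝ := 3 * (C1 + 4) + (1 / (2 * x)) * (2 * (C3 * (3/2)) + C2) + 2 with hA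
  have hA0 : 0 ≤ A := by positivity
  refine ⟨A + 2 * C4 + C5 + 2 * C0 + 8 * C0, by positivity, fun T p q hT hp hq hm h0 => ?_⟩
  have hlT : 0 ≤ Real.log T := Real.log_nonneg hT
  set S : Finset ℝ := {-(2 * x), 0, 2 * x} with hS
  have hSm : ∀ c ∈ S, c = -(2 * x) ∨ c = 0 ∨ c = 2 * x := by
    intro c hc
    simpa [hS] using hc
  have n1 : -(2 * x) ≠ 0 := by linarith
  have n2 : -(2 * x) ≠ 2 * x := by linarith
  have n3 : (0:ℝ) ≠ 2 * x := by linarith
  have hsum : ∀ f : ℝ → ℝ, ∑ c ∈ S, f c = f (-(2 * x)) + f 0 + f (2 * x) := by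
    intro f
    rw [hS, Finset.sum_insert, Finset.sum_insert, Finset.sum_singleton]
    · ring
    · simp [n3]
    · simp only [Finset.mem_insert, Finset.mem_singleton, not_or]
      exact ⟨n1, n2⟩
  have hV : ∀ t, V S x t = (1 / (2 * x)) * II (-(3 * x)) (3 * x) t := by
    intro t
    unfold V
    rw [hsum, ← mul_add, ← mul_add]
    congr 1
    rw [show -(2 * x) - x = -(3 * x) by ring, show -(2 * x) + x = -x by ring,
      show 0 - x = -x by ring, show 0 + x = x by ring, show 2 * x - x = x by ring,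
      show 2 * x + x = 3 * x by ring,
      ← II_split (a := -(3 * x)) (b := -x) (c := x) (by linarith) (by linarith) (by linarith),
      ← II_split (a := -(3 * x)) (b := x) (c := 3 * x) (by linarith) (by linarith) (by linarith)]
  have hmaj : Maj (V S x) T (p / x + 9 * x / 4 * Real.log T + A) (q / x + 9 * x / 4) := by
    intro t
    rw [hV t]
    have hpx : 0 ≤ p / x := by positivity
    have hqx : 0 ≤ q / x := by positivity
    have hsq := sq_nonneg (t - T)
    have hx2 : 0 < 1 / (2 * x) := by positivity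
    rcases le_or_gt 1 |t| with ht | ht
    · have h1 := hC2 (3 * x) t (by linarith) (by linarith) ht
      have h2 := II_split (a := 0) (b := 3 * x) (c := 3/2) (by norm_num) (by linarith)
        (by linarith) t
      have h3 := (hC3 (3 * x) (3/2) t (by linarith) (by linarith) (by norm_num)).1
      rw [abs_le] at h3
      have h3' : C3 * (3 / 2 - 3 * x) ≤ C3 * (3/2) := by gcongr; linarith
      have h4 := hm t
      have h5 := log_abs_le hT ht
      have h6 : II (-(3 * x)) (3 * x) t ≤ 2 * (p + q * (t - T) ^ 2 + C3 * (3/2)) +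
          9 * x ^ 2 / 2 * (Real.log T + 1 + (t - T) ^ 2) + C2 := by
        have h7 : (3 * x) ^ 2 / 2 * Real.log |t| ≤
            9 * x ^ 2 / 2 * (Real.log T + 1 + (t - T) ^ 2) := by
          rw [show (3 * x) ^ 2 / 2 = 9 * x ^ 2 / 2 by ring]
          gcongr
        linarith
      calc 1 / (2 * x) * II (-(3 * x)) (3 * x) t ≤ 1 / (2 * x) *
            (2 * (p + q * (t - T) ^ 2 + C3 * (3/2)) +
            9 * x ^ 2 / 2 * (Real.log T + 1 + (t - T) ^ 2) + C2) := by gcongr
        _ = p / x + 9 * x / 4 * Real.log T + (9 * x / 4 + (1 / (2 * x)) * (2 * (C3 * (3/2)) + C2)) +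
            (q / x + 9 * x / 4) * (t - T) ^ 2 := by
            field_simp
            ring
        _ ≤ _ := by
            have : 0 ≤ 3 * (C1 + 4) := by positivity
            rw [hA]
            linarith
    · have h1 := II_small (a := -(3 * x)) (b := 3 * x) (by linarith) (by linarith) (by linarith)
        ht.le (hC1 _ _ t (by linarith) (by linarith) (by linarith)).1
      calc 1 / (2 * x) * II (-(3 * x)) (3 * x) t ≤
            1 / (2 * x) * ((3 * x - -(3 * x)) * (C1 + 4)) := by gcongr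
        _ = 3 * (C1 + 4) := by field_simp; ring
        _ ≤ _ := by
            have e1 : 0 ≤ 9 * x / 4 * Real.log T := by positivity
            have e2 : 0 ≤ (q / x + 9 * x / 4) * (t - T) ^ 2 := by positivity
            have e3 : 0 ≤ (1 / (2 * x)) * (2 * (C3 * (3/2)) + C2) := by positivity
            rw [hA]
            linarith
  have hTa : 1 ≤ |T| := by rw [abs_of_nonneg (by linarith)]; exact hT
  have hr := hC4 (2 * x) T (by linarith)
  have hl := (hC5 (2 * x) T (by linarith) (by linarith) hTa).2 hr.1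
  have hcen := centre_le (S := S) (δ := x) (T := T) hx0 (by linarith) (by
    intro c hc
    rcases hSm c hc with h | h | h <;> rw [h] <;> constructor <;> linarith) (by
    intro c hc
    rcases hSm c hc with h | h | h
    · rw [h]; exact hl.1
    · rw [h]; exact h0
    · rw [h]; exact hr.1) (by positivity) hmaj
  rw [hsum] at hcen
  have h1 := neg_abs_le (g (2 * x) T)
  have h2 := hr.2
  have h3 := hl.2
  rw [abs_of_nonneg (by linarith : 0 ≤ T)] at h3
  have h4 : (q / x + 9 * x / 4) * C0 * x ^ 2 ≤ 8 * C0 * q + 2 * C0 := by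
    have e : (q / x + 9 * x / 4) * C0 * x ^ 2 = C0 * q * x + C0 * (9 * x ^ 3 / 4) := by
      field_simp
    rw [e]
    have e1 : C0 * q * x ≤ C0 * q * 8 := by gcongr; linarith
    have e2 : x ^ 3 ≤ 1 / 8 := by
      calc x ^ 3 ≤ (1/2) ^ 3 := by gcongr
        _ = 1 / 8 := by norm_num
    have e3 : C0 * (9 * x ^ 3 / 4) ≤ C0 * 2 := by gcongr; linarith
    linarith
  have h5 : 0 ≤ q * (A + 2 * C4 + C5 + 2 * C0) := by positivity
  have h6 : 0 ≤ C0 := hC0
  nlinarith

end Pool.Agent.Y757.LS
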