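import Mathlib
import Pool.Agent.Y757.LS.R

/-!
# The second main inequality
-/

set_option autoImplicit false

open MeasureTheory Filter Topology Set Real

namespace Pool.Agent.Y757.LS

lemma E_mono {f₁ f₂ : ℝ → ℝ} {h : ℝ} (hh : 0 < h) (h1 : KI h f₁) (h2 : KI h f₂)
    (hle : ∀ t, f₁ t ≤ f₂ t) (t : ℝ) : E h f₁ t ≤ E h f₂ t := by
  unfold E
  exact integral_mono (h1 t) (h2 t) fun y =>
    mul_le_mul_of_nonneg_right (hle (t + y)) (ker_pos hh y).le

/-- lower bound for averages of the horizontal integral -/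
lemma avg_lower {η : ℝ} (hη : 0 < η) : ∃ C : ℝ, 0 ≤ C ∧ ∀ δ H t : ℝ, 0 ≤ δ → δ ≤ 3/2 → 0 < H →
    H ≤ 1 → 1/2 + η ≤ δ + H → -C ≤ E H (II δ (3/2)) t := by
  obtain ⟨C, hC0, hC⟩ := II_right hη
  refine ⟨3 * (C * (3/2)), by positivity, fun δ H t hδ hδ' hH hH1 hd => ?_⟩
  have h1 := D_ineq (a := δ + H) (b := 3/2 + H) (h := H) hH (by linarith) (by linarith)
    (by linarith) (by linarith) t
  rw [show δ + H - H = δ by ring, show 3/2 + H - H = 3/2 by ring] at h1
  have h2 := (hC (δ + H) (3/2 + H) t hd (by linarith) (by linarith)).1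
  rw [abs_le] at h2
  have h3 : ∫ y, II (δ + H + H) (3/2 + H + H) (t + y) * ker H y ≤ C * (3/2) := by
    calc ∫ y, II (δ + H + H) (3/2 + H + H) (t + y) * ker H y ≤ ∫ y, C * (3/2) * ker H y := by
          refine integral_mono (II_ker_integrable (by linarith) (by linarith) (by linarith) hH
            (by linarith) t) ((ker_integrable hH).const_mul _) fun y => ?_
          have h4 := (hC (δ + H + H) (3/2 + H + H) (t + y) (by linarith) (by linarith)
            (by linarith)).1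
          rw [abs_le] at h4
          have h5 : C * (3/2 + H + H - (δ + H + H)) ≤ C * (3/2) := by gcongr; linarith
          exact mul_le_mul_of_nonneg_right (h4.2.trans h5) (ker_pos hH y).le
      _ = C * (3/2) := by rw [integral_const_mul, integral_ker hH, mul_one]
  have h5 : C * (3/2 + H - (δ + H)) ≤ C * (3/2) := by gcongr; linarith
  unfold E
  linarith

/-- **lower bound for the values of the horizontal integral** -/
theorem main0 : ∃ C : ℝ, 0 ≤ C ∧ ∀ T p q : ℝ, Maj (II 0 (3/2)) T p q → -C ≤ p + q * C0 := by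
  obtain ⟨C, hC0, hC⟩ := avg_lower (η := 1/2) (by norm_num)
  refine ⟨C, hC0, fun T p q hm => ?_⟩
  have h1 := hC 0 1 T le_rfl (by norm_num) one_pos le_rfl (by norm_num)
  have h2 := E_le_of_Maj one_pos (II_KI (by norm_num) (by norm_num) (by norm_num) one_pos
    (by norm_num)) hm T
  simp only [sub_self] at h2
  norm_num at h2
  linarith

/-- convexity of the horizontal integrals -/
lemma J_conv : ∃ C : ℝ, 0 ≤ C ∧ ∀ h : ℝ, 0 < h → h ≤ 3/4 → ∀ T p q : ℝ, 0 ≤ q →
    Maj (II 0 (3/2)) T p q → ∀ p' : ℝ, Maj (II (2 * h) (3/2)) T p' q →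
    Maj (II h (3/2)) T ((p + p') / 2 + C + q * C0) q := by
  obtain ⟨C, hC0, hC⟩ := II_right (η := 1/4) (by norm_num)
  refine ⟨C, hC0, fun h hh hh' T p q hq hm p' hm' t => ?_⟩
  have h1 := D_ineq (a := h) (b := 3/2) (h := h) hh (by linarith) (by linarith)
    (by linarith) (by linarith) t
  rw [sub_self, show h + h = 2 * h by ring] at h1
  have m1 : Maj (II 0 (3/2 - h)) T (p + C * h) q := by
    intro τ
    have h2 := II_split (a := 0) (b := 3/2 - h) (c := 3/2) (by norm_num) (by linarith)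
      (by linarith) τ
    have h3 := (hC (3/2 - h) (3/2) τ (by linarith) (by linarith) (by linarith)).1
    rw [abs_le, show (3:ℝ)/2 - (3/2 - h) = h by ring] at h3
    have h4 := hm τ
    linarith
  have m2 : Maj (II (2 * h) (3/2 + h)) T (p' + C * h) q := by
    intro τ
    have h2 := II_split (a := 2 * h) (b := 3/2) (c := 3/2 + h) (by linarith) (by linarith)
      (by linarith) τ
    have h3 := (hC (3/2) (3/2 + h) τ (by linarith) (by linarith) (by linarith)).1
    rw [abs_le, show (3:ℝ)/2 + h - 3/2 = h by ring] at h3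
    have h4 := hm' τ
    linarith
  have e1 := E_le_of_Maj hh (II_KI (by norm_num) (by linarith) (by linarith) hh (by linarith)) m1 t
  have e2 := E_le_of_Maj hh (II_KI (by linarith) (by linarith) (by linarith) hh (by linarith)) m2 t
  unfold E at e1 e2
  have h5 : C * h ≤ C * 1 := by gcongr; linarith
  have hc := C0_nonneg
  have h6 : q * C0 * h ^ 2 ≤ q * C0 * 1 := by
    have : h ^ 2 ≤ 1 := by nlinarith
    gcongr
  linarith

lemma J_dyadic {C : ℝ} (hC0 : 0 ≤ C) (hC : ∀ h : ℝ, 0 < h → h ≤ 3/4 → ∀ T p q : ℝ, 0 ≤ q →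
    Maj (II 0 (3/2)) T p q → ∀ p' : ℝ, Maj (II (2 * h) (3/2)) T p' q →
    Maj (II h (3/2)) T ((p + p') / 2 + C + q * C0) q) {x T p q : ℝ} (hx : 0 < x) (hx' : x ≤ 3/2)
    (hq : 0 ≤ q) (hm : Maj (II 0 (3/2)) T p q) (hmx : Maj (II x (3/2)) T (p + 2 * C + 2 * (q * C0)) q)
    (n : ℕ) : Maj (II (x / 2 ^ n) (3/2)) T (p + 2 * C + 2 * (q * C0)) q := by
  induction n with
  | zero => simpa using hmx
  | succ n ih =>
    have e : x / 2 ^ n = 2 * (x / 2 ^ (n + 1)) := by rw [pow_succ]; field_simp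
    rw [e] at ih
    have h1 : x / 2 ^ (n + 1) ≤ 3/4 := by
      have : (2:ℝ) ≤ 2 ^ (n + 1) := by
        calc (2:ℝ) = 2 ^ 1 := by norm_num
          _ ≤ 2 ^ (n + 1) := pow_le_pow_right₀ (by norm_num) (by omega)
      rw [div_le_iff₀ (by positivity)]
      linarith
    have h2 := hC (x / 2 ^ (n + 1)) (by positivity) h1 T p q hq hm _ ih
    exact h2.mono (by linarith) le_rfl

/-- the horizontal integrals over smaller ranges are bounded by the same majorant -/
lemma J_right : ∃ C : ℝ, 0 ≤ C ∧ ∀ δ : ℝ, 0 < δ → δ ≤ 3/2 → ∀ T p q : ℝ, 0 ≤ p → 0 ≤ q →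
    Maj (II 0 (3/2)) T p q → Maj (II δ (3/2)) T (p + C * (1 + q)) q := by
  obtain ⟨C, hC0, hC⟩ := J_conv
  obtain ⟨C', hC'0, hC'⟩ := II_right (η := 1/4) (by norm_num)
  have hc := C0_nonneg
  refine ⟨2 * C + 2 * C0 + 2 * C', by positivity, fun δ hδ hδ' T p q hp hq hm => ?_⟩
  obtain ⟨n, hn1, hn2⟩ := exists_nat_pow_near (x := 3 / 2 / δ) (y := (2:ℝ))
    ((one_le_div₀ hδ).2 hδ') (by norm_num)
  rw [le_div_iff₀ hδ] at hn1
  rw [div_lt_iff₀ hδ, pow_succ] at hn2
  set x : ℝ := 2 ^ n * δ with hx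
  have hx0 : 0 < x := by positivity
  have e : δ = x / 2 ^ n := by rw [hx]; field_simp
  have hmx : Maj (II x (3/2)) T (p + 2 * (C + C' * 1) + 2 * (q * C0)) q := by
    intro t
    have h1 := (hC' x (3/2) t (by linarith) hn1 (by norm_num)).1
    rw [abs_le] at h1
    have h2 : C' * (3/2 - x) ≤ C' * 1 := by gcongr; linarith
    have h3 : 0 ≤ q * (t - T) ^ 2 := by positivity
    have h4 : 0 ≤ q * C0 := by positivity
    linarith
  have h1 := J_dyadic (C := C + C' * 1) (by positivity) (fun h h1 h2 T p q hq hm p' hm' =>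
    (hC h h1 h2 T p q hq hm p' hm').mono (by linarith) le_rfl) hx0 hn1 hq hm hmx n
  rw [← e] at h1
  refine h1.mono ?_ le_rfl
  have h2 : 0 ≤ q * (2 * C + 2 * C') := by positivity
  nlinarith

/-- **second main inequality**, with all constants -/
theorem main2core : ∃ C1 C2 C4 : ℝ, 0 ≤ C1 ∧ 0 ≤ C2 ∧ 0 ≤ C4 ∧ ∀ δ H C3 : ℝ, 0 < δ → δ < 1/2 →
    1/2 - δ < H → H ≤ 1 → δ / 2 ≤ H → 0 ≤ C3 → (∀ t, -C3 ≤ E H (II δ (3/2)) t) →
    ∀ T p q : ℝ, 1 ≤ T → 0 ≤ p → 0 ≤ q → Maj (II 0 (3/2)) T p q → GG (pt 0 T) ≠ 0 →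
    g 0 T ≤ 2 * H / δ ^ 2 * p + δ / 4 * Real.log T +
      (2 * H / δ ^ 2 * (C4 + C0 + C3) + (1 + C0) + ((C1 + 4) + C2 / (2 * δ) + 1) +
        2 * H / δ ^ 2 * C0 + C0) * (1 + q) := by
  obtain ⟨C1, hC10, hC1⟩ := II_upper
  obtain ⟨C2, hC20, hC2⟩ := II_sym
  obtain ⟨C4, hC40, hC4⟩ := J_right
  refine ⟨C1, C2, C4, hC10, hC20, hC40, ?_⟩
  intro δ H C3 hδ hδ' hH hH1 hHδ hC30 hC3
  have hC0 := C0_nonneg
  have hH0 : 0 < H := by linarith
  set A : ℝ := (C1 + 4) + C2 / (2 * δ) + 1 with hA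
  have hA0 : 0 ≤ A := by positivity
  set K : ℝ := 2 * H / δ ^ 2 with hK
  have hK0 : 0 ≤ K := by positivity
  intro T p q hT hp hq hm h0
  have hlT : 0 ≤ Real.log T := Real.log_nonneg hT
  set p₁ : ℝ := p + C4 * (1 + q) with hp₁
  have hp₁0 : 0 ≤ p₁ := by positivity
  have hpp : p ≤ p₁ := by rw [hp₁]; have : 0 ≤ C4 * (1 + q) := by positivity
                          linarith
  have hm1 : Maj (II 0 (3/2)) T p₁ q := hm.mono hpp le_rfl
  have hmδ : Maj (II δ (3/2)) T p₁ q := hC4 δ hδ (by linarith) T p q hp hq hm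
  -- the difference function
  set D : ℝ → ℝ := fun t => (p₁ + q * (t - T) ^ 2) - II δ (3/2) t with hD
  have hD0 : ∀ t, 0 ≤ D t := by
    intro t
    have := hmδ t
    simp only [hD]
    linarith
  have hDK : ∀ {k : ℝ}, 0 < k → k ≤ 3 → KI k D := by
    intro k hk hk3 t
    have h1 := (quad_integrable hk p₁ q T t).sub
      (II_ker_integrable (a := δ) (b := 3/2) (by linarith) (by linarith) (by norm_num) hk hk3 t)
    refine h1.congr (Eventually.of_forall fun y => ?_)
    simp only [hD, Pi.sub_apply]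
    ring
  have hDE : ∀ t, E (δ/2) D t ≤ 2 * H / δ * (p₁ + q * C0 * H ^ 2 + q * (t - T) ^ 2 + C3) := by
    intro t
    have h1 : E (δ/2) D t ≤ 2 * H / δ * E H D t := by
      unfold E
      rw [← integral_const_mul]
      refine integral_mono (hDK (by linarith) (by linarith) t)
        ((hDK hH0 (by linarith) t).const_mul _) fun y => ?_
      have h2 := ker_le (by linarith : 0 < δ/2) hHδ y
      have h3 := hD0 (t + y)
      calc D (t + y) * ker (δ/2) y ≤ D (t + y) * (H / (δ/2) * ker H y) := by gcongr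
        _ = 2 * H / δ * (D (t + y) * ker H y) := by field_simp
    have h2 : E H D t = (p₁ + q * C0 * H ^ 2 + q * (t - T) ^ 2) - E H (II δ (3/2)) t := by
      rw [← E_quad hH0 p₁ q T t]
      unfold E
      rw [← integral_sub (quad_integrable hH0 p₁ q T t)
        (II_ker_integrable (a := δ) (b := 3/2) (by linarith) (by linarith) (by norm_num) hH0
          (by linarith) t)]
      refine integral_congr_ae (Eventually.of_forall fun y => ?_)
      simp only [hD]
      ring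
    have h3 := hC3 t
    have h4 : 0 ≤ 2 * H / δ := by positivity
    refine h1.trans (mul_le_mul_of_nonneg_left ?_ h4)
    linarith
  set S : Finset ℝ := {0} with hS
  have hV : ∀ d t, V S d t = (1 / (2 * d)) * II (-d) d t := by
    intro d t
    unfold V
    rw [hS, Finset.sum_singleton, zero_sub, zero_add]
  -- bound for the window of size `δ`
  have hVδ : ∀ t, V S δ t ≤ 1 / δ * D t + ((δ / 4 * Real.log T + A) + δ / 4 * (t - T) ^ 2) := by
    intro t
    rw [hV δ t]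
    have hD0t := hD0 t
    rcases le_or_gt 1 |t| with ht | ht
    · have h1 := hC2 δ t hδ.le (by linarith) ht
      have h2 := II_split (a := 0) (b := δ) (c := 3/2) (by norm_num) hδ.le (by linarith) t
      have h4 := hm1 t
      have h5 := log_abs_le hT ht
      have h6 : II (-δ) δ t ≤ 2 * D t + δ ^ 2 / 2 * (Real.log T + 1 + (t - T) ^ 2) + C2 := by
        have h7 : δ ^ 2 / 2 * Real.log |t| ≤ δ ^ 2 / 2 * (Real.log T + 1 + (t - T) ^ 2) := by
          gcongr
        simp only [hD]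
        linarith
      calc 1 / (2 * δ) * II (-δ) δ t ≤ 1 / (2 * δ) *
            (2 * D t + δ ^ 2 / 2 * (Real.log T + 1 + (t - T) ^ 2) + C2) := by gcongr
        _ = 1 / δ * D t + ((δ / 4 * Real.log T + (δ / 4 + C2 / (2 * δ))) +
              δ / 4 * (t - T) ^ 2) := by
            field_simp
            ring
        _ ≤ _ := by
            rw [hA]
            linarith
    · have h1 := II_small (a := -δ) (b := δ) (by linarith) (by linarith) (by linarith)
        ht.le (hC1 _ _ t (by linarith) (by linarith) (by linarith)).1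
      calc 1 / (2 * δ) * II (-δ) δ t ≤ 1 / (2 * δ) * ((δ - -δ) * (C1 + 4)) := by gcongr
        _ = C1 + 4 := by field_simp; ring
        _ ≤ _ := by
            have e1 : 0 ≤ δ / 4 * Real.log T := by positivity
            have e2 : 0 ≤ δ / 4 * (t - T) ^ 2 := by positivity
            have e3 : 0 ≤ C2 / (2 * δ) := by positivity
            have e4 : 0 ≤ 1 / δ * D t := by positivity
            rw [hA]
            linarith
  have hδ2 : 0 < δ / 2 := by linarith
  -- the majorant for the window of size `δ/2`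
  have hmaj : Maj (V S (δ/2)) T (K * (p₁ + q * C0 * H ^ 2 + C3) +
      (δ / 4 * Real.log T + A + δ / 4 * C0 * (δ / 2) ^ 2)) (K * q + δ / 4) := by
    intro t
    have hSc : ∀ c ∈ S, -(3/2) ≤ c - 2 * (δ/2) ∧ c + 2 * (δ/2) ≤ 4 := by
      intro c hc
      rw [hS, Finset.mem_singleton] at hc
      rw [hc]; constructor <;> linarith
    have h1 := V_double (S := S) hδ2 (by linarith) hSc t
    rw [show 2 * (δ / 2) = δ by ring] at h1 hSc
    have hk1 : KI (δ/2) (V S δ) := V_KI hδ hδ2 (by linarith) hSc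
    set f₂ : ℝ → ℝ := fun t => (δ / 4 * Real.log T + A) + δ / 4 * (t - T) ^ 2 with hf₂
    have i1 := (hDK hδ2 (by linarith) t).const_mul (1 / δ)
    have i2 := quad_integrable hδ2 (δ / 4 * Real.log T + A) (δ / 4) T t
    have h2 : E (δ/2) (V S δ) t ≤ 1 / δ * E (δ/2) D t +
        (δ / 4 * Real.log T + A + δ / 4 * C0 * (δ / 2) ^ 2 + δ / 4 * (t - T) ^ 2) := by
      rw [← E_quad hδ2 (δ / 4 * Real.log T + A) (δ / 4) T t]
      unfold E
      rw [← integral_const_mul, ← integral_add i1 i2]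
      refine integral_mono (hk1 t) (i1.add i2) fun y => ?_
      have h3 := hVδ (t + y)
      have h4 := ker_pos hδ2 y
      simp only [Pi.add_apply]
      calc V S δ (t + y) * ker (δ/2) y ≤ (1 / δ * D (t + y) +
            ((δ / 4 * Real.log T + A) + δ / 4 * (t + y - T) ^ 2)) * ker (δ/2) y := by gcongr
        _ = _ := by ring
    have h3 : 1 / δ * E (δ/2) D t ≤
        K * (p₁ + q * C0 * H ^ 2 + q * (t - T) ^ 2 + C3) := by
      calc 1 / δ * E (δ/2) D t ≤ 1 / δ * (2 * H / δ *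
            (p₁ + q * C0 * H ^ 2 + q * (t - T) ^ 2 + C3)) := by
            gcongr
            exact hDE t
        _ = _ := by rw [hK]; field_simp
    linarith
  have hcen := centre_le (S := S) (δ := δ/2) (T := T) hδ2 (by linarith) (by
    intro c hc
    rw [hS, Finset.mem_singleton] at hc
    rw [hc]; constructor <;> linarith) (by
    intro c hc
    rw [hS, Finset.mem_singleton] at hc
    rw [hc]; exact h0) (by positivity) hmaj
  rw [hS, Finset.sum_singleton] at hcen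
  have a1 : q * C0 * H ^ 2 ≤ q * C0 * 1 := by
    have : H ^ 2 ≤ 1 := by nlinarith
    gcongr
  have a2 : δ / 4 * C0 * (δ / 2) ^ 2 ≤ 1 * C0 * 1 := by
    have : (δ / 2) ^ 2 ≤ 1 := by nlinarith
    gcongr
    linarith
  have a3 : (K * q + δ / 4) * C0 * (δ / 2) ^ 2 ≤ (K * q + 1) * C0 * 1 := by
    have : (δ / 2) ^ 2 ≤ 1 := by nlinarith
    gcongr
    linarith
  have a4 : K * (p₁ + q * C0 * H ^ 2 + C3) ≤ K * (p₁ + q * C0 * 1 + C3) := by gcongr
  rw [hp₁] at a4
  have a5 : 0 ≤ q * (K * C3 + (1 + C0) + A + C0) := by positivity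
  have a6 : 0 ≤ K * C0 := by positivity
  nlinarith

/-- second main inequality for fixed parameters -/
theorem main2 {δ H : ℝ} (hδ : 0 < δ) (hδ' : δ < 1/2) (hH : 1/2 - δ < H) (hH1 : H ≤ 1)
    (hHδ : δ / 2 ≤ H) : ∃ C : ℝ, 0 ≤ C ∧ ∀ T p q : ℝ, 1 ≤ T →
    0 ≤ p → 0 ≤ q → Maj (II 0 (3/2)) T p q → GG (pt 0 T) ≠ 0 →
    g 0 T ≤ 2 * H / δ ^ 2 * p + δ / 4 * Real.log T + C * (1 + q) := by
  obtain ⟨C1, C2, C4, hC10, hC20, hC40, hmain⟩ := main2core
  obtain ⟨C3, hC30, hC3⟩ := avg_lower (η := δ + H - 1/2) (by linarith)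
  have hC0 := C0_nonneg
  have hH0 : 0 < H := by linarith
  refine ⟨_, ?_, fun T p q hT hp hq hm h0 => hmain δ H C3 hδ hδ' hH hH1 hHδ hC30
    (fun t => hC3 δ H t hδ.le (by linarith) hH0 hH1 (by linarith)) T p q hT hp hq hm h0⟩
  positivity

/-- second main inequality, uniform in `δ` -/
theorem main2u : ∃ C : ℝ, 0 ≤ C ∧ ∀ δ : ℝ, 0 < δ → δ < 1/2 → ∀ T p q : ℝ, 1 ≤ T →
    0 ≤ p → 0 ≤ q → Maj (II 0 (3/2)) T p q → GG (pt 0 T) ≠ 0 →
    g 0 T ≤ 2 / δ ^ 2 * p + δ / 4 * Real.log T + C / δ ^ 2 * (1 + q) := by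
  obtain ⟨C1, C2, C4, hC10, hC20, hC40, hmain⟩ := main2core
  obtain ⟨C3, hC30, hC3⟩ := avg_lower (η := 1/2) (by norm_num)
  have hC0 := C0_nonneg
  refine ⟨2 * (C4 + C0 + C3) + (1 + C0) + ((C1 + 4) + C2 + 1) + 2 * C0 + C0, by positivity,
    fun δ hδ hδ' T p q hT hp hq hm h0 => ?_⟩
  have h1 := hmain δ 1 C3 hδ hδ' (by linarith) le_rfl (by linarith) hC30
    (fun t => hC3 δ 1 t hδ.le (by linarith) one_pos le_rfl (by linarith)) T p q hT hp hq hm h0
  rw [mul_one] at h1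
  have h2 : 1 ≤ 1 / δ ^ 2 := by
    rw [one_le_div₀ (by positivity)]
    nlinarith
  have h3 : 1 / (2 * δ) ≤ 1 / δ ^ 2 := by
    apply one_div_le_one_div_of_le (by positivity)
    nlinarith
  have h4 : 2 / δ ^ 2 * (C4 + C0 + C3) + (1 + C0) + ((C1 + 4) + C2 / (2 * δ) + 1) +
        2 / δ ^ 2 * C0 + C0 ≤
      (2 * (C4 + C0 + C3) + (1 + C0) + ((C1 + 4) + C2 + 1) + 2 * C0 + C0) / δ ^ 2 := by
    have e1 : (1 + C0) ≤ (1 + C0) * (1 / δ ^ 2) := le_mul_of_one_le_right (by positivity) h2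
    have e2 : (C1 + 4) ≤ (C1 + 4) * (1 / δ ^ 2) := le_mul_of_one_le_right (by positivity) h2
    have e3 : C2 / (2 * δ) ≤ C2 * (1 / δ ^ 2) := by
      rw [div_eq_mul_one_div]
      gcongr
    have e4 : C0 ≤ C0 * (1 / δ ^ 2) := le_mul_of_one_le_right hC0 h2
    calc _ ≤ 2 / δ ^ 2 * (C4 + C0 + C3) + (1 + C0) * (1 / δ ^ 2) + ((C1 + 4) * (1 / δ ^ 2) +
          C2 * (1 / δ ^ 2) + 1 / δ ^ 2) + 2 / δ ^ 2 * C0 + C0 * (1 / δ ^ 2) := by gcongr
      _ = _ := by ring
  have h5 : 0 ≤ 1 + q := by linarith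
  have h6 := mul_le_mul_of_nonneg_right h4 h5
  linarith

end Pool.Agent.Y757.LS
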