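import Mathlib
import Pool.Agent.Y757.LS.S

/-!
# From local bounds to quadratic majorants; the horizontal integral of `log |ζ|`
-/

set_option autoImplicit false

open MeasureTheory Filter Topology Set Real

namespace Pool.Agent.Y757.LS

/-- a bound near `T` gives a quadratic majorant -/
lemma loc_maj : ∃ K : ℝ, 0 ≤ K ∧ ∀ B T P : ℝ, 1 ≤ B → 1 ≤ T → B ≤ Real.log T → -Real.log T ≤ P →
    (∀ t, |t - T| ≤ B → II 0 (3/2) t ≤ P) → Maj (II 0 (3/2)) T P (K * Real.log T / B ^ 2) := by
  obtain ⟨C, hC0, hC⟩ := II_upper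
  refine ⟨3/2 * C + 19, by positivity, fun B T P hB hT hBT hP h t => ?_⟩
  have hl1 : 1 ≤ Real.log T := hB.trans hBT
  have hB0 : 0 < B := by linarith
  have hq : 0 ≤ (3/2 * C + 19) * Real.log T / B ^ 2 := by positivity
  rcases le_or_gt |t - T| B with h1 | h1
  · have h2 := h t h1
    have h3 : 0 ≤ (3/2 * C + 19) * Real.log T / B ^ 2 * (t - T) ^ 2 := by positivity
    linarith
  · have h2 := (hC 0 (3/2) t (by norm_num) (by norm_num) (by norm_num)).1
    rw [sub_zero] at h2
    set r : ℝ := |t - T| / B with hr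
    have hr1 : 1 ≤ r := by rw [hr, one_le_div₀ hB0]; exact h1.le
    have hrr : r ≤ r ^ 2 := by nlinarith
    have e1 : |t - T| = B * r := by rw [hr]; field_simp
    have e2 : (t - T) ^ 2 = B ^ 2 * r ^ 2 := by rw [← sq_abs (t - T), e1]; ring
    have h3 : Real.log (1 + |t|) ≤ Real.log T + 1 + B * r := by
      have h4 : |t| ≤ T + |t - T| := by
        have := abs_add_le T (t - T)
        rw [add_sub_cancel, abs_of_nonneg (by linarith : 0 ≤ T)] at this
        exact this
      have h0 := abs_nonneg t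
      have h0' := abs_nonneg (t - T)
      have h5 : 1 + |t| ≤ T * (1 + (1 + |t - T|)) := by nlinarith
      have h6 := Real.log_le_log (by linarith) h5
      rw [Real.log_mul (by linarith) (by linarith)] at h6
      have h7 := log_one_add_le (1 + |t - T|) (by linarith)
      rw [e1] at h7 h6
      linarith
    have h8 : B * r ≤ Real.log T * r ^ 2 := by gcongr
    have h9 : (1:ℝ) ≤ Real.log T * r ^ 2 := by nlinarith
    have h10 : Real.log T ≤ Real.log T * r ^ 2 := by nlinarith
    have h11 : (3/2 * C + 19) * Real.log T / B ^ 2 * (t - T) ^ 2 =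
        (3/2 * C + 19) * (Real.log T * r ^ 2) := by
      rw [e2]; field_simp
    rw [h11]
    have h12 : 3/2 * C ≤ 3/2 * C * (Real.log T * r ^ 2) := le_mul_of_one_le_right (by positivity) h9
    linarith

/-- the horizontal integral of `log |ζ|` -/
noncomputable def J (t : ℝ) : ℝ :=
  ∫ σ in (1/2 : ℝ)..2, Real.log ‖riemannZeta ((σ : ℂ) + (t : ℂ) * Complex.I)‖

lemma J_eq (t : ℝ) : J t = ∫ s in (0:ℝ)..(3/2), Real.log ‖riemannZeta (pt s t)‖ := by
  unfold J
  have h1 := intervalIntegral.integral_comp_add_right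
    (fun σ : ℝ => Real.log ‖riemannZeta ((σ : ℂ) + (t : ℂ) * Complex.I)‖) (1/2) (a := 0) (b := 3/2)
  rw [show (0:ℝ) + 1/2 = 1/2 by norm_num, show (3:ℝ)/2 + 1/2 = 2 by norm_num] at h1
  rw [← h1]
  refine intervalIntegral.integral_congr fun s _ => ?_
  beta_reduce
  congr 3
  unfold pt
  push_cast
  ring

lemma zeta_intervalIntegrable {t : ℝ} (ht : 1 ≤ |t|) :
    IntervalIntegrable (fun s => Real.log ‖riemannZeta (pt s t)‖) volume 0 (3/2) := by
  refine MeromorphicOn.intervalIntegrable_log_norm (f := fun s : ℝ => riemannZeta (pt s t)) ?_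
  intro s _
  have h1 : AnalyticAt ℂ riemannZeta (pt s t) := by
    have : DifferentiableOn ℂ riemannZeta ({1}ᶜ : Set ℂ) := fun z hz =>
      (differentiableAt_riemannZeta hz).differentiableWithinAt
    exact this.analyticAt (isOpen_compl_singleton.mem_nhds (pt_ne_one ht))
  have h2 : AnalyticAt ℝ (fun s : ℝ => pt s t) s := by
    unfold pt
    refine AnalyticAt.add (AnalyticAt.add analyticAt_const ?_) analyticAt_const
    exact Complex.ofRealCLM.analyticAt s
  have h3 : AnalyticAt ℝ riemannZeta (pt s t) := h1.restrictScalars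
  have h4 : AnalyticAt ℝ (fun s : ℝ => riemannZeta (pt s t)) s := AnalyticAt.fun_comp h3 h2
  exact h4.meromorphicAt

/-- `J` and the horizontal integral of `g` differ by a bounded amount -/
lemma J_close {t : ℝ} (ht : 1 ≤ |t|) :
    II 0 (3/2) t ≤ J t ∧ J t ≤ II 0 (3/2) t + 3/2 * Real.log 5 := by
  rw [J_eq]
  unfold II
  have i1 := g_intervalIntegrable (a := 0) (b := 3/2) (by norm_num) (by norm_num) t
  have i2 := zeta_intervalIntegrable ht
  constructor
  · exact intervalIntegral.integral_mono_on (by norm_num) i1 i2 fun s hs =>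
      (g_zeta (by linarith [hs.1]) ht).1
  · have h1 := intervalIntegral.integral_mono_on (by norm_num) i2
      (i1.add (intervalIntegrable_const (c := Real.log 5))) fun s hs =>
      (g_zeta (s := s) (t := t) (by linarith [hs.1]) ht).2
    rw [intervalIntegral.integral_add i1 intervalIntegrable_const,
      intervalIntegral.integral_const, smul_eq_mul, sub_zero] at h1
    exact h1

/-- `|ζ(1/2 + it)|` -/
noncomputable def Z (t : ℝ) : ℝ := ‖riemannZeta (1 / 2 + (t : ℂ) * Complex.I)‖

lemma pt_zero (t : ℝ) : pt 0 t = 1 / 2 + (t : ℂ) * Complex.I := by unfold pt; push_cast; ring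

lemma Z_eq (t : ℝ) : Z t = ‖riemannZeta (pt 0 t)‖ := by rw [pt_zero]; rfl

/-- crude bound -/
lemma Z_upper : ∃ C : ℝ, 0 ≤ C ∧ ∀ T : ℝ, 1 ≤ T → Real.log (Z T) ≤ Real.log T + C := by
  refine ⟨Real.log 27, Real.log_nonneg (by norm_num), fun T hT => ?_⟩
  have hl := Real.log_nonneg hT
  have hl27 : 0 ≤ Real.log 27 := Real.log_nonneg (by norm_num)
  have hTa : 1 ≤ |T| := by rw [abs_of_nonneg (by linarith)]; exact hT
  have hne := pt_ne_one (s := 0) hTa
  have h1 := Pool.Agent.H437R2.z1_norm_le (s := pt 0 T) (by rw [pt_re]; norm_num)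
  rw [Pool.Agent.H437R2.z1_of_ne hne, norm_mul] at h1
  have h2 : T ≤ ‖pt 0 T - 1‖ := by
    refine ((le_abs_self T).trans (le_of_eq ?_)).trans (Complex.abs_im_le_norm _)
    rw [Complex.sub_im, pt_im, Complex.one_im, sub_zero]
  have h3 : ‖pt 0 T‖ ≤ 1/2 + T := by
    refine (Complex.norm_le_abs_re_add_abs_im _).trans ?_
    rw [pt_re, pt_im, abs_of_nonneg (by linarith : 0 ≤ T), abs_of_nonneg (by norm_num)]
    linarith
  rw [← Z_eq] at h1
  have hZ0 : 0 ≤ Z T := norm_nonneg _
  rcases hZ0.eq_or_lt with h0 | h0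
  · rw [← h0, Real.log_zero]; linarith
  · have h4 : Z T ≤ T * 27 := by
      have h5 : T * Z T ≤ 3 * (5/2 * T) ^ 2 := by
        calc T * Z T ≤ ‖pt 0 T - 1‖ * Z T := by gcongr
          _ ≤ 3 * (‖pt 0 T‖ + 1) ^ 2 := h1
          _ ≤ 3 * (5/2 * T) ^ 2 := by gcongr; linarith
      have h6 : T * Z T ≤ T * (T * 27) := by nlinarith
      exact le_of_mul_le_mul_left h6 (by linarith)
    have h5 := Real.log_le_log h0 h4
    rw [Real.log_mul (by linarith) (by norm_num)] at h5
    linarith

end Pool.Agent.Y757.LS
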