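import Mathlib
import Pool.Agent.Y757.LS.Loc

/-!
# Upper bounds for the horizontal integral from bounds on the critical line
-/

set_option autoImplicit false

open MeasureTheory Filter Topology Set Real

namespace Pool.Agent.Y757.LS

/-- the auxiliary function -/
noncomputable def aux (κ L T : ℝ) (z : ℂ) : ℂ :=
  GG z * Complex.exp ((z - T * Complex.I) ^ 2 -
    ((κ * Real.log T : ℝ) : ℂ) * (1 - (z - 1/2) / (L : ℂ)))

lemma aux_norm (κ T : ℝ) {L : ℝ} (z : ℂ) : ‖aux κ L T z‖ =
    ‖GG z‖ * Real.exp (z.re ^ 2 - (z.im - T) ^ 2 - κ * Real.log T * (1 - (z.re - 1/2) / L)) := by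
  unfold aux
  rw [norm_mul, Complex.norm_exp]
  congr 2
  rw [Complex.sub_re, Complex.re_ofReal_mul]
  have e1 : ((z - T * Complex.I) ^ 2).re = z.re ^ 2 - (z.im - T) ^ 2 := by
    rw [sq, Complex.mul_re]
    simp
    ring
  have e2 : (1 - (z - 1 / 2) / (L : ℂ)).re = 1 - (z.re - 1/2) / L := by
    rw [Complex.sub_re, Complex.div_ofReal_re]
    simp
  rw [e1, e2]

lemma exp_gauss (κ u : ℝ) : κ * u - u ^ 2 ≤ κ ^ 2 / 4 := by nlinarith [sq_nonneg (u - κ / 2)]

/-- convexity of the growth of `g` between the critical line and `Re = 1 + η` -/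
theorem conv {κ C η : ℝ} (hκ : 0 ≤ κ) (hC : ∀ t : ℝ, 1 ≤ |t| → Z t ≤ C * |t| ^ κ) (hη : 0 < η)
    (hη1 : η ≤ 1) : ∃ C' : ℝ, 0 ≤ C' ∧ ∀ s T : ℝ, 0 ≤ s → s ≤ 1/2 + η → 1 ≤ T →
      g s T ≤ κ * (1 - s / (1/2 + η)) * Real.log T + C' := by
  obtain ⟨C1, hC10, hC1⟩ := upper
  obtain ⟨C2, hC20, hC2⟩ := right_bound hη
  set L : ℝ := 1/2 + η with hL
  have hL0 : 0 < L := by linarith
  -- the constant
  set A : ℝ := max (max C 1 * Real.exp (κ ^ 2 / 4 + 1)) (Real.exp (C1 + 4 + 1)) with hA
  set M : ℝ := max A (Real.exp (C2 + 4)) with hM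
  have hA1 : 1 ≤ A := by
    refine le_trans ?_ (le_max_right _ _)
    exact Real.one_le_exp (by linarith)
  have hM1 : 1 ≤ M := hA1.trans (le_max_left _ _)
  have hM0 : 0 < M := by linarith
  refine ⟨Real.log M, Real.log_nonneg hM1, fun s T hs hsL hT => ?_⟩
  have hlT : 0 ≤ Real.log T := Real.log_nonneg hT
  have hT0 : 0 < T := by linarith
  have hGexp : ∀ {s t c : ℝ}, GG (pt s t) ≠ 0 → g s t ≤ c → ‖GG (pt s t)‖ ≤ Real.exp c := by
    intro s t c h0 h
    unfold g at h
    exact (Real.log_le_iff_le_exp (norm_pos_iff.2 h0)).1 h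
  have hpt : ∀ z : ℂ, z = pt (z.re - 1/2) z.im := by
    intro z
    apply Complex.ext
    · rw [pt_re]; ring
    · rw [pt_im]
  have key : ‖aux κ L T (pt s T)‖ ≤ M := by
    refine PhragmenLindelof.vertical_strip (a := 1/2) (b := 1/2 + L) (C := M) ?_ ?_ ?_ ?_
      (by rw [pt_re]; linarith) (by rw [pt_re]; linarith)
    · apply DifferentiableOn.diffContOnCl
      intro z hz
      have h1 : closure (Complex.re ⁻¹' Ioo (1 / 2 : ℝ) (1/2 + L)) ⊆
          Complex.re ⁻¹' Icc (1 / 2 : ℝ) (1/2 + L) := by
        apply closure_minimal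
        · intro z hz; exact ⟨hz.1.le, hz.2.le⟩
        · exact isClosed_Icc.preimage Complex.continuous_re
      have h2 : (1/2 : ℝ) ≤ z.re := (h1 hz).1
      have h3 : DifferentiableAt ℂ GG z := (GG_analyticAt (by linarith)).differentiableAt
      unfold aux
      exact (h3.mul (by fun_prop)).differentiableWithinAt
    · refine ⟨1, ?_, 1, ?_⟩
      · rw [lt_div_iff₀ (by linarith)]
        linarith [Real.pi_gt_three]
      · apply Asymptotics.IsBigO.of_bound (Real.exp (C1 + 4 * T + 9 + κ * Real.log T))
        apply Filter.mem_inf_of_right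
        intro z hz
        have hz1 : 1 / 2 < z.re := hz.1
        have hz2 : z.re < 1/2 + L := hz.2
        rw [Set.mem_setOf_eq, aux_norm, Real.norm_of_nonneg (Real.exp_pos _).le]
        rcases eq_or_ne (GG z) 0 with h0 | h0
        · rw [h0, norm_zero, zero_mul]; positivity
        · have h1 := (hC1 (z.re - 1/2) z.im (by linarith) (by linarith)).1
          have h2 := hGexp (by rw [← hpt z]; exact h0) h1
          rw [← hpt z] at h2
          have h3 := log_one_add_le |z.im| (abs_nonneg _)
          have h4 : |z.im| ≤ T + |z.im - T| := by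
            have := abs_add_le T (z.im - T)
            rw [add_sub_cancel, abs_of_nonneg (by linarith : 0 ≤ T)] at this
            exact this
          have h5 : z.re ^ 2 ≤ 4 := by nlinarith
          have h6 : 0 ≤ κ * Real.log T * (1 - (z.re - 1/2) / L) := by
            have : (z.re - 1/2) / L ≤ 1 := by rw [div_le_one hL0]; linarith
            have : 0 ≤ 1 - (z.re - 1/2) / L := by linarith
            positivity
          have h7 := exp_gauss 4 |z.im - T|
          rw [sq_abs] at h7
          have h8 : (0:ℝ) ≤ κ * Real.log T := by positivity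
          have h9 := Real.exp_pos (1 * |z.im|)
          calc ‖GG z‖ * Real.exp (z.re ^ 2 - (z.im - T) ^ 2 -
                κ * Real.log T * (1 - (z.re - 1/2) / L))
              ≤ Real.exp (C1 + 4 * Real.log (1 + |z.im|)) * Real.exp (z.re ^ 2 - (z.im - T) ^ 2 -
                κ * Real.log T * (1 - (z.re - 1/2) / L)) := by gcongr
            _ ≤ Real.exp (C1 + 4 * T + 9 + κ * Real.log T) * Real.exp (1 * Real.exp (1 * |z.im|)) := by
                rw [← Real.exp_add, ← Real.exp_add]
                apply Real.exp_le_exp.2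
                linarith
    · intro z hz
      rw [aux_norm, hz, sub_self, zero_div, sub_zero, mul_one]
      have hze : z = pt 0 z.im := by
        have := hpt z
        rw [hz, sub_self] at this
        exact this
      rcases le_or_gt 1 |z.im| with h1 | h1
      · have h2 : ‖GG z‖ ≤ Z z.im := by
          rw [hze, pt_im, Z_eq, GG_of_ne (pt_ne_one h1), norm_mul]
          have h3 := ratio_le (s := pt 0 z.im) (by rw [pt_re]; norm_num)
          have h4 := norm_nonneg (riemannZeta (pt 0 z.im))
          nlinarith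
        have h3 := hC z.im h1
        have h5 : |z.im| ^ κ ≤ T ^ κ * Real.exp (κ * |z.im - T|) := by
          have h4 : |z.im| ≤ T * Real.exp |z.im - T| := by
            have h6 := abs_add_le T (z.im - T)
            rw [add_sub_cancel, abs_of_nonneg (by linarith : 0 ≤ T)] at h6
            have h7 := Real.add_one_le_exp |z.im - T|
            have h8 := abs_nonneg (z.im - T)
            nlinarith
          calc |z.im| ^ κ ≤ (T * Real.exp |z.im - T|) ^ κ := by gcongr
            _ = T ^ κ * Real.exp (κ * |z.im - T|) := by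
                rw [Real.mul_rpow hT0.le (Real.exp_pos _).le, ← Real.exp_mul, mul_comm κ]
        have h6 : T ^ κ = Real.exp (κ * Real.log T) := by
          rw [Real.rpow_def_of_pos hT0, mul_comm]
        have h7 := exp_gauss κ |z.im - T|
        rw [sq_abs] at h7
        have hmx : 0 ≤ max C 1 := le_trans zero_le_one (le_max_right _ _)
        have h8 : 0 ≤ |z.im| ^ κ := by positivity
        calc ‖GG z‖ * Real.exp ((1/2) ^ 2 - (z.im - T) ^ 2 - κ * Real.log T)
            ≤ (max C 1 * (T ^ κ * Real.exp (κ * |z.im - T|))) *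
              Real.exp ((1/2) ^ 2 - (z.im - T) ^ 2 - κ * Real.log T) := by
              gcongr
              refine h2.trans (h3.trans ?_)
              calc C * |z.im| ^ κ ≤ max C 1 * |z.im| ^ κ :=
                    mul_le_mul_of_nonneg_right (le_max_left _ _) h8
                _ ≤ _ := mul_le_mul_of_nonneg_left h5 hmx
          _ = max C 1 * Real.exp ((1/2) ^ 2 + (κ * |z.im - T| - (z.im - T) ^ 2)) := by
              rw [h6, mul_assoc, ← Real.exp_add, ← Real.exp_add]
              congr 2
              ring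
          _ ≤ max C 1 * Real.exp (κ ^ 2 / 4 + 1) := by
              refine mul_le_mul_of_nonneg_left (Real.exp_le_exp.2 ?_) hmx
              linarith
          _ ≤ A := le_max_left _ _
          _ ≤ M := le_max_left _ _
      · rcases eq_or_ne (GG z) 0 with h0 | h0
        · rw [h0, norm_zero, zero_mul]; positivity
        · have h2 := (hC1 0 z.im (by norm_num) (by norm_num)).1
          have h3 := hGexp (by rw [← hze]; exact h0) h2
          rw [← hze] at h3
          have h4 := log_one_add_le |z.im| (abs_nonneg _)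
          have h8 : (0:ℝ) ≤ κ * Real.log T := by positivity
          have h9 := sq_nonneg (z.im - T)
          calc ‖GG z‖ * Real.exp ((1/2) ^ 2 - (z.im - T) ^ 2 - κ * Real.log T)
              ≤ Real.exp (C1 + 4 * Real.log (1 + |z.im|)) *
                Real.exp ((1/2) ^ 2 - (z.im - T) ^ 2 - κ * Real.log T) := by gcongr
            _ ≤ Real.exp (C1 + 4 + 1) := by
                rw [← Real.exp_add]
                apply Real.exp_le_exp.2
                linarith
            _ ≤ A := le_max_right _ _
            _ ≤ M := le_max_left _ _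
    · intro z hz
      have e : 1 - (z.re - 1/2) / L = 0 := by
        rw [hz, add_sub_cancel_left, div_self hL0.ne', sub_self]
      rw [aux_norm, e, mul_zero, sub_zero]
      obtain ⟨h0, h1⟩ := hC2 (z.re - 1/2) z.im (by rw [hz]; linarith)
      have h2 := hGexp h0 ((le_abs_self _).trans h1)
      rw [← hpt z] at h2
      have h5 : z.re ^ 2 ≤ 4 := by rw [hz]; nlinarith
      have h9 := sq_nonneg (z.im - T)
      calc ‖GG z‖ * Real.exp (z.re ^ 2 - (z.im - T) ^ 2)
          ≤ Real.exp C2 * Real.exp (z.re ^ 2 - (z.im - T) ^ 2) := by gcongr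
        _ ≤ Real.exp (C2 + 4) := by
            rw [← Real.exp_add]
            apply Real.exp_le_exp.2
            linarith
        _ ≤ M := le_max_right _ _
  rw [aux_norm, pt_re, pt_im, sub_self] at key
  unfold g
  have hsl : 0 ≤ κ * (1 - s / L) * Real.log T := by
    have : s / L ≤ 1 := by rw [div_le_one hL0]; exact hsL
    have : 0 ≤ 1 - s / L := by linarith
    positivity
  rcases eq_or_ne (GG (pt s T)) 0 with h0 | h0
  · rw [h0, norm_zero, Real.log_zero]
    have := Real.log_nonneg hM1
    linarith
  · have h1 := Real.log_le_log (mul_pos (norm_pos_iff.2 h0) (Real.exp_pos _)) key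
    rw [Real.log_mul (norm_ne_zero_iff.2 h0) (Real.exp_pos _).ne', Real.log_exp] at h1
    have e : 1/2 + s - 1/2 = s := by ring
    rw [e] at h1
    nlinarith [sq_nonneg (1/2 + s)]

/-- upper bound of the horizontal integral -/
theorem II_conv {κ C η : ℝ} (hκ : 0 ≤ κ) (hC : ∀ t : ℝ, 1 ≤ |t| → Z t ≤ C * |t| ^ κ) (hη : 0 < η)
    (hη1 : η ≤ 1) : ∃ C' : ℝ, 0 ≤ C' ∧ ∀ T : ℝ, 1 ≤ T →
      II 0 (3/2) T ≤ κ * (1/2 + η) / 2 * Real.log T + C' := by
  obtain ⟨C1, hC10, hC1⟩ := conv hκ hC hη hη1
  obtain ⟨C2, hC20, hC2⟩ := II_right hη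
  set L : ℝ := 1/2 + η with hL
  have hL0 : 0 < L := by linarith
  refine ⟨C1 * L + C2 * 1, by positivity, fun T hT => ?_⟩
  rw [II_split (a := 0) (b := L) (c := 3/2) (by norm_num) hL0.le (by linarith) T]
  have h1 := (hC2 L (3/2) T hL.ge (by linarith) (by norm_num)).1
  rw [abs_le] at h1
  have h2 : C2 * (3/2 - L) ≤ C2 * 1 := by gcongr; linarith
  have h3 : II 0 L T ≤ ∫ s in (0:ℝ)..L, (κ * (1 - s / L) * Real.log T + C1) := by
    unfold II
    refine intervalIntegral.integral_mono_on hL0.le
      (g_intervalIntegrable (by norm_num) hL0.le T) ?_ fun s hs => hC1 s T hs.1 hs.2 hT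
    exact Continuous.intervalIntegrable (by fun_prop) _ _
  have h4 : ∫ s in (0:ℝ)..L, (κ * (1 - s / L) * Real.log T + C1) =
      κ * L / 2 * Real.log T + C1 * L := by
    have e : (fun s : ℝ => κ * (1 - s / L) * Real.log T + C1) =
        fun s => (κ * Real.log T + C1) + (-(κ * Real.log T / L)) * s := by
      funext s; field_simp; ring
    rw [e, intervalIntegral.integral_add (intervalIntegrable_const)
      (Continuous.intervalIntegrable (by fun_prop) _ _), intervalIntegral.integral_const,
      intervalIntegral.integral_const_mul, integral_id]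
    simp only [smul_eq_mul]
    field_simp
    ring
  linarith

end Pool.Agent.Y757.LS
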