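import Mathlib
import Pool.Agent.Y757.LS.Conv

/-!
# Final inequalities
-/

set_option autoImplicit false

open MeasureTheory Filter Topology Set Real

namespace Pool.Agent.Y757.LS

/-- if `|ζ(1/2+iT)| ≠ 0` then `GG ≠ 0` and `log |ζ| ≤ g + log 5` -/
lemma base_point {T : ℝ} (hT : 1 ≤ T) (hZ : 0 < Z T) :
    GG (pt 0 T) ≠ 0 ∧ Real.log (Z T) ≤ g 0 T + Real.log 5 := by
  have hTa : 1 ≤ |T| := by rw [abs_of_nonneg (by linarith)]; exact hT
  rw [Z_eq] at hZ
  refine ⟨(GG_ne_iff (by norm_num) hTa).2 (norm_pos_iff.1 hZ), ?_⟩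
  rw [Z_eq]
  exact (g_zeta (by norm_num) hTa).2

lemma near_abs {B T t : ℝ} (hT : B + 1 ≤ T) (ht : |t - T| ≤ B) : 1 ≤ |t| := by
  rw [abs_le] at ht
  refine le_trans ?_ (le_abs_self t)
  linarith [ht.1]

/-- unconditional lower bound for the maximum of `J` near `T` -/
theorem lower {ε : ℝ} (hε : 0 < ε) : ∃ B T₀ : ℝ, ∀ T : ℝ, T₀ ≤ T →
    ∃ t : ℝ, |t - T| ≤ B ∧ -ε * Real.log T ≤ J t := by
  obtain ⟨C, hC0, hC⟩ := main0
  obtain ⟨K, hK0, hK⟩ := loc_maj
  have hc := C0_nonneg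
  set e : ℝ := min ε 1 with he
  have he0 : 0 < e := lt_min hε one_pos
  have he1 : e ≤ 1 := min_le_right _ _
  have heε : e ≤ ε := min_le_left _ _
  set B : ℝ := 1 + 2 * K * C0 / e with hB
  have hB1 : 1 ≤ B := by
    have : 0 ≤ 2 * K * C0 / e := by positivity
    linarith
  have hB0 : 0 < B := by linarith
  refine ⟨B, max (B + 1) (Real.exp (B + 2 * (C + 1) / e)), fun T hT => ?_⟩
  have hT1 : B + 1 ≤ T := (le_max_left _ _).trans hT
  have hT2 : Real.exp (B + 2 * (C + 1) / e) ≤ T := (le_max_right _ _).trans hT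
  have hT0 : 0 < T := by linarith
  have hl : B + 2 * (C + 1) / e ≤ Real.log T := (Real.le_log_iff_exp_le hT0).2 hT2
  have hl1 : 0 ≤ 2 * (C + 1) / e := by positivity
  have hl2 : 2 * (C + 1) / e ≤ Real.log T := by linarith
  have hlT : 0 < Real.log T := by linarith
  by_contra hcon
  push Not at hcon
  have h1 := hK B T (-e * Real.log T) hB1 (by linarith) (by linarith) (by nlinarith) (by
    intro t ht
    have h2 := hcon t ht
    have h3 := (J_close (near_abs hT1 ht)).1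
    have h4 : -ε * Real.log T ≤ -e * Real.log T := by nlinarith
    linarith)
  have h2 := hC T _ _ h1
  have h3 : K * Real.log T / B ^ 2 * C0 ≤ e / 2 * Real.log T := by
    have h4 : K * C0 ≤ e / 2 * B ^ 2 := by
      have h5 : 2 * K * C0 / e ≤ B := by linarith
      rw [div_le_iff₀ he0] at h5
      have h7 : e * B ≤ e * B ^ 2 := mul_le_mul_of_nonneg_left (by nlinarith) he0.le
      linarith
    have e1 : K * Real.log T / B ^ 2 * C0 = (K * C0) * Real.log T / B ^ 2 := by ring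
    rw [e1, div_le_iff₀ (by positivity)]
    nlinarith
  rw [div_le_iff₀ he0] at hl2
  nlinarith

/-- **the law, in terms of a main inequality** -/
theorem law_gen {α β κ a : ℝ} (hα : 0 < α) (h : α * a + β < κ)
    (hmain : ∃ C : ℝ, 0 ≤ C ∧ ∀ T p q : ℝ, 1 ≤ T → 0 ≤ p → 0 ≤ q → Maj (II 0 (3/2)) T p q →
      GG (pt 0 T) ≠ 0 → g 0 T ≤ α * p + β * Real.log T + C * (1 + q)) :
    ∃ B T₀ : ℝ, ∀ T : ℝ, T₀ ≤ T → T ^ κ ≤ Z T →
      ∃ t : ℝ, |t - T| ≤ B ∧ a * Real.log T ≤ J t := by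
  rcases lt_or_ge a 0 with ha | ha
  · obtain ⟨B, T₀, hBT⟩ := lower (ε := -a) (by linarith)
    refine ⟨B, T₀, fun T hT _ => ?_⟩
    obtain ⟨t, ht1, ht2⟩ := hBT T hT
    rw [neg_neg] at ht2
    exact ⟨t, ht1, ht2⟩
  · obtain ⟨C, hC0, hC⟩ := hmain
    obtain ⟨K, hK0, hK⟩ := loc_maj
    set γ : ℝ := κ - (α * a + β) with hγ
    have hγ0 : 0 < γ := by linarith
    set B : ℝ := 1 + 2 * C * K / γ with hB
    have hB1 : 1 ≤ B := by
      have : 0 ≤ 2 * C * K / γ := by positivity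
      linarith
    have hB0 : 0 < B := by linarith
    have hl5 : 0 ≤ Real.log 5 := Real.log_nonneg (by norm_num)
    refine ⟨B, max (B + 1) (Real.exp (B + 2 * (C + Real.log 5 + 1) / γ)), fun T hT hZ => ?_⟩
    have hT1 : B + 1 ≤ T := (le_max_left _ _).trans hT
    have hT2 : Real.exp (B + 2 * (C + Real.log 5 + 1) / γ) ≤ T := (le_max_right _ _).trans hT
    have hT0 : 0 < T := by linarith
    have hl : B + 2 * (C + Real.log 5 + 1) / γ ≤ Real.log T := (Real.le_log_iff_exp_le hT0).2 hT2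
    have hl1 : 0 ≤ 2 * (C + Real.log 5 + 1) / γ := by positivity
    have hl2 : 2 * (C + Real.log 5 + 1) / γ ≤ Real.log T := by linarith
    have hlT : 0 < Real.log T := by linarith
    by_contra hcon
    push Not at hcon
    have haP : 0 ≤ a * Real.log T := by positivity
    have h1 := hK B T (a * Real.log T) hB1 (by linarith) (by linarith) (by linarith) (by
      intro t ht
      have h2 := hcon t ht
      have h3 := (J_close (near_abs hT1 ht)).1
      linarith)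
    have hZ0 : 0 < Z T := lt_of_lt_of_le (Real.rpow_pos_of_pos hT0 κ) hZ
    obtain ⟨hG, hg⟩ := base_point (by linarith) hZ0
    have hq : 0 ≤ K * Real.log T / B ^ 2 := by positivity
    have h2 := hC T _ _ (by linarith) haP hq h1 hG
    have h3 : κ * Real.log T ≤ Real.log (Z T) := by
      have := Real.log_le_log (Real.rpow_pos_of_pos hT0 κ) hZ
      rwa [Real.log_rpow hT0] at this
    have h4 : C * (K * Real.log T / B ^ 2) ≤ γ / 2 * Real.log T := by
      have h5 : C * K ≤ γ / 2 * B ^ 2 := by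
        have h6 : 2 * C * K / γ ≤ B := by linarith
        rw [div_le_iff₀ hγ0] at h6
        have h7 : γ * B ≤ γ * B ^ 2 := mul_le_mul_of_nonneg_left (by nlinarith) hγ0.le
        linarith
      have e1 : C * (K * Real.log T / B ^ 2) = (C * K) * Real.log T / B ^ 2 := by ring
      rw [e1, div_le_iff₀ (by positivity)]
      nlinarith
    rw [div_le_iff₀ hγ0] at hl2
    have e2 : κ * Real.log T = α * (a * Real.log T) + β * Real.log T + γ * Real.log T := by
      rw [hγ]; ring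
    nlinarith

/-- the region of pairs `(κ, a)` for which large values `T^κ` force `J ≥ a log T` nearby -/
def Law (κ a : ℝ) : Prop :=
  (∃ x : ℝ, 1/4 < x ∧ x ≤ 1/2 ∧ a < x * (κ - x / 4)) ∨
  (∃ δ : ℝ, 0 < δ ∧ δ ≤ 1/3 ∧ a < δ ^ 2 * (κ - δ / 4) / (1 - 2 * δ))

theorem law_pow {κ a : ℝ} (h : Law κ a) : ∃ B T₀ : ℝ, ∀ T : ℝ, T₀ ≤ T → T ^ κ ≤ Z T →
      ∃ t : ℝ, |t - T| ≤ B ∧ a * Real.log T ≤ J t := by
  rcases h with ⟨x, hx1, hx2, hxa⟩ | ⟨δ, hδ0, hδ1, hδa⟩
  · have hx0 : 0 < x := by linarith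
    refine law_gen (α := 1 / x) (β := x / 4) (by positivity) ?_ ?_
    · have : 1 / x * a < κ - x / 4 := by
        rw [one_div, inv_mul_lt_iff₀ hx0]
        exact hxa
      linarith
    · obtain ⟨C, hC0, hC⟩ := main1 hx1 hx2
      refine ⟨C, hC0, fun T p q hT hp hq hm h0 => ?_⟩
      have := hC T p q hT hp hq hm h0
      rw [show 1 / x * p = p / x by ring]
      exact this
  · rcases lt_or_ge a 0 with ha | ha
    · obtain ⟨B, T₀, hBT⟩ := lower (ε := -a) (by linarith)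
      refine ⟨B, T₀, fun T hT _ => ?_⟩
      obtain ⟨t, ht1, ht2⟩ := hBT T hT
      rw [neg_neg] at ht2
      exact ⟨t, ht1, ht2⟩
    · have h12 : 0 < 1 - 2 * δ := by linarith
      rw [lt_div_iff₀ h12] at hδa
      set D : ℝ := δ ^ 2 * (κ - δ / 4) - a * (1 - 2 * δ) with hD
      have hD0 : 0 < D := by linarith
      set η : ℝ := min (1/4) (D / (4 * (a + 1))) with hη
      have hη0 : 0 < η := lt_min (by norm_num) (by positivity)
      have hη1 : η ≤ 1/4 := min_le_left _ _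
      have hη2 : η ≤ D / (4 * (a + 1)) := min_le_right _ _
      have hη3 : a * (2 * η) < D := by
        rw [le_div_iff₀ (by positivity)] at hη2
        nlinarith
      set H : ℝ := 1/2 - δ + η with hH
      refine law_gen (α := 2 * H / δ ^ 2) (β := δ / 4) ?_ ?_ (main2 hδ0 (by linarith)
        (by linarith) (by linarith) (by linarith))
      · have : 0 < H := by linarith
        positivity
      · have h1 : 2 * H / δ ^ 2 * a < κ - δ / 4 := by
          rw [div_mul_eq_mul_div, div_lt_iff₀ (by positivity)]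
          have : 2 * H * a = a * (1 - 2 * δ) + a * (2 * η) := by rw [hH]; ring
          rw [this]
          linarith
        linarith

/-- **the uniform law** -/
theorem law_unif : ∃ C T₀ : ℝ, 0 < C ∧ ∀ T : ℝ, T₀ ≤ T → C * Real.log T ^ 2 ≤ Real.log (Z T) ^ 3 →
    ∃ t : ℝ, (t - T) ^ 2 ≤ C * (Real.log T / Real.log (Z T)) ^ 3 ∧
      Real.log (Z T) ^ 3 / (64 * Real.log T ^ 2) ≤ J t := by
  obtain ⟨Cm, hCm0, hCm⟩ := main2u
  obtain ⟨K, hK0, hK⟩ := loc_maj
  obtain ⟨Cz, hCz0, hCz⟩ := Z_upper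
  have hl5 : 0 ≤ Real.log 5 := Real.log_nonneg (by norm_num)
  set C : ℝ := 8 + 128 * Cm + 128 * Cm * K with hC
  have hC8 : 8 ≤ C := by
    have : 0 ≤ 128 * Cm + 128 * Cm * K := by positivity
    linarith
  have hC1 : 128 * Cm ≤ C := by
    have : 0 ≤ 128 * Cm * K := by positivity
    linarith
  have hC2 : 128 * Cm * K ≤ C := by
    have : 0 ≤ 128 * Cm := by positivity
    linarith
  have hC0 : 0 < C := by linarith
  refine ⟨C, max (Real.exp (Cz + 1 + (8 * (Real.log 5 + 1)) ^ 3)) 1, hC0, fun T hT hV => ?_⟩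
  have hT1 : 1 ≤ T := (le_max_right _ _).trans hT
  have hT2 : Real.exp (Cz + 1 + (8 * (Real.log 5 + 1)) ^ 3) ≤ T := (le_max_left _ _).trans hT
  have hT0 : 0 < T := by linarith
  set ℓ : ℝ := Real.log T with hℓ
  set V : ℝ := Real.log (Z T) with hVdef
  have hl : Cz + 1 + (8 * (Real.log 5 + 1)) ^ 3 ≤ ℓ := (Real.le_log_iff_exp_le hT0).2 hT2
  have hcube : 0 ≤ (8 * (Real.log 5 + 1)) ^ 3 := by positivity
  have hℓ1 : 1 ≤ ℓ := by linarith
  have hℓ0 : 0 < ℓ := by linarith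
  have hV3 : 0 < V ^ 3 := lt_of_lt_of_le (by positivity) hV
  have hV0 : 0 < V := by
    by_contra hcon
    rw [not_lt] at hcon
    have : V ^ 3 ≤ 0 := by
      have := mul_nonneg (sq_nonneg V) (neg_nonneg.2 hcon)
      nlinarith
    linarith
  have hVu : V ≤ ℓ + Cz := hCz T hT1
  have hV2 : V < 2 * ℓ := by linarith
  -- `V` is large
  have hV8 : 8 * (Real.log 5 + 1) ≤ V := by
    by_contra hcon
    rw [not_le] at hcon
    have h1 : V ^ 3 < (8 * (Real.log 5 + 1)) ^ 3 := by gcongr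
    have h2 : ℓ ≤ ℓ ^ 2 := by nlinarith
    nlinarith
  have hZ0 : 0 < Z T := by
    by_contra hcon
    rw [not_lt] at hcon
    have h0 : Z T = 0 := le_antisymm hcon (norm_nonneg _)
    rw [hVdef, h0, Real.log_zero] at hV0
    linarith
  obtain ⟨hG, hg⟩ := base_point hT1 hZ0
  -- the radius
  set B : ℝ := Real.sqrt (C * (ℓ / V) ^ 3) with hB
  have hBsq : B ^ 2 = C * (ℓ / V) ^ 3 := Real.sq_sqrt (by positivity)
  have hB1 : 1 ≤ B := by
    rw [hB, Real.one_le_sqrt]
    have h1 : (1/2 : ℝ) ≤ ℓ / V := by rw [le_div_iff₀ hV0]; linarith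
    calc (1:ℝ) ≤ 8 * (1/2) ^ 3 := by norm_num
      _ ≤ C * (ℓ / V) ^ 3 := by gcongr
  have hB0 : 0 < B := by linarith
  have hBℓ : B ^ 2 ≤ ℓ := by
    rw [hBsq, div_pow, ← mul_div_assoc, div_le_iff₀ hV3]
    have : C * ℓ ^ 3 = ℓ * (C * ℓ ^ 2) := by ring
    rw [this]
    gcongr
  have hBℓ' : B ≤ ℓ := by nlinarith
  have hBT : B + 1 ≤ T := by
    have h1 : ℓ + 1 ≤ T := by
      have := Real.add_one_le_exp ℓ
      rwa [hℓ, Real.exp_log hT0] at this
    linarith
  by_contra hcon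
  push Not at hcon
  set P : ℝ := V ^ 3 / (64 * ℓ ^ 2) with hP
  have hP0 : 0 ≤ P := by positivity
  have h1 := hK B T P hB1 hT1 hBℓ' (by linarith) (by
    intro t ht
    have h2 : (t - T) ^ 2 ≤ C * (ℓ / V) ^ 3 := by
      rw [← hBsq, ← sq_abs (t - T)]
      have := abs_nonneg (t - T)
      gcongr
    have h3 := hcon t h2
    have h4 := (J_close (near_abs hBT ht)).1
    linarith)
  set δ : ℝ := V / (4 * ℓ) with hδ
  have hδ0 : 0 < δ := by positivity
  have hδ1 : δ < 1/2 := by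
    rw [hδ, div_lt_iff₀ (by positivity)]
    linarith
  have hq : 0 ≤ K * ℓ / B ^ 2 := by positivity
  have h2 := hCm δ hδ0 hδ1 T P _ hT1 hP0 hq h1 hG
  have e1 : 2 / δ ^ 2 * P = V / 2 := by
    rw [hδ, hP]; field_simp; norm_num
  have e2 : δ / 4 * Real.log T = V / 16 := by
    rw [hδ, ← hℓ]; field_simp; norm_num
  have e3 : Cm / δ ^ 2 * (1 + K * ℓ / B ^ 2) =
      16 * Cm * ℓ ^ 2 / V ^ 2 + 16 * Cm * K * V / C := by
    rw [hBsq, hδ]; field_simp; ring
  have h3 : 16 * Cm * ℓ ^ 2 / V ^ 2 ≤ V / 8 := by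
    rw [div_le_iff₀ (by positivity)]
    have : 128 * Cm * ℓ ^ 2 ≤ C * ℓ ^ 2 := by gcongr
    nlinarith
  have h4 : 16 * Cm * K * V / C ≤ V / 8 := by
    rw [div_le_iff₀ hC0]
    nlinarith
  rw [e1, e2, e3] at h2
  linarith

end Pool.Agent.Y757.LS
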