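import Mathlib
import Pool.Agent.Y757.LS.Fin

/-!
# Criteria
-/

set_option autoImplicit false

open MeasureTheory Filter Topology Set Real

namespace Pool.Agent.Y757.LS

/-- `|ζ(1/2 + it)| = O((1 + |t|)^(κ + ε))` for every `ε > 0` -/
def Exponent (κ : ℝ) : Prop := ∀ ε : ℝ, 0 < ε → ∃ C : ℝ, ∀ t : ℝ, Z t ≤ C * (1 + |t|) ^ (κ + ε)

/-- bounds on the critical line give bounds of `J` -/
theorem J_upper {κ : ℝ} (hκ : 0 ≤ κ) (h : Exponent κ) {ε : ℝ} (hε : 0 < ε) :
    ∃ T₀ : ℝ, ∀ t : ℝ, T₀ ≤ t → J t ≤ (κ / 4 + ε) * Real.log t := by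
  set e : ℝ := ε / 4 with he
  have he0 : 0 < e := by positivity
  obtain ⟨C, hC⟩ := h e he0
  have hC' : ∀ t : ℝ, 1 ≤ |t| → Z t ≤ (max C 0 * 2 ^ (κ + e)) * |t| ^ (κ + e) := by
    intro t ht
    have h1 := hC t
    have h2 : (1 + |t|) ^ (κ + e) ≤ 2 ^ (κ + e) * |t| ^ (κ + e) := by
      rw [← Real.mul_rpow (by norm_num) (by linarith)]
      apply Real.rpow_le_rpow (by linarith) (by linarith) (by linarith)
    have h3 : 0 ≤ (1 + |t|) ^ (κ + e) := by positivity
    calc Z t ≤ C * (1 + |t|) ^ (κ + e) := h1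
      _ ≤ max C 0 * (1 + |t|) ^ (κ + e) := mul_le_mul_of_nonneg_right (le_max_left _ _) h3
      _ ≤ max C 0 * (2 ^ (κ + e) * |t| ^ (κ + e)) :=
          mul_le_mul_of_nonneg_left h2 (le_max_right _ _)
      _ = _ := by ring
  set η : ℝ := min 1 (ε / (4 * (κ + 1))) with hη
  have hη0 : 0 < η := lt_min one_pos (by positivity)
  have hη1 : η ≤ 1 := min_le_left _ _
  have hη2 : κ * η ≤ ε / 4 := by
    have h1 : η ≤ ε / (4 * (κ + 1)) := min_le_right _ _
    rw [le_div_iff₀ (by positivity)] at h1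
    nlinarith
  obtain ⟨C1, hC10, hC1⟩ := II_conv (by linarith : 0 ≤ κ + e) hC' hη0 hη1
  have hl5 : 0 ≤ Real.log 5 := Real.log_nonneg (by norm_num)
  refine ⟨max 1 (Real.exp (2 * (C1 + 3/2 * Real.log 5) / ε)), fun t ht => ?_⟩
  have ht1 : 1 ≤ t := (le_max_left _ _).trans ht
  have ht2 : Real.exp (2 * (C1 + 3/2 * Real.log 5) / ε) ≤ t := (le_max_right _ _).trans ht
  have hl : 2 * (C1 + 3/2 * Real.log 5) / ε ≤ Real.log t :=
    (Real.le_log_iff_exp_le (by linarith)).2 ht2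
  rw [div_le_iff₀ hε] at hl
  have hlt : 0 ≤ Real.log t := Real.log_nonneg ht1
  have h1 := hC1 t ht1
  have h2 := (J_close (t := t) (by rw [abs_of_nonneg (by linarith)]; exact ht1)).2
  have h3 : (κ + e) * (1/2 + η) / 2 ≤ κ / 4 + ε / 2 := by
    have h4 : (κ + e) * (1/2 + η) / 2 = κ / 4 + (κ * η) / 2 + e / 4 + e * η / 2 := by ring
    have h5 : e * η ≤ e * 1 := by gcongr
    rw [h4]
    rw [he] at h5 ⊢
    linarith
  have h4 : (κ + e) * (1/2 + η) / 2 * Real.log t ≤ (κ / 4 + ε / 2) * Real.log t := by gcongr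
  linarith

lemma Z_neg (t : ℝ) : Z (-t) = Z t := by
  unfold Z
  have e : riemannZeta (1 / 2 + ((-t : ℝ) : ℂ) * Complex.I) =
      (starRingEnd ℂ) (riemannZeta (1 / 2 + (t : ℂ) * Complex.I)) := by
    rw [← riemannZeta_conj]
    congr 1
    simp only [map_add, map_div₀, map_one, map_mul, Complex.conj_ofReal, Complex.conj_I]
    rw [Complex.conj_ofNat]
    push_cast
    ring
  rw [e, Complex.norm_conj]

lemma Z_continuous : Continuous Z := by
  unfold Z
  refine Continuous.norm ?_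
  rw [continuous_iff_continuousAt]
  intro t
  have hne : (1 / 2 + (t : ℂ) * Complex.I) ≠ 1 := by
    intro h
    have := congrArg Complex.re h
    norm_num at this
  have h1 : ContinuousAt riemannZeta (1 / 2 + (t : ℂ) * Complex.I) :=
    (differentiableAt_riemannZeta hne).continuousAt
  have h2 : ContinuousAt (fun t : ℝ => (1 / 2 + (t : ℂ) * Complex.I : ℂ)) t := by fun_prop
  exact ContinuousAt.comp (g := riemannZeta) (f := fun t : ℝ => (1 / 2 + (t : ℂ) * Complex.I : ℂ)) h1 h2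

/-- an eventual bound gives a global one -/
lemma exponent_of {κ T₁ : ℝ} (hκ : 0 ≤ κ) (h : ∀ t : ℝ, T₁ ≤ t → Z t < t ^ κ) : Exponent κ := by
  intro ε hε
  set R : ℝ := max T₁ 1 with hR
  obtain ⟨C, hC⟩ := (isCompact_Icc (a := -R) (b := R)).exists_bound_of_continuousOn
    Z_continuous.continuousOn
  refine ⟨max C 1, fun t => ?_⟩
  have h0 := abs_nonneg t
  have h1 : (1:ℝ) ≤ (1 + |t|) ^ (κ + ε) := Real.one_le_rpow (by linarith) (by linarith)
  have hm : 0 ≤ max C 1 := le_trans zero_le_one (le_max_right _ _)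
  rcases le_or_gt |t| R with h2 | h2
  · have h3 := hC t (abs_le.1 h2)
    rw [Real.norm_eq_abs] at h3
    calc Z t ≤ C := (le_abs_self _).trans h3
      _ ≤ max C 1 := le_max_left _ _
      _ ≤ _ := le_mul_of_one_le_right hm h1
  · have h3 : Z t = Z |t| := by
      rcases abs_cases t with ⟨h4, _⟩ | ⟨h4, _⟩
      · rw [h4]
      · rw [h4, Z_neg]
    rw [h3]
    have h4 := h |t| ((le_max_left _ _).trans h2.le)
    have h5 : 1 ≤ |t| := (le_max_right _ _).trans h2.le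
    calc Z |t| ≤ |t| ^ κ := h4.le
      _ ≤ (1 + |t|) ^ κ := by gcongr; linarith
      _ ≤ (1 + |t|) ^ (κ + ε) := Real.rpow_le_rpow_of_exponent_le (by linarith) (by linarith)
      _ ≤ max C 1 * (1 + |t|) ^ (κ + ε) := le_mul_of_one_le_left (by linarith) (le_max_right _ _)

lemma Law.exists_gt {κ a : ℝ} (h : Law κ a) : ∃ a' : ℝ, a < a' ∧ Law κ a' := by
  rcases h with ⟨x, hx1, hx2, hxa⟩ | ⟨δ, hδ0, hδ1, hδa⟩
  · exact ⟨(a + x * (κ - x / 4)) / 2, by linarith, Or.inl ⟨x, hx1, hx2, by linarith⟩⟩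
  · exact ⟨(a + δ ^ 2 * (κ - δ / 4) / (1 - 2 * δ)) / 2, by linarith,
      Or.inr ⟨δ, hδ0, hδ1, by linarith⟩⟩

/-- **one-sided criterion with exponents** -/
theorem crit {κ a : ℝ} (hκ : 0 ≤ κ) (h : Law κ a) {T₀ : ℝ}
    (hJ : ∀ t : ℝ, T₀ ≤ t → J t ≤ a * Real.log t) : Exponent κ := by
  obtain ⟨a', haa, hL⟩ := h.exists_gt
  obtain ⟨B, T₁, hB⟩ := law_pow hL
  set D : ℝ := a' - a with hD
  have hD0 : 0 < D := by linarith
  set B' : ℝ := max B 0 with hB'
  have hB'0 : 0 ≤ B' := le_max_right _ _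
  refine exponent_of (T₁ := max (max T₁ (T₀ + B')) (max (2 * B' + 1) (Real.exp ((|a| + 1) / D)))) hκ
    fun T hT => ?_
  have hT1 : T₁ ≤ T := ((le_max_left _ _).trans (le_max_left _ _)).trans hT
  have hT2 : T₀ + B' ≤ T := ((le_max_right _ _).trans (le_max_left _ _)).trans hT
  have hT3 : 2 * B' + 1 ≤ T := ((le_max_left _ _).trans (le_max_right _ _)).trans hT
  have hT4 : Real.exp ((|a| + 1) / D) ≤ T := ((le_max_right _ _).trans (le_max_right _ _)).trans hT
  have hT0 : 0 < T := by linarith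
  have hl : (|a| + 1) / D ≤ Real.log T := (Real.le_log_iff_exp_le hT0).2 hT4
  rw [div_le_iff₀ hD0] at hl
  by_contra hcon
  rw [not_lt] at hcon
  obtain ⟨t, ht1, ht2⟩ := hB T hT1 hcon
  have ht1' : |t - T| ≤ B' := ht1.trans (le_max_left _ _)
  rw [abs_le] at ht1'
  have h1 := hJ t (by linarith [ht1'.1])
  have ht0 : 0 < t := by linarith [ht1'.1]
  have hu : Real.log t ≤ Real.log T + 1 := by
    have h2 : t ≤ T * Real.exp 1 := by
      have := Real.add_one_le_exp (1:ℝ)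
      nlinarith [ht1'.2]
    have h3 := Real.log_le_log ht0 h2
    rwa [Real.log_mul hT0.ne' (Real.exp_pos _).ne', Real.log_exp] at h3
  have hlo : Real.log T - 1 ≤ Real.log t := by
    have h2 : T ≤ t * Real.exp 1 := by
      have := Real.add_one_le_exp (1:ℝ)
      nlinarith [ht1'.1]
    have h3 := Real.log_le_log hT0 h2
    rw [Real.log_mul ht0.ne' (Real.exp_pos _).ne', Real.log_exp] at h3
    linarith
  have h2 : a * Real.log t ≤ a * Real.log T + |a| := by
    have h3 : |Real.log t - Real.log T| ≤ 1 := by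
      rw [abs_le]; constructor <;> linarith
    have h4 : a * (Real.log t - Real.log T) ≤ |a| * 1 := by
      calc a * (Real.log t - Real.log T) ≤ |a * (Real.log t - Real.log T)| := le_abs_self _
        _ = |a| * |Real.log t - Real.log T| := abs_mul _ _
        _ ≤ |a| * 1 := by gcongr
    linarith
  have h3 : a' * Real.log T = a * Real.log T + Real.log T * D := by rw [hD]; ring
  linarith

/-- **one-sided criterion** -/
theorem lindelof_iff : Exponent 0 ↔ ∀ ε : ℝ, 0 < ε → ∃ T₀ : ℝ, ∀ t : ℝ, T₀ ≤ t →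
    J t ≤ ε * Real.log t := by
  constructor
  · intro h ε hε
    obtain ⟨T₀, hT₀⟩ := J_upper le_rfl h hε
    refine ⟨T₀, fun t ht => ?_⟩
    have := hT₀ t ht
    rwa [zero_div, zero_add] at this
  · intro h ε hε
    rw [zero_add]
    set κ : ℝ := min (ε / 2) (1/8) with hκ
    have hκ0 : 0 < κ := lt_min (by linarith) (by norm_num)
    have hκ1 : κ ≤ 1/8 := min_le_right _ _
    have hκ2 : κ ≤ ε / 2 := min_le_left _ _
    set a : ℝ := κ ^ 2 * (κ - κ / 4) / (1 - 2 * κ) / 2 with ha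
    have h12 : 0 < 1 - 2 * κ := by linarith
    have ha0 : 0 < a := by
      have : 0 < κ - κ / 4 := by linarith
      positivity
    have hL : Law κ a := Or.inr ⟨κ, hκ0, by linarith, by
      have : κ ^ 2 * (κ - κ / 4) / (1 - 2 * κ) = 2 * a := by rw [ha]; ring
      rw [this]; linarith⟩
    obtain ⟨T₀, hT₀⟩ := h a ha0
    obtain ⟨C, hC⟩ := crit hκ0.le hL hT₀ (ε / 2) (by linarith)
    refine ⟨max C 0, fun t => (hC t).trans ?_⟩
    have h0 := abs_nonneg t
    have h1 : (1 + |t|) ^ (κ + ε / 2) ≤ (1 + |t|) ^ ε :=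
      Real.rpow_le_rpow_of_exponent_le (by linarith) (by linarith)
    have h2 : 0 ≤ (1 + |t|) ^ (κ + ε / 2) := by positivity
    calc C * (1 + |t|) ^ (κ + ε / 2) ≤ max C 0 * (1 + |t|) ^ (κ + ε / 2) :=
          mul_le_mul_of_nonneg_right (le_max_left _ _) h2
      _ ≤ _ := mul_le_mul_of_nonneg_left h1 (le_max_right _ _)

/-- the quadratic law -/
lemma law_sq {κ a : ℝ} (h1 : 1/8 ≤ κ) (h2 : κ ≤ 1/4) (h : a < κ ^ 2) : Law κ a := by
  left
  rcases h1.eq_or_lt with h3 | h3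
  · -- `κ = 1/8`: take `x` slightly above `1/4`
    subst h3
    set e : ℝ := min (1/8) ((1/64 - a) * 2) with he
    have ha : a < 1/64 := by norm_num at h; linarith
    have he0 : 0 < e := lt_min (by norm_num) (by linarith)
    have he1 : e ≤ 1/8 := min_le_left _ _
    have he2 : e ≤ (1/64 - a) * 2 := min_le_right _ _
    refine ⟨1/4 + e, by linarith, by linarith, ?_⟩
    nlinarith
  · exact ⟨2 * κ, by linarith, by linarith, by nlinarith⟩

/-- the cubic law -/
lemma law_cube {κ a : ℝ} (h1 : 0 < κ) (h2 : κ ≤ 1/8)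
    (h : a < 64 / 27 * κ ^ 3 / (1 - 16 / 3 * κ)) : Law κ a := by
  right
  refine ⟨8 / 3 * κ, by positivity, by linarith, ?_⟩
  have e1 : (8 / 3 * κ) ^ 2 * (κ - 8 / 3 * κ / 4) = 64 / 27 * κ ^ 3 := by ring
  have e2 : 1 - 2 * (8 / 3 * κ) = 1 - 16 / 3 * κ := by ring
  rw [e1, e2]
  exact h

end Pool.Agent.Y757.LS
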